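import Mathlib

/-!
The algebra `F[s_1, …, s_m] / (s_i ^ 2)` in characteristic two, realised as the group algebra of
`(ℤ/2)^m`, with its derivations and the top coefficient functional.
-/

noncomputable section

open Finset

namespace Pool.Agent.Lib.MP_631532_al

abbrev V (m : ℕ) := Fin m → ZMod 2

abbrev Al (F : Type) [CommRing F] (m : ℕ) := AddMonoidAlgebra F (V m)

variable {F : Type} [CommRing F] [CharP F 2] {m : ℕ}

/-- The prime field inside `F`. -/
def cF (F : Type) [CommRing F] [CharP F 2] : ZMod 2 →+* F := ZMod.castHom (dvd_refl 2) F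

/-- The prime field inside the algebra. -/
def cA (F : Type) [CommRing F] [CharP F 2] (m : ℕ) : ZMod 2 →+* Al F m :=
  (algebraMap F (Al F m)).comp (cF F)

lemma zmod2_cases (x : ZMod 2) : x = 0 ∨ x = 1 := by
  revert x; decide

lemma zmod2_mul_self (x : ZMod 2) : x * x = x := by
  revert x; decide

lemma zmod2_add_self (x : ZMod 2) : x + x = 0 := by
  revert x; decide

lemma V_add_self (v : V m) : v + v = 0 := by
  funext i; exact zmod2_add_self _

lemma F_add_self (x : F) : x + x = 0 := CharTwo.add_self_eq_zero x

lemma A_two : (2 : Al F m) = 0 := by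
  have h : (2 : Al F m) = algebraMap F (Al F m) 2 := (map_ofNat _ 2).symm
  have h2 : (2 : F) = 0 := CharTwo.two_eq_zero
  exact h.trans ((congrArg _ h2).trans (map_zero _))

lemma A_add_self (a : Al F m) : a + a = 0 := by
  rw [← two_mul, A_two, zero_mul]

lemma A_neg (a : Al F m) : -a = a := neg_eq_of_add_eq_zero_left (A_add_self a)

/-- The group elements. -/
def gg (F : Type) [CommRing F] {m : ℕ} (v : V m) : Al F m := AddMonoidAlgebra.single v 1

omit [CharP F 2] in
lemma gg_add (v w : V m) : gg F (v + w) = gg F v * gg F w := by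
  simp [gg, AddMonoidAlgebra.single_mul_single]

omit [CharP F 2] in
lemma gg_zero : gg F (0 : V m) = 1 := rfl

omit [CharP F 2] in
lemma gg_mul_self (v : V m) : gg F v * gg F v = 1 := by
  rw [← gg_add, V_add_self, gg_zero]

/-- The standard basis of `V m`. -/
def ee (i : Fin m) : V m := Pi.single i 1

/-- The pairing. -/
def dot (l v : V m) : ZMod 2 := ∑ i, l i * v i

lemma dot_add (l v w : V m) : dot l (v + w) = dot l v + dot l w := by
  simp [dot, mul_add, sum_add_distrib]

lemma dot_zero (l : V m) : dot l 0 = 0 := by simp [dot]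

lemma dot_ee (l : V m) (i : Fin m) : dot l (ee i) = l i := by
  simp [dot, ee, Pi.single_apply]

lemma ee_dot (v : V m) (i : Fin m) : dot (ee i) v = v i := by
  simp [dot, ee, Pi.single_apply]

lemma dot_smul (l v : V m) (c : ZMod 2) : dot l (c • v) = c * dot l v := by
  simp [dot, mul_sum, mul_left_comm]

def ell (F : Type) [CommRing F] [CharP F 2] {m : ℕ} (w : V m) : Al F m :=
  ∑ i, cA F m (w i) * gg F (ee i)

lemma ell_add (v w : V m) : ell F (v + w) = ell F v + ell F w := by
  simp [ell, add_mul, sum_add_distrib]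

lemma ell_zero : ell F (0 : V m) = 0 := by simp [ell]

lemma ell_smul_ee (c : ZMod 2) (i : Fin m) : ell F (c • ee i) = cA F m c * gg F (ee i) := by
  unfold ell
  rw [sum_eq_single i]
  · simp [ee]
  · intro j _ hj
    simp [ee, Pi.single_eq_of_ne hj]
  · simp

/-- The additive map `v ↦ ∑ v_i s_i`, `s_i = 1 + g_i`. -/
def ss (F : Type) [CommRing F] [CharP F 2] {m : ℕ} (w : V m) : Al F m :=
  ∑ i, cA F m (w i) * (1 + gg F (ee i))

lemma ss_add (v w : V m) : ss F (v + w) = ss F v + ss F w := by
  simp [ss, add_mul, sum_add_distrib]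

lemma ss_zero : ss F (0 : V m) = 0 := by simp [ss]

lemma ss_smul (c : ZMod 2) (v : V m) : ss F (c • v) = cA F m c * ss F v := by
  simp [ss, mul_sum, mul_assoc]

lemma ss_ee (i : Fin m) : ss F (ee i) = 1 + gg F (ee i) := by
  unfold ss
  rw [sum_eq_single i]
  · simp [ee]
  · intro j _ hj
    simp [ee, Pi.single_eq_of_ne hj]
  · simp

lemma ss_sum {ι : Type} (J : Finset ι) (w : ι → V m) : ss F (∑ j ∈ J, w j) = ∑ j ∈ J, ss F (w j) := by
  classical
  induction J using Finset.induction_on with
  | empty => simp [ss_zero]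
  | insert j J hj ih => rw [sum_insert hj, sum_insert hj, ss_add, ih]

lemma V_eq_sum (v : V m) : v = ∑ i, v i • ee i := by
  funext j
  simp [ee, Finset.sum_apply, Pi.single_apply]

lemma V_induction {P : V m → Prop} (h0 : P 0) (h1 : ∀ v i, P v → P (v + ee i)) (v : V m) : P v := by
  have key : ∀ J : Finset (Fin m), P (∑ i ∈ J, v i • ee i) := by
    intro J
    induction J using Finset.induction_on with
    | empty => simpa using h0
    | insert j J hj ih =>
      rw [sum_insert hj, add_comm]
      rcases zmod2_cases (v j) with h | h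
      · rw [h, zero_smul, add_zero]; exact ih
      · rw [h, one_smul]; exact h1 _ _ ih
  rw [V_eq_sum v]
  exact key _

lemma ss_mul_self (v : V m) : ss F v * ss F v = 0 := by
  induction v using V_induction with
  | h0 => rw [ss_zero, zero_mul]
  | h1 v i ih =>
    rw [ss_add, ss_ee]
    have h := gg_mul_self (F := F) (ee i)
    have h2 := A_two (F := F) (m := m)
    linear_combination ih + h + (ss F v * (1 + gg F (ee i)) + 1 + gg F (ee i)) * h2

lemma one_add_ss_mul_self (v : V m) : (1 + ss F v) * (1 + ss F v) = 1 := by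
  have h2 := A_two (F := F) (m := m)
  linear_combination ss_mul_self (F := F) v + ss F v * h2

omit [CharP F 2] in
lemma A_induction {P : Al F m → Prop} (h0 : P 0) (hadd : ∀ a b, P a → P b → P (a + b))
    (hs : ∀ (c : F) (v : V m), P (c • gg F v)) (a : Al F m) : P a := by
  induction a using AddMonoidAlgebra.induction_linear with
  | zero => exact h0
  | add a b ha hb => exact hadd _ _ ha hb
  | single v d =>
    have : AddMonoidAlgebra.single v d = d • gg F v := by
      simp [gg]
    rw [this]
    exact hs _ _

/-- The derivation with `D l (ss v) = dot l v`. -/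
def DD (l : V m) : Al F m →ₗ[F] Al F m :=
  (AddMonoidAlgebra.basis (V m) F).constr F fun v => gg F v * ell F (l * v)

lemma DD_gg (l v : V m) : DD l (gg F v) = gg F v * ell F (l * v) := by
  have h := (AddMonoidAlgebra.basis (V m) F).constr_basis F
    (fun v => gg F v * ell F (l * v)) v
  simpa [DD, gg] using h

lemma DD_one (l : V m) : DD l (1 : Al F m) = 0 := by
  rw [← gg_zero, DD_gg, mul_zero, ell_zero, mul_zero]

lemma DD_mul (l : V m) (a b : Al F m) : DD l (a * b) = DD l a * b + a * DD l b := by
  induction a using A_induction with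
  | h0 => simp
  | hadd a a' ha ha' => rw [add_mul, map_add, map_add, ha, ha']; ring
  | hs c v =>
    induction b using A_induction with
    | h0 => simp
    | hadd b b' hb hb' => rw [mul_add, map_add, map_add, hb, hb']; ring
    | hs d w =>
      rw [smul_mul_smul_comm, map_smul, map_smul, map_smul, ← gg_add, DD_gg, DD_gg, DD_gg, mul_add,
        ell_add, gg_add, smul_mul_smul_comm, smul_mul_smul_comm, ← smul_add]
      congr 1
      ring

lemma DD_alg (l : V m) (c : F) : DD l (algebraMap F (Al F m) c) = 0 := by
  rw [Algebra.algebraMap_eq_smul_one, map_smul, DD_one, smul_zero]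

lemma DD_cA (l : V m) (c : ZMod 2) : DD l (cA F m c) = 0 := DD_alg l _

lemma DD_gg_ee (l : V m) (i : Fin m) : DD l (gg F (ee i)) = cA F m (l i) := by
  have h : l * ee i = l i • ee i := by
    funext j
    by_cases hj : j = i
    · subst hj; simp [ee]
    · simp [ee, Pi.single_eq_of_ne hj]
  rw [DD_gg, h, ell_smul_ee, mul_left_comm, gg_mul_self, mul_one]

lemma DD_ell (l w : V m) : DD l (ell F w) = cA F m (dot l w) := by
  simp only [ell, map_sum, DD_mul, DD_cA, DD_gg_ee, dot, zero_mul, zero_add, map_mul]
  exact sum_congr rfl fun i _ => mul_comm _ _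

lemma DD_ss (l w : V m) : DD l (ss F w) = cA F m (dot l w) := by
  simp only [ss, map_sum, DD_mul, DD_cA, DD_gg_ee, dot, zero_mul, zero_add, map_mul, map_add, DD_one]
  exact sum_congr rfl fun i _ => mul_comm _ _

lemma DD_comm (l l' : V m) (a : Al F m) : DD l (DD l' a) = DD l' (DD l a) := by
  induction a using A_induction with
  | h0 => simp
  | hadd a a' ha ha' => simp only [map_add, ha, ha']
  | hs c v =>
    simp only [map_smul, DD_gg, DD_mul, DD_ell]
    have h : dot l (l' * v) = dot l' (l * v) := by
      simp only [dot, Pi.mul_apply]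
      exact sum_congr rfl fun i _ => mul_left_comm _ _ _
    rw [h]
    congr 1
    ring

lemma DD_mul_self (l : V m) (a : Al F m) : DD l (a * a) = 0 := by
  rw [DD_mul, mul_comm, A_add_self]

/-- The top coefficient. -/
def top : Al F m →ₗ[F] F := (AddMonoidAlgebra.basis (V m) F).coord (fun _ => 1)

omit [CharP F 2] in
lemma top_gg (v : V m) : top (gg F v) = if v = fun _ => 1 then 1 else 0 := by
  have h := (AddMonoidAlgebra.basis (V m) F).coord_apply (fun _ => 1)
    ((AddMonoidAlgebra.basis (V m) F) v)
  rw [Module.Basis.repr_self, Finsupp.single_apply] at h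
  simpa [top, gg] using h

lemma top_DD (l : V m) (a : Al F m) : top (DD l a) = 0 := by
  induction a using A_induction with
  | h0 => simp
  | hadd a a' ha ha' => simp only [map_add, ha, ha', add_zero]
  | hs c v =>
    rw [map_smul, map_smul, DD_gg, ell, mul_sum, map_sum, sum_eq_zero, smul_zero]
    intro i _
    rcases zmod2_cases (v i) with h | h
    · simp [h]
    · rw [mul_left_comm, ← gg_add, cA, RingHom.comp_apply, ← Algebra.smul_def, map_smul, top_gg,
        if_neg, smul_zero]
      intro h'
      have h2 := congrFun h' i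
      simp only [Pi.add_apply, h, ee, Pi.single_eq_same] at h2
      exact absurd h2 (by decide)

lemma top_eq {l v : V m} (h : dot l v = 1) (a : Al F m) : top a = top (ss F v * DD l a) := by
  have h1 := top_DD l (ss F v * a)
  rw [DD_mul, DD_ss, h, map_one, one_mul, map_add] at h1
  have h2 := F_add_self (top (ss F v * DD l a))
  linear_combination h1 - h2

lemma exists_dot_eq_one {l : V m} (hl : l ≠ 0) : ∃ j, l j = 1 := by
  by_contra h
  push Not at h
  exact hl (funext fun j => (zmod2_cases (l j)).resolve_right (h j))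

lemma top_of_DD {l : V m} (hl : l ≠ 0) {a : Al F m} (h : DD l a = 0) : top a = 0 := by
  obtain ⟨j, hj⟩ := exists_dot_eq_one hl
  rw [top_eq (l := l) (v := ee j) (by rw [dot_ee, hj]), h, mul_zero, map_zero]

omit [CharP F 2] in
lemma top_nondeg {a : Al F m} (h : ∀ b, top (a * b) = 0) : a = 0 := by
  refine (AddMonoidAlgebra.basis (V m) F).ext_elem fun v => ?_
  have key : ∀ a : Al F m, top (a * gg F (v + fun _ => 1)) =
      (AddMonoidAlgebra.basis (V m) F).repr a v := by
    intro a
    induction a using A_induction with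
    | h0 => simp
    | hadd a a' ha ha' => rw [add_mul, map_add, map_add, ha, ha']; rfl
    | hs c w =>
      have e : gg F w = AddMonoidAlgebra.basis (V m) F w := by simp [gg]
      rw [smul_mul_assoc, map_smul, map_smul, ← gg_add, top_gg, e, Module.Basis.repr_self,
        Finsupp.smul_apply, Finsupp.single_apply]
      congr 1
      refine if_congr ⟨fun h => ?_, fun h => ?_⟩ rfl rfl
      · have h2 : w + v = 0 := by
          rw [← add_assoc] at h
          exact add_eq_right.mp h
        calc w = w + (v + v) := by rw [V_add_self, add_zero]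
          _ = v := by rw [← add_assoc, h2, zero_add]
      · rw [h, ← add_assoc, V_add_self, zero_add]
  rw [← key, h, map_zero]
  rfl

/-- Fewer than `m` vectors lie in a hyperplane. -/
lemma exists_lam {ι : Type} [Fintype ι] (w : ι → V m) (h : Fintype.card ι < m) :
    ∃ l : V m, l ≠ 0 ∧ ∀ j, dot l (w j) = 0 := by
  let φ : V m →ₗ[ZMod 2] (ι → ZMod 2) :=
    { toFun := fun l j => dot l (w j)
      map_add' := fun l l' => by
        funext j; simp [dot, add_mul, sum_add_distrib]
      map_smul' := fun c l => by
        funext j; simp [dot, mul_sum, mul_assoc] }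
  have hk : LinearMap.ker φ ≠ ⊥ := by
    refine LinearMap.ker_ne_bot_of_finrank_lt ?_
    simpa using h
  obtain ⟨l, hl, h0⟩ := Submodule.exists_mem_ne_zero_of_ne_bot hk
  exact ⟨l, h0, fun j => congrFun (LinearMap.mem_ker.mp hl) j⟩

lemma DD_prod_eq_zero {ι : Type} (l : V m) (J : Finset ι) (f : ι → Al F m)
    (h : ∀ j ∈ J, DD l (f j) = 0) : DD l (∏ j ∈ J, f j) = 0 := by
  classical
  induction J using Finset.induction_on with
  | empty => simpa using DD_one l
  | insert j J hj ih =>
    rw [prod_insert hj, DD_mul, h j (mem_insert_self _ _),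
      ih fun k hk => h k (mem_insert_of_mem hk)]
    simp

lemma top_prod_of_lam {ι : Type} {l : V m} (hl : l ≠ 0) (J : Finset ι) (w : ι → V m)
    (h : ∀ j ∈ J, dot l (w j) = 0) : top (∏ j ∈ J, ss F (w j)) = 0 :=
  top_of_DD hl (DD_prod_eq_zero l J _ fun j hj => by rw [DD_ss, h j hj, map_zero])

lemma gg_eq_prod (v : V m) : ∃ n : ℕ, ∃ i : Fin n → Fin m, gg F v = ∏ k, (1 + ss F (ee (i k))) := by
  induction v using V_induction with
  | h0 => exact ⟨0, Fin.elim0, by simp [gg_zero]⟩
  | h1 v j ih =>
    obtain ⟨n, i, hi⟩ := ih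
    refine ⟨n + 1, Fin.cons j i, ?_⟩
    rw [Fin.prod_univ_succ, gg_add, hi, mul_comm]
    simp only [Fin.cons_zero, Fin.cons_succ]
    rw [ss_ee, ← add_assoc, A_add_self, zero_add]

/-- A set closed under multiplication by all `1 + ss (ee i)` and containing `1` contains the group
elements. -/
lemma gg_mem {P : Al F m → Prop} (h1 : P 1) (h : ∀ a i, P a → P (a * (1 + ss F (ee i)))) (v : V m) :
    P (gg F v) := by
  induction v using V_induction with
  | h0 => exact h1
  | h1 v j ih =>
    have := h _ j ih
    rwa [ss_ee, ← add_assoc, A_add_self, zero_add, ← gg_add] at this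

/-- The top coefficient of the product over a spanning family of size `m`. -/
lemma top_prod_span {ι : Type} [Fintype ι] [DecidableEq ι] (w : ι → V m)
    (hc : Fintype.card ι = m) (hs : ∀ v : V m, ∃ c : ι → ZMod 2, v = ∑ j, c j • w j) :
    top (∏ j, ss F (w j)) = 1 := by
  let T : AddSubgroup (Al F m) :=
    AddSubgroup.closure (Set.range fun K : Finset ι => ∏ j ∈ K, ss F (w j))
  have hT1 : ∀ j, ∀ a ∈ T, a * ss F (w j) ∈ T := by
    intro j a ha
    induction ha using AddSubgroup.closure_induction with
    | mem x hx =>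
      obtain ⟨K, rfl⟩ := hx
      by_cases hj : j ∈ K
      · have : (∏ k ∈ K, ss F (w k)) * ss F (w j) = 0 := by
          rw [← mul_prod_erase K _ hj, mul_right_comm, ss_mul_self, zero_mul]
        simp only [this]
        exact T.zero_mem
      · refine AddSubgroup.subset_closure ⟨insert j K, ?_⟩
        simp only [prod_insert hj, mul_comm]
    | zero => simp
    | add x y _ _ hx hy => rw [add_mul]; exact T.add_mem hx hy
    | neg x _ hx => rw [neg_mul]; exact T.neg_mem hx
  have hT2 : ∀ v, ∀ a ∈ T, a * ss F v ∈ T := by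
    intro v a ha
    obtain ⟨c, rfl⟩ := hs v
    rw [ss_sum, mul_sum]
    refine T.sum_mem fun j _ => ?_
    rcases zmod2_cases (c j) with h | h
    · rw [h, zero_smul, ss_zero, mul_zero]; exact T.zero_mem
    · rw [h, one_smul]; exact hT1 j a ha
  have hT3 : gg F (fun _ => 1 : V m) ∈ T := by
    refine gg_mem (P := fun a => a ∈ T) (AddSubgroup.subset_closure ⟨∅, by simp⟩) ?_ _
    intro a i ha
    rw [mul_add, mul_one]
    exact T.add_mem ha (hT2 _ a ha)
  have hT4 : ∀ a ∈ T, top a = 0 ∨ top a = top (∏ j, ss F (w j)) := by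
    intro a ha
    induction ha using AddSubgroup.closure_induction with
    | mem x hx =>
      obtain ⟨K, rfl⟩ := hx
      by_cases hK : K = univ
      · right; rw [hK]
      · left
        have hlt : Fintype.card K < m := by
          rw [← hc, Fintype.card_coe]
          exact card_lt_card (ssubset_univ_iff.mpr hK)
        obtain ⟨l, hl, h⟩ := exists_lam (fun j : K => w j) hlt
        exact top_prod_of_lam hl K w fun j hj => h ⟨j, hj⟩
    | zero => left; simp
    | add x y _ _ hx hy =>
      rw [map_add]
      rcases hx with hx | hx <;> rcases hy with hy | hy <;> rw [hx, hy]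
      · left; simp
      · right; simp
      · right; simp
      · left; exact F_add_self _
    | neg x _ hx => rwa [A_neg]
  have h1 : top (gg F (fun _ => 1 : V m)) = 1 := by rw [top_gg, if_pos rfl]
  rcases hT4 _ hT3 with h | h
  · rw [h1] at h
    have : Nontrivial F := CharP.nontrivial_of_char_ne_one (R := F) (v := 2) (by norm_num)
    exact absurd h one_ne_zero
  · rw [← h, h1]

lemma prod_ss_eq_zero {ι : Type} [DecidableEq ι] (J : Finset ι) (w : ι → V m) (c : ι → ZMod 2)
    {j : ι} (hj : j ∈ J) (hc : c j = 1) (h : ∑ k ∈ J, c k • w k = 0) :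
    ∏ k ∈ J, ss F (w k) = 0 := by
  have h1 : w j = ∑ k ∈ J.erase j, c k • w k := by
    rw [← add_sum_erase J _ hj, hc, one_smul] at h
    calc w j = w j + ((∑ k ∈ J.erase j, c k • w k) + ∑ k ∈ J.erase j, c k • w k) := by
          rw [V_add_self, add_zero]
      _ = _ := by rw [← add_assoc, h, zero_add]
  rw [← mul_prod_erase J _ hj, h1, ss_sum, sum_mul]
  refine sum_eq_zero fun k hk => ?_
  rw [← mul_prod_erase _ _ hk, ss_smul, mul_assoc, ← mul_assoc (ss F (w k)), ss_mul_self]
  simp

end Pool.Agent.Lib.MP_631532_al
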