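import Pool.Agent.Lib.MP_631532_al.Ext

/-!
The polycyclic group `G`: a Heisenberg group over the Eisenstein integers extended by
`C₃ × Q₈ × C₄`.
-/

noncomputable section

namespace Pool.Agent.Lib.MP_631532_al

/-- The Eisenstein integers. -/
abbrev OO := QuadraticAlgebra ℤ (-1) (-1)

/-- The cube root of unity. -/
def om : OO := ⟨0, 1⟩

lemma om_sq : om * om = -1 - om := by
  ext <;> simp [om, QuadraticAlgebra.re_one, QuadraticAlgebra.im_one]

lemma om_cube : om ^ 3 = 1 := by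
  linear_combination (om - 1) * om_sq

lemma OO_two_mul {x : OO} (h : 2 * x = 0) : x = 0 := by
  have h1 := congrArg QuadraticAlgebra.re h
  have h2 := congrArg QuadraticAlgebra.im h
  rw [two_mul] at h1 h2
  simp only [QuadraticAlgebra.re_add, QuadraticAlgebra.im_add, QuadraticAlgebra.re_zero,
    QuadraticAlgebra.im_zero] at h1 h2
  ext
  · simp only [QuadraticAlgebra.re_zero]; omega
  · simp only [QuadraticAlgebra.im_zero]; omega

lemma OO_pow_mul (k : ℕ) {x : OO} (h : 2 ^ k * x = 0) : x = 0 := by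
  induction k with
  | zero => simpa using h
  | succ k ih => exact ih (OO_two_mul (by rw [← h]; ring))

lemma OO_two_nonunit : (((2 : ℕ) : OO)) ∈ nonunits OO := by
  intro h
  obtain ⟨x, hx⟩ := h.exists_right_inv
  have h1 := congrArg QuadraticAlgebra.re hx
  rw [Nat.cast_ofNat, two_mul] at h1
  simp only [QuadraticAlgebra.re_add, QuadraticAlgebra.re_one] at h1
  omega

abbrev HH := QuaternionAlgebra OO (-1) 0 (-1)

lemma H_re_mul (a b : HH) :
    (a * b).re = a.re * b.re - a.imI * b.imI - a.imJ * b.imJ - a.imK * b.imK := by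
  simp only [QuaternionAlgebra.re_mul]; ring

lemma H_imI_mul (a b : HH) :
    (a * b).imI = a.re * b.imI + a.imI * b.re + a.imJ * b.imK - a.imK * b.imJ := by
  simp only [QuaternionAlgebra.imI_mul]; ring

lemma H_imJ_mul (a b : HH) :
    (a * b).imJ = a.re * b.imJ - a.imI * b.imK + a.imJ * b.re + a.imK * b.imI := by
  simp only [QuaternionAlgebra.imJ_mul]; ring

lemma H_imK_mul (a b : HH) :
    (a * b).imK = a.re * b.imK + a.imI * b.imJ - a.imJ * b.imI + a.imK * b.re := by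
  simp only [QuaternionAlgebra.imK_mul]; ring

lemma H_re_star (a : HH) : (star a).re = a.re := by simp

abbrev C3 := Multiplicative (ZMod 3)

abbrev C4 := Multiplicative (ZMod 4)

/-- The character of `C₃`. -/
def w3 (r : C3) : OO := om ^ (Multiplicative.toAdd r).val

lemma w3_one : w3 1 = 1 := by simp [w3]

lemma w3_mul (r r' : C3) : w3 (r * r') = w3 r * w3 r' := by
  rw [w3, w3, w3, toAdd_mul, ZMod.val_add, ← pow_eq_pow_mod _ om_cube, pow_add]

/-- The quaternion `i`. -/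
def II : HH := ⟨0, 1, 0, 0⟩

lemma II_sq : II * II = -1 := by
  ext1 <;> simp [II]

lemma II_four : II ^ 4 = 1 := by
  have : II ^ 4 = (II * II) * (II * II) := by noncomm_ring
  rw [this, II_sq]; simp

/-- Powers of `i`. -/
def jj (κ : C4) : HH := II ^ (Multiplicative.toAdd κ).val

lemma jj_one : jj 1 = 1 := by simp [jj]

lemma jj_mul (κ κ' : C4) : jj (κ * κ') = jj κ * jj κ' := by
  rw [jj, jj, jj, toAdd_mul, ZMod.val_add, ← pow_eq_pow_mod _ II_four, pow_add]

lemma jj_comm (κ κ' : C4) : jj κ * jj κ' = jj κ' * jj κ := by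
  rw [← jj_mul, ← jj_mul, mul_comm]

lemma imI_conj_II (x : HH) : (star II * x * II).imI = x.imI := by
  simp [II]

lemma imI_conj_pow (n : ℕ) (x : HH) : (star (II ^ n) * x * II ^ n).imI = x.imI := by
  induction n with
  | zero => simp
  | succ n ih =>
    have : star (II ^ (n + 1)) * x * II ^ (n + 1) = star II * (star (II ^ n) * x * II ^ n) * II := by
      rw [pow_succ, star_mul]; noncomm_ring
    rw [this, imI_conj_II, ih]

/-- The quaternion group: `⟨e, a, b⟩` stands for `(-1)^e i^a j^b`. -/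
structure QQ where
  e : ZMod 2
  a : ZMod 2
  b : ZMod 2

lemma QQ.ext' {x y : QQ} (he : x.e = y.e) (ha : x.a = y.a) (hb : x.b = y.b) : x = y := by
  cases x; cases y; simp_all

instance : Mul QQ :=
  ⟨fun x y => ⟨x.e + y.e + x.b * y.a + x.a * y.a + x.b * y.b, x.a + y.a, x.b + y.b⟩⟩

instance : One QQ := ⟨⟨0, 0, 0⟩⟩

instance : Inv QQ := ⟨fun x => ⟨-x.e + x.b * x.a + x.a * x.a + x.b * x.b, -x.a, -x.b⟩⟩

lemma QQ.mul_e (x y : QQ) : (x * y).e = x.e + y.e + x.b * y.a + x.a * y.a + x.b * y.b := rfl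
lemma QQ.mul_a (x y : QQ) : (x * y).a = x.a + y.a := rfl
lemma QQ.mul_b (x y : QQ) : (x * y).b = x.b + y.b := rfl
lemma QQ.one_e : (1 : QQ).e = 0 := rfl
lemma QQ.one_a : (1 : QQ).a = 0 := rfl
lemma QQ.one_b : (1 : QQ).b = 0 := rfl
lemma QQ.inv_e' (x : QQ) : (x⁻¹).e = -x.e + x.b * x.a + x.a * x.a + x.b * x.b := rfl
lemma QQ.inv_a' (x : QQ) : (x⁻¹).a = -x.a := rfl
lemma QQ.inv_b' (x : QQ) : (x⁻¹).b = -x.b := rfl

instance : Group QQ :=
  Group.ofLeftAxioms
    (fun x y z => QQ.ext' (by simp only [QQ.mul_e, QQ.mul_a, QQ.mul_b]; ring)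
      (by simp only [QQ.mul_a]; ring) (by simp only [QQ.mul_b]; ring))
    (fun x => QQ.ext' (by simp [QQ.mul_e, QQ.one_e, QQ.one_a, QQ.one_b])
      (by simp [QQ.mul_a, QQ.one_a]) (by simp [QQ.mul_b, QQ.one_b]))
    (fun x => QQ.ext' (by simp only [QQ.mul_e, QQ.one_e, QQ.inv_e', QQ.inv_a', QQ.inv_b']; ring)
      (by simp only [QQ.mul_a, QQ.one_a, QQ.inv_a']; ring)
      (by simp only [QQ.mul_b, QQ.one_b, QQ.inv_b']; ring))

lemma QQ.inv_e (x : QQ) : (x⁻¹).e = -x.e + x.b * x.a + x.a * x.a + x.b * x.b := rfl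
lemma QQ.inv_a (x : QQ) : (x⁻¹).a = -x.a := rfl
lemma QQ.inv_b (x : QQ) : (x⁻¹).b = -x.b := rfl

instance : Finite QQ :=
  Finite.of_injective (fun x : QQ => (x.e, x.a, x.b)) fun x y h => by
    simp only [Prod.mk.injEq] at h
    exact QQ.ext' h.1 h.2.1 h.2.2

lemma QQ.sq_comm (x y : QQ) : x * x * y = y * (x * x) := by
  obtain ⟨e, a, b⟩ := x
  obtain ⟨e', a', b'⟩ := y
  refine QQ.ext' ?_ ?_ ?_
  · simp only [QQ.mul_e, QQ.mul_a, QQ.mul_b]
    revert e a b e' a' b'; decide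
  · simp only [QQ.mul_a]; ring
  · simp only [QQ.mul_b]; ring

lemma QQ.four (x : QQ) : x * x * (x * x) = 1 := by
  obtain ⟨e, a, b⟩ := x
  refine QQ.ext' ?_ ?_ ?_
  · simp only [QQ.mul_e, QQ.mul_a, QQ.mul_b, QQ.one_e]
    revert e a b; decide
  · simp only [QQ.mul_a, QQ.one_a]
    revert a; decide
  · simp only [QQ.mul_b, QQ.one_b]
    revert b; decide

instance : Group.IsSolvable QQ := by
  have h : IsPGroup 2 QQ := fun g => ⟨2, by
    rw [← QQ.four g, show 2 ^ 2 = 4 from rfl]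
    simp only [pow_succ, pow_zero, one_mul, mul_assoc]⟩
  have := h.isNilpotent
  infer_instance

/-- The sign. -/
def sg (e : ZMod 2) : ℤ := if e = 0 then 1 else -1

/-- The indicator of zero. -/
def dz (a : ZMod 2) : ℤ := if a = 0 then 1 else 0

/-- The quaternion group inside the quaternions. -/
def iq (q : QQ) : HH :=
  ⟨(sg q.e * dz q.a * dz q.b : ℤ), (sg q.e * (1 - dz q.a) * dz q.b : ℤ),
    (sg q.e * dz q.a * (1 - dz q.b) : ℤ), (sg q.e * (1 - dz q.a) * (1 - dz q.b) : ℤ)⟩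

lemma iq_re (q : QQ) : (iq q).re = (sg q.e * dz q.a * dz q.b : ℤ) := rfl
lemma iq_imI (q : QQ) : (iq q).imI = (sg q.e * (1 - dz q.a) * dz q.b : ℤ) := rfl
lemma iq_imJ (q : QQ) : (iq q).imJ = (sg q.e * dz q.a * (1 - dz q.b) : ℤ) := rfl
lemma iq_imK (q : QQ) : (iq q).imK = (sg q.e * (1 - dz q.a) * (1 - dz q.b) : ℤ) := rfl

lemma iq_one : iq 1 = 1 := by
  ext1 <;> simp [iq_re, iq_imI, iq_imJ, iq_imK, QQ.one_e, QQ.one_a, QQ.one_b, sg, dz]

lemma iq_mul (x y : QQ) : iq (x * y) = iq x * iq y := by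
  obtain ⟨e, a, b⟩ := x
  obtain ⟨e', a', b'⟩ := y
  ext1
  all_goals
    simp only [H_re_mul, H_imI_mul, H_imJ_mul, H_imK_mul,
      iq_re, iq_imI, iq_imJ, iq_imK, QQ.mul_e, QQ.mul_a, QQ.mul_b]
    norm_cast
    revert e a b e' a' b'
    decide

lemma star_iq (x : QQ) : star (iq x) = iq x⁻¹ := by
  obtain ⟨e, a, b⟩ := x
  ext1
  all_goals
    simp only [H_re_star, QuaternionAlgebra.imI_star, QuaternionAlgebra.imJ_star,
      QuaternionAlgebra.imK_star,
      iq_re, iq_imI, iq_imJ, iq_imK, QQ.inv_e, QQ.inv_a, QQ.inv_b]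
    norm_cast
    revert e a b
    decide

lemma star_iq_mul (x : QQ) : star (iq x) * iq x = 1 := by
  rw [star_iq, ← iq_mul, inv_mul_cancel, iq_one]

lemma iq_sq (x : QQ) : iq (x * x) = ((2 * dz x.a * dz x.b - 1 : ℤ) : HH) := by
  obtain ⟨e, a, b⟩ := x
  ext1
  all_goals
    simp only [QuaternionAlgebra.re_intCast, QuaternionAlgebra.imI_intCast, QuaternionAlgebra.imJ_intCast,
      QuaternionAlgebra.imK_intCast, iq_re, iq_imI, iq_imJ, iq_imK, QQ.mul_e, QQ.mul_a, QQ.mul_b]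
    norm_cast
    revert e a b
    decide

lemma iq_neg (x : QQ) : iq (x * ⟨1, 0, 0⟩) = -iq x := by
  obtain ⟨e, a, b⟩ := x
  ext1
  all_goals
    simp only [QuaternionAlgebra.re_neg, QuaternionAlgebra.imI_neg, QuaternionAlgebra.imJ_neg,
      QuaternionAlgebra.imK_neg, iq_re, iq_imI, iq_imJ, iq_imK, QQ.mul_e, QQ.mul_a, QQ.mul_b]
    norm_cast
    revert e a b
    decide

/-- The alternating form. -/
def cG : HH →+ HH →+ OO :=
  AddMonoidHom.mk' (fun a => AddMonoidHom.mk' (fun b => (star a * b).imI) fun b b' => by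
    rw [mul_add, QuaternionAlgebra.imI_add]) fun a a' => by
    ext1 b
    simp only [AddMonoidHom.mk'_apply, AddMonoidHom.add_apply, star_add, add_mul,
      QuaternionAlgebra.imI_add]

lemma cG_apply (a b : HH) : cG a b = (star a * b).imI := rfl

lemma cG_self (a : HH) : cG a a = 0 := by
  simp [cG_apply]; ring

lemma cG_smul_left (μ : OO) (a b : HH) : cG (μ • a) b = μ * cG a b := by
  simp [cG_apply]

lemma cG_smul_right (μ : OO) (a b : HH) : cG a (μ • b) = μ * cG a b := by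
  simp [cG_apply]

lemma cG_inv (q : QQ) (κ : C4) (a b : HH) : cG (iq q * a * jj κ) (iq q * b * jj κ) = cG a b := by
  have : star (iq q * a * jj κ) * (iq q * b * jj κ) =
      star (jj κ) * (star a * (star (iq q) * iq q) * b) * jj κ := by
    rw [star_mul, star_mul]; noncomm_ring
  rw [cG_apply, this, star_iq_mul, mul_one, jj, imI_conj_pow, cG_apply]

abbrev TG := C3 × QQ × C4

/-- The action on the quaternions. -/
def actG (g : TG) : HH →+ HH :=
  AddMonoidHom.mk' (fun a => w3 g.1 • (iq g.2.1 * a * jj g.2.2)) fun a b => by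
    rw [mul_add, add_mul, smul_add]

lemma actG_apply (g : TG) (a : HH) : actG g a = w3 g.1 • (iq g.2.1 * a * jj g.2.2) := rfl

/-- The data of the group `G`. -/
def DG : ExtData HH OO TG where
  act := actG
  actZ g := AddMonoidHom.mulLeft (w3 g.1 * w3 g.1)
  c := cG
  Φ _ _ := 0
  act_one a := by simp [actG_apply, w3_one, iq_one, jj_one]
  act_mul g h a := by
    simp only [actG_apply, Prod.fst_mul, Prod.snd_mul, w3_mul, iq_mul, mul_smul_comm,
      smul_mul_assoc, smul_smul]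
    rw [mul_comm g.2.2, jj_mul]
    simp only [mul_assoc]
  actZ_one e := by simp [w3_one]
  actZ_mul g h e := by
    simp only [Prod.fst_mul, w3_mul, AddMonoidHom.coe_mulLeft]; ring
  Φ_one _ := rfl
  Φ_mul _ _ _ := by simp
  Φ_add g a b := by
    simp only [actG_apply, cG_smul_left, cG_smul_right, cG_inv, AddMonoidHom.coe_mulLeft]; ring

abbrev GG := Ext DG

lemma DG_act (g : TG) (a : HH) : DG.act g a = w3 g.1 • (iq g.2.1 * a * jj g.2.2) := rfl
lemma DG_actZ (g : TG) (e : OO) : DG.actZ g e = w3 g.1 * w3 g.1 * e := rfl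
lemma DG_c (a b : HH) : DG.c a b = (star a * b).imI := rfl
lemma DG_Φ (g : TG) (a : HH) : DG.Φ g a = 0 := rfl

instance : Module.Finite ℤ HH := Module.Finite.trans OO HH

lemma GG_poly : Poly GG := Ext.poly DG (Poly.of_finite TG)

lemma TG_sq_comm (g h : TG) : g * g * h = h * (g * g) := by
  refine Prod.ext (mul_comm _ _) (Prod.ext (QQ.sq_comm _ _) (mul_comm _ _))

lemma TG_sq_act (g : TG) : ∃ μ : OO, ∀ a, DG.act (g * g) a = μ • a := by
  have h1 : jj (g.2.2 * g.2.2) = ((-1) ^ (Multiplicative.toAdd g.2.2).val : ℤ) := by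
    rw [jj_mul, jj, ← (Commute.refl II).mul_pow, II_sq]
    push_cast
    rfl
  refine ⟨w3 (g.1 * g.1) * ((2 * dz g.2.1.a * dz g.2.1.b - 1 : ℤ) *
    ((-1) ^ (Multiplicative.toAdd g.2.2).val : ℤ)), fun a => ?_⟩
  rw [DG_act, Prod.fst_mul, Prod.snd_mul, Prod.fst_mul, Prod.snd_mul, iq_sq, h1, mul_smul,
    ← QuaternionAlgebra.coe_intCast, ← QuaternionAlgebra.coe_intCast, QuaternionAlgebra.coe_mul_eq_smul,
    QuaternionAlgebra.mul_coe_eq_smul, smul_smul _ _ a,
    mul_comm (((-1) ^ (Multiplicative.toAdd g.2.2).val : ℤ) : OO)]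

lemma GG_law (k : ℕ) : SatOn (Set.univ : Set GG) (lawW k) := by
  intro f _
  have hu : (FreeGroup.lift f uW).g = 1 := by
    rw [← Ext.top_apply]
    simp only [uW, map_mul, map_inv, FreeGroup.lift_apply_of]
    rw [TG_sq_comm]
    group
  have hz : ∃ μ : OO, ∀ a, DG.act (FreeGroup.lift f (zW k)).g a = μ • a := by
    induction k with
    | zero => exact ⟨1, fun a => by rw [zW, map_one, Ext.one_g, DG.act_one, one_smul]⟩
    | succ k ih =>
      obtain ⟨μ, hμ⟩ := ih
      obtain ⟨ν, hν⟩ := TG_sq_act (f (k + 2)).g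
      refine ⟨μ * ν, fun a => ?_⟩
      rw [zW, map_mul, map_mul, FreeGroup.lift_apply_of, Ext.mul_g, Ext.mul_g, DG.act_mul, hμ, hν,
        smul_smul]
  obtain ⟨μ, hμ⟩ := hz
  rw [lawW_iff k f hu, hμ]
  change cG _ _ = cG _ _
  rw [cG_smul_left, cG_smul_right]

end Pool.Agent.Lib.MP_631532_al
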