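import Pool.Agent.Lib.MP_631532_al.Local
import Pool.Agent.Lib.MP_631532_al.G

/-!
The test groups `B_m` and the violation of the `m`-th law.
-/

noncomputable section

open Finset

namespace Pool.Agent.Lib.MP_631532_al

section W

variable {F : Type} [CommRing F] [CharP F 2] {m : ℕ}

/-- The wreath product of the involutions `IsU` with `V m`. -/
structure WW (F : Type) [CommRing F] [CharP F 2] (m : ℕ) where
  w : V m
  μ : V m → Al F m
  hμ : ∀ v, IsU (μ v)

lemma WW.ext' {g h : WW F m} (hw : g.w = h.w) (hμ : ∀ v, g.μ v = h.μ v) : g = h := by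
  have := funext hμ
  cases g; cases h; simp_all

instance : Mul (WW F m) :=
  ⟨fun g h => ⟨g.w + h.w, fun v => g.μ v * h.μ (v + g.w), fun _ => (g.hμ _).mul (h.hμ _)⟩⟩

instance : One (WW F m) := ⟨⟨0, fun _ => 1, fun _ => isU_one⟩⟩

instance : Inv (WW F m) := ⟨fun g => ⟨g.w, fun v => g.μ (v + g.w), fun _ => g.hμ _⟩⟩

lemma WW.mul_w (g h : WW F m) : (g * h).w = g.w + h.w := rfl
lemma WW.mul_μ (g h : WW F m) (v : V m) : (g * h).μ v = g.μ v * h.μ (v + g.w) := rfl
lemma WW.one_w : (1 : WW F m).w = 0 := rfl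
lemma WW.one_μ (v : V m) : (1 : WW F m).μ v = 1 := rfl
lemma WW.inv_w' (g : WW F m) : (g⁻¹).w = g.w := rfl
lemma WW.inv_μ' (g : WW F m) (v : V m) : (g⁻¹).μ v = g.μ (v + g.w) := rfl

instance : Group (WW F m) :=
  Group.ofLeftAxioms
    (fun x y z => WW.ext' (by simp only [WW.mul_w, add_assoc])
      (fun v => by simp only [WW.mul_w, WW.mul_μ, add_assoc, mul_assoc]))
    (fun x => WW.ext' (by simp only [WW.mul_w, WW.one_w, zero_add])
      (fun v => by simp only [WW.mul_μ, WW.one_w, WW.one_μ, add_zero, one_mul]))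
    (fun x => WW.ext' (by simp only [WW.mul_w, WW.one_w, WW.inv_w', V_add_self])
      (fun v => by simp only [WW.mul_μ, WW.one_μ, WW.inv_w', WW.inv_μ', (x.hμ _).1]))

lemma WW.inv_w (g : WW F m) : (g⁻¹).w = g.w := rfl
lemma WW.inv_μ (g : WW F m) (v : V m) : (g⁻¹).μ v = g.μ (v + g.w) := rfl

/-- Constant elements. -/
def cst (u : Al F m) (hu : IsU u) : WW F m := ⟨0, fun _ => u, fun _ => hu⟩

lemma cst_comm (u : Al F m) (hu : IsU u) (g : WW F m) : cst u hu * g = g * cst u hu :=
  WW.ext' (by simp [WW.mul_w, cst]) fun v => by simp [WW.mul_μ, cst, mul_comm]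

lemma cst_mul (u u' : Al F m) (hu : IsU u) (hu' : IsU u') :
    cst u hu * cst u' hu' = cst (u * u') (hu.mul hu') :=
  WW.ext' (by simp [WW.mul_w, cst]) fun v => by simp [WW.mul_μ, cst]

lemma cst_congr {u u' : Al F m} (h : u = u') (hu : IsU u) (hu' : IsU u') : cst u hu = cst u' hu' := by
  subst h; rfl

lemma sum_shift {M : Type} [AddCommMonoid M] (f : V m → M) (w : V m) :
    ∑ v, f (v + w) = ∑ v, f v :=
  Equiv.sum_comp (Equiv.addRight w) f

/-- The bimultiplicative cocycle. -/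
def alpha (F : Type) [CommRing F] [CharP F 2] (m : ℕ) : V m → V m → Al F m :=
  Classical.choose (exists_alpha F m)

lemma alpha_mem (v w : V m) : alpha F m v w ∈ Zb F m :=
  (Classical.choose_spec (exists_alpha F m)).1 v w

lemma alpha_left (v v' w : V m) : alpha F m (v + v') w = alpha F m v w * alpha F m v' w :=
  (Classical.choose_spec (exists_alpha F m)).2.1 v v' w

lemma alpha_right (v w w' : V m) : alpha F m v (w + w') = alpha F m v w * alpha F m v w' :=
  (Classical.choose_spec (exists_alpha F m)).2.2.1 v w w'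

lemma alpha_self (w : V m) : alpha F m w w = 1 + ss F w :=
  (Classical.choose_spec (exists_alpha F m)).2.2.2 w

lemma alpha_sq (v w : V m) : alpha F m v w * alpha F m v w = 1 := (isU_of_mem (alpha_mem v w)).1

lemma alpha_zero (w : V m) : alpha F m 0 w = 1 := by
  rw [← alpha_sq 0 w, ← alpha_left, add_zero]

/-- The top group of the test group. -/
def EE (F : Type) [CommRing F] [CharP F 2] (m : ℕ) : Subgroup (WW F m) where
  carrier := {g | ∃ u ∈ Zb F m, ∀ v, g.μ v = alpha F m g.w (v + g.w) * u}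
  one_mem' := ⟨1, one_mem _, fun v => by rw [WW.one_w, WW.one_μ, alpha_zero, one_mul]⟩
  mul_mem' := by
    rintro g h ⟨u, hu, hg⟩ ⟨u', hu', hh⟩
    refine ⟨alpha F m g.w h.w * u * u', mul_mem (mul_mem (alpha_mem _ _) hu) hu', fun v => ?_⟩
    rw [WW.mul_μ, WW.mul_w, hg, hh, alpha_left, ← add_assoc, alpha_right g.w (v + g.w)]
    linear_combination (-alpha F m g.w (v + g.w) * u * alpha F m h.w (v + g.w + h.w) * u') *
      alpha_sq (F := F) g.w h.w
  inv_mem' := by
    rintro g ⟨u, hu, hg⟩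
    refine ⟨alpha F m g.w g.w * u, mul_mem (alpha_mem _ _) hu, fun v => ?_⟩
    rw [WW.inv_μ, WW.inv_w, hg, alpha_right g.w (v + g.w), mul_assoc]

lemma EE_sq {g : WW F m} (hg : g ∈ EE F m) : g * g = cst (1 + ss F g.w) (isU_one_add_ss _) := by
  obtain ⟨u, hu, hg⟩ := hg
  refine WW.ext' (V_add_self _) fun v => ?_
  rw [WW.mul_μ, hg, hg, alpha_right g.w (v + g.w), alpha_self]
  change _ = 1 + ss F g.w
  linear_combination ((1 + ss F g.w) * u * u) * alpha_sq (F := F) g.w (v + g.w) +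
    (1 + ss F g.w) * (isU_of_mem hu).1

lemma EE_zero {g : WW F m} (hg : g ∈ EE F m) (h0 : g.w = 0) :
    ∃ (u : Al F m) (hu : u ∈ Zb F m), g = cst u (isU_of_mem hu) := by
  obtain ⟨u, hu, hg⟩ := hg
  refine ⟨u, hu, WW.ext' h0 fun v => ?_⟩
  rw [hg, h0, alpha_zero, one_mul]
  rfl

/-- The standard lift of a vector. -/
def xx (F : Type) [CommRing F] [CharP F 2] {m : ℕ} (w : V m) : WW F m :=
  ⟨w, fun v => alpha F m w (v + w), fun _ => isU_of_mem (alpha_mem _ _)⟩

lemma xx_mem (w : V m) : xx F w ∈ EE F m := ⟨1, one_mem _, fun _ => (mul_one _).symm⟩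

end W

section B

variable {F : Type} [CommRing F] [CharP F 2] {n : ℕ}

abbrev MB (F : Type) [CommRing F] (n : ℕ) := V (n + 5) → Al F (n + 5)

abbrev TB (F : Type) [CommRing F] [CharP F 2] (n : ℕ) := WW F (n + 5) × C3

/-- The action on the module. -/
def actB (π : OO →+* F) (g : TB F n) : MB F n →+ MB F n :=
  AddMonoidHom.mk' (fun a v => π (w3 g.2) • (g.1.μ v * a (v + g.1.w))) fun a b => by
    funext v
    simp only [Pi.add_apply, mul_add, smul_add]

lemma actB_apply (π : OO →+* F) (g : TB F n) (a : MB F n) (v : V (n + 5)) :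
    actB π g a v = π (w3 g.2) • (g.1.μ v * a (v + g.1.w)) := rfl

/-- The bilinear cocycle. -/
def cB : MB F n →+ MB F n →+ F :=
  AddMonoidHom.mk' (fun a => AddMonoidHom.mk' (fun b => ∑ v, c0 (a v) (b v)) fun b b' => by
    simp only [Pi.add_apply, c0_add_right, sum_add_distrib]) fun a a' => by
    refine AddMonoidHom.ext fun b => ?_
    simp only [AddMonoidHom.mk'_apply, AddMonoidHom.add_apply, Pi.add_apply, c0_add_left,
      sum_add_distrib]

lemma cB_apply (a b : MB F n) : cB a b = ∑ v, c0 (a v) (b v) := rfl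

/-- The data of the ambient group of the test group. -/
def DB (π : OO →+* F) (n : ℕ) : ExtData (MB F n) F (TB F n) where
  act := actB π
  actZ g := AddMonoidHom.mulLeft (π (w3 g.2) * π (w3 g.2))
  c := cB
  Φ g a := π (w3 g.2) * π (w3 g.2) * ∑ v, Phi (g.1.μ v) (a (v + g.1.w))
  act_one a := by
    funext v
    simp [actB_apply, w3_one, WW.one_w, WW.one_μ]
  act_mul g h a := by
    funext v
    simp only [actB_apply, Prod.fst_mul, Prod.snd_mul, w3_mul, map_mul, WW.mul_w, WW.mul_μ,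
      mul_smul_comm, smul_smul, add_assoc, mul_assoc]
  actZ_one e := by simp [w3_one]
  actZ_mul g h e := by
    simp only [Prod.snd_mul, w3_mul, map_mul, AddMonoidHom.coe_mulLeft]; ring
  Φ_one a := by simp [WW.one_μ, Phi_one]
  Φ_mul g h a := by
    simp only [actB_apply, Prod.fst_mul, Prod.snd_mul, w3_mul, map_mul, WW.mul_w, WW.mul_μ,
      AddMonoidHom.coe_mulLeft, Phi_mul (g.1.hμ _) (h.1.hμ _), Phi_smul,
      Phi_U (g.1.hμ _) (h.1.hμ _), sum_add_distrib, ← mul_sum]
    rw [← sum_shift (fun v => Phi (h.1.μ v) (a (v + h.1.w))) g.1.w]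
    simp only [add_assoc]
    ring
  Φ_add g a b := by
    simp only [actB_apply, AddMonoidHom.coe_mulLeft, cB_apply, Pi.add_apply, Phi_add (g.1.hμ _),
      c0_smul, c0_U (g.1.hμ _), sum_add_distrib, ← mul_sum]
    rw [← sum_shift (fun v => c0 (a v) (b v)) g.1.w]
    ring

variable (π : OO →+* F)

lemma DB_act (g : TB F n) (a : MB F n) (v : V (n + 5)) :
    (DB π n).act g a v = π (w3 g.2) • (g.1.μ v * a (v + g.1.w)) := rfl
lemma DB_actZ (g : TB F n) (e : F) : (DB π n).actZ g e = π (w3 g.2) * π (w3 g.2) * e := rfl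
lemma DB_c (a b : MB F n) : (DB π n).c a b = ∑ v, c0 (a v) (b v) := rfl
lemma DB_Φ (g : TB F n) (a : MB F n) :
    (DB π n).Φ g a = π (w3 g.2) * π (w3 g.2) * ∑ v, Phi (g.1.μ v) (a (v + g.1.w)) := rfl

/-- The test group. -/
def BB (π : OO →+* F) (n : ℕ) : Subgroup (Ext (DB π n)) :=
  (EE F (n + 5)).comap ((MonoidHom.fst _ _).comp (Ext.top _))

lemma mem_BB {b : Ext (DB π n)} : b ∈ BB π n ↔ b.g.1 ∈ EE F (n + 5) := Iff.rfl

/-- The `k`-th basis vector, zero if `k` is out of range. -/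
def vec (m k : ℕ) : V m := fun j => if j.val = k then 1 else 0

lemma one_add_ss_vec (m k : ℕ) : 1 + ss F (vec m k) = gg F (vec m k) := by
  by_cases h : k < m
  · have : vec m k = ee ⟨k, h⟩ := by
      funext j
      simp [vec, ee, Pi.single_apply, Fin.ext_iff]
    rw [this, ss_ee, ← add_assoc, A_add_self, zero_add]
  · have : vec m k = 0 := by
      funext j
      have := j.2
      rw [vec, if_neg (by omega)]
      rfl
    rw [this, ss_zero, add_zero, gg_zero]

/-- The violating tuple. -/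
def ff (π : OO →+* F) (n : ℕ) : ℕ → Ext (DB π n)
  | 0 => ⟨0, 0, (1, Multiplicative.ofAdd 1)⟩
  | 1 => ⟨Pi.single 0 1, 0, 1⟩
  | k + 2 => ⟨0, 0, (xx F (vec (n + 5) k), 1)⟩

lemma ff_mem (i : ℕ) : ff π n i ∈ BB π n := by
  match i with
  | 0 => exact (EE F (n + 5)).one_mem
  | 1 => exact (EE F (n + 5)).one_mem
  | k + 2 => exact xx_mem _

lemma ff_z (k : ℕ) : ∃ hu, (FreeGroup.lift (ff π n) (zW k)).g =
    (cst (gg F fun j : Fin (n + 5) => if j.val < k then 1 else 0) hu, 1) := by
  induction k with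
  | zero =>
    have h : (gg F fun j : Fin (n + 5) => if j.val < 0 then 1 else 0) = 1 := by
      rw [← gg_zero]; congr 1
    refine ⟨h ▸ isU_one, ?_⟩
    rw [zW, map_one, cst_congr h _ isU_one]
    rfl
  | succ k ih =>
    obtain ⟨hu, ih⟩ := ih
    have h : (gg F fun j : Fin (n + 5) => if j.val < k + 1 then 1 else 0) =
        (gg F fun j : Fin (n + 5) => if j.val < k then 1 else 0) * (1 + ss F (vec (n + 5) k)) := by
      rw [one_add_ss_vec, ← gg_add]
      congr 1
      funext j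
      simp only [Pi.add_apply, vec]
      split_ifs <;> first | rfl | omega
    refine ⟨h ▸ hu.mul (isU_one_add_ss _), ?_⟩
    rw [zW, map_mul, map_mul, FreeGroup.lift_apply_of, Ext.mul_g, Ext.mul_g, ih,
      cst_congr h _ (hu.mul (isU_one_add_ss _)), ← cst_mul _ _ hu (isU_one_add_ss _)]
    refine Prod.ext ?_ (by simp [ff])
    change _ * (xx F (vec (n + 5) k) * xx F (vec (n + 5) k)) = _
    rw [EE_sq (xx_mem _)]
    rfl

lemma BB_violates : FreeGroup.lift (ff π n) (lawW (n + 5)) ≠ 1 := by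
  have h1 : (ff π n 1).g = 1 := rfl
  have hu0 : FreeGroup.lift (ff π n) uW =
      ff π n 0 * ff π n 0 * ff π n 1 * (ff π n 0 * ff π n 0)⁻¹ * (ff π n 1)⁻¹ := by
    simp only [uW, map_mul, map_inv, FreeGroup.lift_apply_of]
  have hu : (FreeGroup.lift (ff π n) uW).g = 1 := by
    rw [hu0, Ext.mul_g, Ext.conj_g _ h1, Ext.inv_g, h1, inv_one, mul_one]
  have hw : w3 (Multiplicative.ofAdd 1) = om := by
    rw [w3, toAdd_ofAdd, show (1 : ZMod 3).val = 1 from rfl, pow_one]
  have ha : ∀ v, (FreeGroup.lift (ff π n) uW).a v =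
      (π om * π om - 1) • (Pi.single 0 1 : MB F n) v := by
    intro v
    rw [hu0, Ext.mul_a, Ext.conj_g _ h1, Ext.conj_a _ h1, Ext.inv_a, h1, inv_one,
      (DB π n).act_one, (DB π n).act_one, Ext.mul_g, Pi.add_apply, DB_act]
    simp only [ff, Prod.mk_mul_mk, mul_one, w3_mul, hw, map_mul, WW.one_μ, WW.one_w, add_zero,
      one_mul, Pi.neg_apply, sub_eq_add_neg]
    rw [add_smul, neg_smul, one_smul]
  obtain ⟨hz0, hz⟩ := ff_z π (n := n) (n + 5)
  have hone : (fun j : Fin (n + 5) => if j.val < n + 5 then (1 : ZMod 2) else 0) = fun _ => 1 := by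
    funext j
    rw [if_pos j.2]
  intro h
  rw [lawW_iff _ _ hu, hz, DB_c, DB_c] at h
  have h2 : ∑ v, top ((FreeGroup.lift (ff π n) uW).a v *
      (DB π n).act (cst (gg F fun j : Fin (n + 5) => if j.val < n + 5 then 1 else 0) hz0, 1)
        (FreeGroup.lift (ff π n) uW).a v) = 0 := by
    simp only [← c0_symm, sum_add_distrib]
    rw [h, F_add_self]
  rw [sum_eq_single 0] at h2
  · rw [DB_act, ha, ha] at h2
    simp only [cst, add_zero, Pi.single_eq_same, w3_one, map_one, one_smul, hone, smul_mul_assoc,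
      mul_smul_comm, mul_one, one_mul, map_smul, top_gg, if_true, smul_eq_mul] at h2
    have h3 : π om * π om = -1 - π om := by rw [← map_mul, om_sq, map_sub, map_neg, map_one]
    have h4 : (2 : F) = 0 := CharTwo.two_eq_zero
    have : Nontrivial F := CharP.nontrivial_of_char_ne_one (R := F) (v := 2) (by norm_num)
    refine one_ne_zero (α := F) ?_
    linear_combination (π om) * h2 - (π om ^ 3 - π om ^ 2 - 2 * π om + 3) * h3 + 2 * h4
  · intro v _ hv
    rw [ha, Pi.single_eq_of_ne hv, smul_zero, zero_mul, map_zero]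
  · simp

end B

end Pool.Agent.Lib.MP_631532_al
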