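import Mathlib

/-!
Three-step extensions `Z . M . T`, transfer of laws along relations, and polycyclicity.
-/

namespace Pool.Agent.Lib.MP_631532_al

/-- Data for a group structure on `M × Z × T`. -/
structure ExtData (M Z T : Type) [AddCommGroup M] [AddCommGroup Z] [Group T] where
  act : T → M →+ M
  actZ : T → Z →+ Z
  c : M →+ M →+ Z
  Φ : T → M → Z
  act_one : ∀ a, act 1 a = a
  act_mul : ∀ g h a, act (g * h) a = act g (act h a)
  actZ_one : ∀ e, actZ 1 e = e
  actZ_mul : ∀ g h e, actZ (g * h) e = actZ g (actZ h e)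
  Φ_one : ∀ a, Φ 1 a = 0
  Φ_mul : ∀ g h a, Φ (g * h) a = actZ g (Φ h a) + Φ g (act h a)
  Φ_add : ∀ g a b, Φ g (a + b) + actZ g (c a b) = Φ g a + Φ g b + c (act g a) (act g b)

section Ext

variable {M Z T : Type} [AddCommGroup M] [AddCommGroup Z] [Group T]

/-- The underlying type of the extension. -/
structure Ext (D : ExtData M Z T) where
  a : M
  e : Z
  g : T

variable {D : ExtData M Z T}

lemma Ext.ext' {x y : Ext D} (ha : x.a = y.a) (he : x.e = y.e) (hg : x.g = y.g) : x = y := by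
  cases x; cases y; simp_all

lemma ExtData.Φ_zero (D : ExtData M Z T) (g : T) : D.Φ g 0 = 0 := by
  have h := D.Φ_add g 0 0
  simpa using h

instance : Mul (Ext D) :=
  ⟨fun x y => ⟨x.a + D.act x.g y.a,
    x.e + D.actZ x.g y.e + D.Φ x.g y.a + D.c x.a (D.act x.g y.a), x.g * y.g⟩⟩

instance : One (Ext D) := ⟨⟨0, 0, 1⟩⟩

instance : Inv (Ext D) :=
  ⟨fun x => ⟨-D.act x.g⁻¹ x.a,
    -(D.actZ x.g⁻¹ x.e + D.Φ x.g⁻¹ x.a + D.c (-D.act x.g⁻¹ x.a) (D.act x.g⁻¹ x.a)), x.g⁻¹⟩⟩

lemma Ext.mul_a (x y : Ext D) : (x * y).a = x.a + D.act x.g y.a := rfl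
lemma Ext.mul_e (x y : Ext D) :
    (x * y).e = x.e + D.actZ x.g y.e + D.Φ x.g y.a + D.c x.a (D.act x.g y.a) := rfl
lemma Ext.mul_g (x y : Ext D) : (x * y).g = x.g * y.g := rfl
lemma Ext.one_a : (1 : Ext D).a = 0 := rfl
lemma Ext.one_e : (1 : Ext D).e = 0 := rfl
lemma Ext.one_g : (1 : Ext D).g = 1 := rfl
lemma Ext.inv_a' (x : Ext D) : (x⁻¹).a = -D.act x.g⁻¹ x.a := rfl
lemma Ext.inv_e' (x : Ext D) : (x⁻¹).e =
    -(D.actZ x.g⁻¹ x.e + D.Φ x.g⁻¹ x.a + D.c (-D.act x.g⁻¹ x.a) (D.act x.g⁻¹ x.a)) := rfl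
lemma Ext.inv_g' (x : Ext D) : (x⁻¹).g = x.g⁻¹ := rfl

instance : Group (Ext D) :=
  Group.ofLeftAxioms
    (fun x y z => by
      refine Ext.ext' ?_ ?_ ?_
      · simp only [Ext.mul_a, Ext.mul_g, D.act_mul, map_add, add_assoc]
      · have h := D.Φ_add x.g y.a (D.act y.g z.a)
        simp only [Ext.mul_a, Ext.mul_e, Ext.mul_g, D.act_mul, D.actZ_mul, D.Φ_mul, map_add,
          AddMonoidHom.add_apply]
        rw [eq_sub_of_add_eq h]
        abel
      · simp only [Ext.mul_g, mul_assoc])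
    (fun x => by
      refine Ext.ext' ?_ ?_ ?_
      · simp [Ext.mul_a, Ext.one_a, Ext.one_g, D.act_one]
      · simp [Ext.mul_e, Ext.one_a, Ext.one_g, Ext.one_e, D.actZ_one, D.Φ_one]
      · simp [Ext.mul_g, Ext.one_g])
    (fun x => by
      refine Ext.ext' ?_ ?_ ?_
      · simp [Ext.mul_a, Ext.one_a, Ext.inv_a', Ext.inv_g']
      · simp only [Ext.mul_e, Ext.one_e, Ext.inv_a', Ext.inv_g', Ext.inv_e']
        abel
      · simp [Ext.mul_g, Ext.one_g, Ext.inv_g'])

lemma Ext.inv_a (x : Ext D) : (x⁻¹).a = -D.act x.g⁻¹ x.a := rfl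
lemma Ext.inv_e (x : Ext D) : (x⁻¹).e =
    -(D.actZ x.g⁻¹ x.e + D.Φ x.g⁻¹ x.a + D.c (-D.act x.g⁻¹ x.a) (D.act x.g⁻¹ x.a)) := rfl
lemma Ext.inv_g (x : Ext D) : (x⁻¹).g = x.g⁻¹ := rfl

/-- The projection to the top group. -/
def Ext.top (D : ExtData M Z T) : Ext D →* T where
  toFun x := x.g
  map_one' := rfl
  map_mul' _ _ := rfl

lemma Ext.top_apply (x : Ext D) : Ext.top D x = x.g := rfl

lemma Ext.comm_iff {x y : Ext D} (hx : x.g = 1) (hy : y.g = 1) :
    x * y = y * x ↔ D.c x.a y.a = D.c y.a x.a := by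
  constructor
  · intro h
    have h2 := congrArg Ext.e h
    simp only [Ext.mul_e, hx, hy, D.act_one, D.actZ_one, D.Φ_one, add_zero] at h2
    rw [add_comm x.e] at h2
    exact add_left_cancel h2
  · intro h
    refine Ext.ext' ?_ ?_ ?_
    · simp only [Ext.mul_a, hx, hy, D.act_one, add_comm]
    · simp only [Ext.mul_e, hx, hy, D.act_one, D.actZ_one, D.Φ_one, add_zero, h, add_comm x.e]
    · simp only [Ext.mul_g, hx, hy]

lemma Ext.conj_a (x : Ext D) {y : Ext D} (hy : y.g = 1) : (x * y * x⁻¹).a = D.act x.g y.a := by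
  rw [Ext.mul_a, Ext.mul_a, Ext.mul_g, hy, mul_one, Ext.inv_a, map_neg, ← D.act_mul,
    mul_inv_cancel, D.act_one]
  abel

lemma Ext.conj_g (x : Ext D) {y : Ext D} (hy : y.g = 1) : (x * y * x⁻¹).g = 1 := by
  rw [Ext.mul_g, Ext.mul_g, hy, mul_one, Ext.inv_g, mul_inv_cancel]

end Ext

section Poly

/-- Solvable with all subgroups finitely generated. -/
def Poly (G : Type) [Group G] : Prop := Group.IsSolvable G ∧ ∀ H : Subgroup G, H.FG

lemma fg_map {G H : Type} [Group G] [Group H] (φ : G →* H) {K : Subgroup G} (h : K.FG) :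
    (K.map φ).FG := by
  obtain ⟨S, rfl, hS⟩ := (Subgroup.fg_iff _).mp h
  exact (Subgroup.fg_iff _).mpr ⟨φ '' S, (MonoidHom.map_closure φ S).symm, hS.image _⟩

lemma Poly.of_ker {G H : Type} [Group G] [Group H] (φ : G →* H) (hH : Poly H) (hK : Poly φ.ker) :
    Poly G := by
  refine ⟨?_, fun K => ?_⟩
  · have := hH.1
    have := hK.1
    exact Group.isSolvable_of_ker_le_range φ.ker.subtype φ (by simp)
  · obtain ⟨S, hS, hSf⟩ := (Subgroup.fg_iff _).mp (hH.2 (K.map φ))
    have h1 : ∀ s : S, ∃ k ∈ K, φ k = s := fun s => by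
      have : (s : H) ∈ K.map φ := hS ▸ Subgroup.subset_closure s.2
      exact this
    choose k hk hk' using h1
    have := hSf.to_subtype
    have h2 : (Subgroup.closure (Set.range k)).FG :=
      (Subgroup.fg_iff _).mpr ⟨_, rfl, Set.finite_range k⟩
    have h3 := fg_map φ.ker.subtype (hK.2 (K.comap φ.ker.subtype))
    have h4 : K = (K.comap φ.ker.subtype).map φ.ker.subtype ⊔ Subgroup.closure (Set.range k) := by
      refine le_antisymm (fun x hx => ?_) (sup_le (Subgroup.map_comap_le _ _) ?_)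
      · have h5 : φ x ∈ (Subgroup.closure (Set.range k)).map φ := by
          have : φ x ∈ Subgroup.closure S := hS ▸ Subgroup.mem_map_of_mem φ hx
          refine (Subgroup.closure_le _).mpr (fun s hs => ?_) this
          exact ⟨k ⟨s, hs⟩, Subgroup.subset_closure ⟨_, rfl⟩, hk' _⟩
        obtain ⟨y, hy, hxy⟩ := h5
        have hyK : y ∈ K := (Subgroup.closure_le K).mpr (by rintro _ ⟨s, rfl⟩; exact hk s) hy
        have : x = (x * y⁻¹) * y := by group
        rw [this]
        refine Subgroup.mul_mem _ (Subgroup.mem_sup_left ?_) (Subgroup.mem_sup_right hy)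
        refine ⟨⟨x * y⁻¹, by simp [MonoidHom.mem_ker, hxy]⟩, ?_, rfl⟩
        exact K.mul_mem hx (K.inv_mem hyK)
      · exact (Subgroup.closure_le K).mpr (by rintro _ ⟨s, rfl⟩; exact hk s)
    rw [h4]
    exact h3.sup h2

lemma Poly.of_finite (G : Type) [Group G] [Finite G] [h : Group.IsSolvable G] : Poly G :=
  ⟨h, fun H => (Group.fg_iff_subgroup_fg H).mp inferInstance⟩

lemma Poly.of_add (M : Type) [AddCommGroup M] [Module.Finite ℤ M] : Poly (Multiplicative M) := by
  refine ⟨inferInstance, fun H => ?_⟩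
  have h : (AddSubgroup.toIntSubmodule (H.toAddSubgroup' : AddSubgroup M)).FG :=
    IsNoetherian.noetherian _
  rw [Submodule.fg_iff_addSubgroup_fg, AddSubgroup.toIntSubmodule_toAddSubgroup,
    AddSubgroup.fg_iff_mul_fg] at h
  exact h

lemma Poly.of_injective {G H : Type} [Group G] [Group H] (φ : G →* H) (hH : Poly H)
    (h : Function.Injective φ) : Poly G := by
  refine Poly.of_ker φ hH ?_
  have : Subsingleton φ.ker := by
    rw [(MonoidHom.ker_eq_bot_iff φ).mpr h]
    infer_instance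
  exact Poly.of_finite _

lemma Ext.poly {M Z T : Type} [AddCommGroup M] [AddCommGroup Z] [Group T] (D : ExtData M Z T)
    [Module.Finite ℤ M] [Module.Finite ℤ Z] (hT : Poly T) : Poly (Ext D) := by
  refine Poly.of_ker (Ext.top D) hT ?_
  let ψ : (Ext.top D).ker →* Multiplicative M :=
    { toFun := fun x => Multiplicative.ofAdd x.1.a
      map_one' := rfl
      map_mul' := fun x y => by
        have hx : x.1.g = 1 := x.2
        rw [← ofAdd_add, Subgroup.coe_mul, Ext.mul_a, hx, D.act_one] }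
  refine Poly.of_ker ψ (Poly.of_add M) ?_
  let χ : ψ.ker →* Multiplicative Z :=
    { toFun := fun x => Multiplicative.ofAdd x.1.1.e
      map_one' := rfl
      map_mul' := fun x y => by
        have hx : x.1.1.g = 1 := x.1.2
        have hx' : x.1.1.a = 0 := x.2
        rw [← ofAdd_add, Subgroup.coe_mul, Subgroup.coe_mul, Ext.mul_e, hx, hx', D.actZ_one,
          D.Φ_one, map_zero, AddMonoidHom.zero_apply, add_zero, add_zero] }
  refine Poly.of_injective χ (Poly.of_add Z) fun x y hxy => ?_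
  have hx : x.1.1.g = 1 := x.1.2
  have hx' : x.1.1.a = 0 := x.2
  have hy : y.1.1.g = 1 := y.1.2
  have hy' : y.1.1.a = 0 := y.2
  exact Subtype.ext (Subtype.ext (Ext.ext' (hx'.trans hy'.symm) hxy (hx.trans hy.symm)))

end Poly

section Laws

variable {G B : Type} [Group G] [Group B]

/-- The word `w` vanishes on all tuples from `S`. -/
def SatOn (S : Set G) (w : FreeGroup ℕ) : Prop :=
  ∀ f : ℕ → G, (∀ i, f i ∈ S) → FreeGroup.lift f w = 1

lemma map_lift (φ : G →* B) {ι : Type} (f : ι → G) (w : FreeGroup ι) :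
    φ (FreeGroup.lift f w) = FreeGroup.lift (fun i => φ (f i)) w := by
  have : φ.comp (FreeGroup.lift f) = FreeGroup.lift fun i => φ (f i) := by
    ext i; simp
  exact DFunLike.congr_fun this w

lemma satOn_pi {w : FreeGroup ℕ} (h : SatOn (Set.univ : Set G) w) (ι : Type) :
    SatOn (Set.univ : Set (ι → G)) w := by
  intro f _
  funext i
  have := map_lift (Pi.evalMonoidHom (fun _ : ι => G) i) f w
  rw [h _ fun _ => Set.mem_univ _] at this
  exact this

lemma satOn_prod {w : FreeGroup ℕ} {S : Set G} {S' : Set B} (h : SatOn S w) (h' : SatOn S' w) :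
    SatOn (S ×ˢ S') w := by
  intro f hf
  have h1 := map_lift (MonoidHom.fst G B) f w
  have h2 := map_lift (MonoidHom.snd G B) f w
  exact Prod.ext (h1.trans (h _ fun i => (hf i).1)) (h2.trans (h' _ fun i => (hf i).2))

/-- Transfer of laws along a relation. -/
lemma satOn_of_rel {w : FreeGroup ℕ} {S : Set G} {S' : Set B} (h : SatOn S w)
    (Γ : G → B → Prop) (h1 : Γ 1 1)
    (hmul : ∀ x y x' y', Γ x y → Γ x' y' → Γ (x * x') (y * y'))
    (hinv : ∀ x y, Γ x y → ∃ y', Γ x⁻¹ y') (hinj : ∀ y, Γ 1 y → y = 1)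
    (hsurj : ∀ y ∈ S', ∃ x ∈ S, Γ x y) : SatOn S' w := by
  intro f hf
  choose x hx hxf using fun i => hsurj (f i) (hf i)
  have key : ∀ w : FreeGroup ℕ, Γ (FreeGroup.lift x w) (FreeGroup.lift f w) := by
    intro w
    induction w using FreeGroup.induction_on with
    | C1 => simpa using h1
    | of i => simpa using hxf i
    | inv_of i hi =>
      obtain ⟨y', hy'⟩ := hinv _ _ hi
      have h2 := hmul _ _ _ _ hi hy'
      rw [mul_inv_cancel] at h2
      have h3 := eq_inv_of_mul_eq_one_right (hinj _ h2)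
      rw [map_inv, map_inv, ← h3]
      exact hy'
    | mul u v hu hv => rw [map_mul, map_mul]; exact hmul _ _ _ _ hu hv
  have h4 := key w
  rw [h x hx] at h4
  exact hinj _ h4

lemma satOn_conj {w : FreeGroup ℕ} {S S' : Set G} (h : SatOn S w) (n : G)
    (hn : ∀ y ∈ S', n * y * n⁻¹ ∈ S) : SatOn S' w := by
  intro f hf
  have h1 := map_lift (MulAut.conj n).toMonoidHom f w
  exact (MulAut.conj n).injective ((h1.trans (h _ fun i => hn _ (hf i))).trans (map_one _).symm)

lemma exists_vars (w : FreeGroup ℕ) : ∃ s : Finset ℕ, ∀ (K : Type) [Group K] (f f' : ℕ → K),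
    (∀ i ∈ s, f i = f' i) → FreeGroup.lift f w = FreeGroup.lift f' w := by
  induction w using FreeGroup.induction_on with
  | C1 => exact ⟨∅, fun K _ f f' _ => by simp⟩
  | of i => exact ⟨{i}, fun K _ f f' h => by simpa using h i (by simp)⟩
  | inv_of i hi =>
    obtain ⟨s, hs⟩ := hi
    exact ⟨s, fun K _ f f' h => by rw [map_inv, map_inv, hs K f f' h]⟩
  | mul u v hu hv =>
    obtain ⟨s, hs⟩ := hu
    obtain ⟨t, ht⟩ := hv
    refine ⟨s ∪ t, fun K _ f f' h => ?_⟩
    rw [map_mul, map_mul, hs K f f' fun i hi => h i (Finset.mem_union_left _ hi),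
      ht K f f' fun i hi => h i (Finset.mem_union_right _ hi)]

/-- The word `[y₁², y₂]`. -/
def uW : FreeGroup ℕ :=
  FreeGroup.of 0 * FreeGroup.of 0 * FreeGroup.of 1 * (FreeGroup.of 0 * FreeGroup.of 0)⁻¹ *
    (FreeGroup.of 1)⁻¹

/-- The word `x₁² ⋯ x_k²`. -/
def zW : ℕ → FreeGroup ℕ
  | 0 => 1
  | k + 1 => zW k * (FreeGroup.of (k + 2) * FreeGroup.of (k + 2))

/-- The word `[u, z u z⁻¹]`. -/
def lawW (k : ℕ) : FreeGroup ℕ :=
  uW * (zW k * uW * (zW k)⁻¹) * ((zW k * uW * (zW k)⁻¹) * uW)⁻¹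

lemma lawW_iff {M Z T : Type} [AddCommGroup M] [AddCommGroup Z] [Group T] {D : ExtData M Z T}
    (k : ℕ) (f : ℕ → Ext D) (hu : (FreeGroup.lift f uW).g = 1) :
    FreeGroup.lift f (lawW k) = 1 ↔
      D.c (FreeGroup.lift f uW).a (D.act (FreeGroup.lift f (zW k)).g (FreeGroup.lift f uW).a) =
      D.c (D.act (FreeGroup.lift f (zW k)).g (FreeGroup.lift f uW).a) (FreeGroup.lift f uW).a := by
  rw [lawW, map_mul, map_inv, mul_inv_eq_one]
  simp only [map_mul, map_inv]
  rw [Ext.comm_iff hu (Ext.conj_g _ hu), Ext.conj_a _ hu]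

end Laws

end Pool.Agent.Lib.MP_631532_al
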