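import Pool.Agent.Lib.MP_631532_al.Main

/-!
The test group satisfies all laws of `G` in few variables; the laws of `G` are not finitely based.
-/

noncomputable section

open Finset

namespace Pool.Agent.Lib.MP_631532_al

variable {F : Type} [CommRing F] [CharP F 2] {n : ℕ} {π : OO →+* F} {L : Lam n}

lemma act_supp {g : TB F n} (hg : dot L.l g.1.w = 0) {t : ZMod 2} {a : MB F n}
    (ha : ∀ v, dot L.l v ≠ t → a v = 0) (v : V (n + 5)) (hv : dot L.l v ≠ t) :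
    (DB π n).act g a v = 0 := by
  rw [DB_act, ha _ (by rwa [dot_add, hg, add_zero]), mul_zero, smul_zero]

lemma c_disj {t t' : ZMod 2} (h : t ≠ t') {a b : MB F n} (ha : ∀ v, dot L.l v ≠ t → a v = 0)
    (hb : ∀ v, dot L.l v ≠ t' → b v = 0) : (DB π n).c a b = 0 := by
  rw [DB_c]
  refine sum_eq_zero fun v _ => ?_
  by_cases hv : dot L.l v = t
  · rw [hb v (by rwa [hv]), c0_zero_right]
  · rw [ha v hv, c0_zero_left]

theorem satOn_half (hπ : Function.Surjective π) (Θ : Theta F L)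
    {w : FreeGroup ℕ} (hw : SatOn (Set.univ : Set GG) w) :
    SatOn {b : Ext (DB π n) | ∃ f κ, b.g.1 = Θ.θ f * L.cK F κ} w := by
  have h01 : (0 : ZMod 2) ≠ 1 := by decide
  refine satOn_of_rel (satOn_prod (satOn_coset hπ Θ 0 hw) (satOn_coset hπ Θ (ee L.j) hw))
    (fun x b => x.1.g = b.g ∧ x.2.g = b.g ∧ dot L.l b.g.1.w = 0 ∧
      (∀ v, dot L.l v ≠ 0 → x.1.a v = 0) ∧ (∀ v, dot L.l v ≠ 1 → x.2.a v = 0) ∧
      b.a = x.1.a + x.2.a ∧ b.e = x.1.e + x.2.e)
    ⟨rfl, rfl, dot_zero _, fun _ _ => rfl, fun _ _ => rfl, (add_zero _).symm, (add_zero _).symm⟩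
    ?_ ?_ ?_ ?_
  · rintro x y x' y' ⟨h1, h2, h3, h4, h5, h6, h7⟩ ⟨h1', h2', h3', h4', h5', h6', h7'⟩
    have e1 := act_supp (π := π) h3 h4'
    have e2 := act_supp (π := π) h3 h5'
    refine ⟨?_, ?_, ?_, fun v hv => ?_, fun v hv => ?_, ?_, ?_⟩
    · rw [Prod.fst_mul, Ext.mul_g, Ext.mul_g, h1, h1']
    · rw [Prod.snd_mul, Ext.mul_g, Ext.mul_g, h2, h2']
    · rw [Ext.mul_g, Prod.fst_mul, WW.mul_w, dot_add, h3, h3', add_zero]
    · rw [Prod.fst_mul, Ext.mul_a, Pi.add_apply, h1, h4 v hv, e1 v hv, add_zero]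
    · rw [Prod.snd_mul, Ext.mul_a, Pi.add_apply, h2, h5 v hv, e2 v hv, add_zero]
    · rw [Prod.fst_mul, Prod.snd_mul, Ext.mul_a, Ext.mul_a, Ext.mul_a, h1, h2, h6, h6', map_add]
      abel
    · have e3 := (DB π n).Φ_add y.g x'.1.a x'.2.a
      rw [c_disj h01 h4' h5', c_disj h01 e1 e2, map_zero, add_zero, add_zero] at e3
      rw [Prod.fst_mul, Prod.snd_mul, Ext.mul_e, Ext.mul_e, Ext.mul_e, h1, h2, h6, h6', h7, h7',
        e3]
      simp only [map_add, AddMonoidHom.add_apply, c_disj h01 h4 e2, c_disj h01.symm h5 e1]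
      ring
  · rintro x y ⟨h1, h2, h3, h4, h5, -, -⟩
    have h3' : dot L.l (y.g⁻¹).1.w = 0 := h3
    refine ⟨⟨(x.1⁻¹).a + (x.2⁻¹).a, (x.1⁻¹).e + (x.2⁻¹).e, y.g⁻¹⟩, ?_, ?_, h3', fun v hv => ?_,
      fun v hv => ?_, rfl, rfl⟩
    · rw [Prod.fst_inv, Ext.inv_g, h1]
    · rw [Prod.snd_inv, Ext.inv_g, h2]
    · rw [Prod.fst_inv, Ext.inv_a, h1, Pi.neg_apply, act_supp h3' h4 v hv, neg_zero]
    · rw [Prod.snd_inv, Ext.inv_a, h2, Pi.neg_apply, act_supp h3' h5 v hv, neg_zero]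
  · rintro y ⟨h1, -, -, -, -, h6, h7⟩
    exact Ext.ext' (h6.trans (add_zero _)) (h7.trans (add_zero _)) h1.symm
  · rintro y ⟨f, κ, h⟩
    refine ⟨(⟨fun v => if dot L.l v = 0 then y.a v else 0, y.e, y.g⟩,
      ⟨fun v => if dot L.l v = 0 then 0 else y.a v, 0, y.g⟩), ⟨⟨fun v hv => ?_, f, κ, h⟩,
      fun v hv => ?_, f, κ, h⟩, rfl, rfl, ?_, fun v hv => if_neg hv, fun v hv => ?_, ?_,
      (add_zero _).symm⟩
    · rw [dot_zero] at hv
      exact if_neg hv
    · rw [dot_ee, L.hj] at hv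
      exact if_pos ((zmod2_cases _).resolve_right hv)
    · rw [h, WW.mul_w, Θ.hw, dot_add, L.dot_io, zero_add]
      exact dot_zero _
    · exact if_pos ((zmod2_cases _).resolve_right hv)
    · funext v
      simp only [Pi.add_apply]
      split_ifs <;> simp

theorem satOn_hyper (hπ : Function.Surjective π) (L : Lam n)
    {w : FreeGroup ℕ} (hw : SatOn (Set.univ : Set GG) w) :
    SatOn {b : Ext (DB π n) | b ∈ BB π n ∧ dot L.l b.g.1.w = 0} w := by
  obtain ⟨Θ, ν, h⟩ := L.exists_theta (F := F)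
  refine satOn_conj (satOn_half hπ Θ hw) ⟨0, 0, (ν, 1)⟩ ?_
  rintro y ⟨h1, h2⟩
  exact h y.g.1 h1 h2

theorem satOn_few (hπ : Function.Surjective π) {w : FreeGroup ℕ}
    (hw : SatOn (Set.univ : Set GG) w) (s : Finset ℕ) (hs : s.card ≤ n)
    (h : ∀ f f' : ℕ → Ext (DB π n), (∀ i ∈ s, f i = f' i) →
      FreeGroup.lift f w = FreeGroup.lift f' w) : SatOn (BB π n : Set (Ext (DB π n))) w := by
  intro f hf
  obtain ⟨l, hl, h1⟩ := exists_lam
    (Sum.elim (fun i : s => (f i).g.1.w) ![(ee 0 : V (n + 5)), ee 1, ee 2]) (by simp; omega)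
  obtain ⟨j, hj⟩ := exists_dot_eq_one hl
  let L : Lam n := ⟨l, j, hj, (dot_ee l 0).symm.trans (h1 (Sum.inr 0)),
    (dot_ee l 1).symm.trans (h1 (Sum.inr 1)), (dot_ee l 2).symm.trans (h1 (Sum.inr 2))⟩
  rw [h f (fun i => if i ∈ s then f i else 1) fun i hi => (if_pos hi).symm]
  refine satOn_hyper hπ L hw _ fun i => ?_
  by_cases hi : i ∈ s
  · rw [if_pos hi]
    exact ⟨hf i, h1 (Sum.inl ⟨i, hi⟩)⟩
  · rw [if_neg hi]
    exact ⟨one_mem _, dot_zero _⟩

theorem not_finitely_based (S : Finset (FreeGroup ℕ))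
    (hS : ∀ s ∈ S, ∀ f : ℕ → GG, FreeGroup.lift f s = 1) :
    ∃ w : FreeGroup ℕ, (∀ f : ℕ → GG, FreeGroup.lift f w = 1) ∧
      w ∉ Subgroup.normalClosure
        {u : FreeGroup ℕ | ∃ s ∈ S, ∃ φ : FreeGroup ℕ →* FreeGroup ℕ, φ s = u} := by
  choose vars hvars using exists_vars
  let k := (S.biUnion vars).card
  let K := OO ⧸ Ideal.span {((2 : ℕ) : OO)}
  have : CharP K 2 := CharP.quotient OO 2 OO_two_nonunit
  let p : OO →+* K := Ideal.Quotient.mk _
  have hp : Function.Surjective p := Ideal.Quotient.mk_surjective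
  refine ⟨lawW (k + 5), fun f => GG_law _ f fun _ => Set.mem_univ _, fun h => ?_⟩
  refine BB_violates p (n := k) ?_
  refine (Subgroup.normalClosure_le_normal (N := (FreeGroup.lift (ff p k)).ker) ?_) h
  rintro _ ⟨s, hs, φ, rfl⟩
  have h1 : ∀ u, FreeGroup.lift (ff p k) u ∈ BB p k := by
    intro u
    induction u using FreeGroup.induction_on with
    | C1 => rw [map_one]; exact one_mem _
    | of i => rw [FreeGroup.lift_apply_of]; exact ff_mem p i
    | inv_of i hi => rw [map_inv]; exact inv_mem hi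
    | mul x y hx hy => rw [map_mul]; exact mul_mem hx hy
  have h2 : (FreeGroup.lift (ff p k)).comp φ =
      FreeGroup.lift fun i => FreeGroup.lift (ff p k) (φ (FreeGroup.of i)) := by
    ext i; simp
  have h3 := satOn_few (n := k) hp (fun f _ => hS s hs f) (vars s)
    (card_le_card (subset_biUnion_of_mem vars hs)) (hvars s _) _ fun i => h1 (φ (FreeGroup.of i))
  rw [← h2] at h3
  exact h3

end Pool.Agent.Lib.MP_631532_al
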