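import Pool.Agent.Lib.MP_631532_al.Norm

/-!
Character sums over tuples in the quaternion group and their reductions modulo two.
-/

noncomputable section

open Finset

namespace Pool.Agent.Lib.MP_631532_al

section Ev

variable {k : ℕ}

abbrev XX (k : ℕ) := V k × V k × V k

/-- Evaluation of a word at a tuple of quaternion units. -/
def ev (x : XX k) : FF k →* QQ := FreeGroup.lift fun l => ⟨x.1 l, x.2.1 l, x.2.2 l⟩

lemma zmod2_neg (a : ZMod 2) : -a = a := by revert a; decide

lemma ev_a (x : XX k) (f : FF k) : (ev x f).a = dot x.2.1 (deg f) := by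
  induction f using FreeGroup.induction_on with
  | C1 => rw [map_one, deg_one, dot_zero]; rfl
  | of i => rw [ev, FreeGroup.lift_apply_of, deg_of, dot_ee]
  | inv_of i hi => rw [map_inv, QQ.inv_a, zmod2_neg, deg_inv, hi]
  | mul x y hx hy => rw [map_mul, QQ.mul_a, hx, hy, deg_mul, dot_add]

lemma ev_b (x : XX k) (f : FF k) : (ev x f).b = dot x.2.2 (deg f) := by
  induction f using FreeGroup.induction_on with
  | C1 => rw [map_one, deg_one, dot_zero]; rfl
  | of i => rw [ev, FreeGroup.lift_apply_of, deg_of, dot_ee]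
  | inv_of i hi => rw [map_inv, QQ.inv_b, zmod2_neg, deg_inv, hi]
  | mul x y hx hy => rw [map_mul, QQ.mul_b, hx, hy, deg_mul, dot_add]

lemma ev_flip_e (x : XX k) (t : V k) (f : FF k) :
    (ev (x + (t, 0, 0)) f).e = (ev x f).e + dot t (deg f) := by
  induction f using FreeGroup.induction_on with
  | C1 => rw [map_one, map_one, deg_one, dot_zero, add_zero]
  | of i =>
    rw [ev, ev, FreeGroup.lift_apply_of, FreeGroup.lift_apply_of, deg_of, dot_ee]
    rfl
  | inv_of i hi =>
    rw [map_inv, map_inv, QQ.inv_e, QQ.inv_e, hi, deg_inv]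
    simp only [ev_a, ev_b, Prod.snd_add, Prod.fst_add, add_zero, zmod2_neg]
    ring
  | mul y z hy hz =>
    rw [map_mul, map_mul, QQ.mul_e, QQ.mul_e, hy, hz, deg_mul, dot_add]
    simp only [ev_a, ev_b, Prod.snd_add, Prod.fst_add, add_zero]
    ring

lemma iq_ev_flip (x : XX k) (t : V k) (f : FF k) (h : dot t (deg f) = 1) :
    iq (ev (x + (t, 0, 0)) f) = -iq (ev x f) := by
  rw [← iq_neg]
  congr 1
  refine QQ.ext' ?_ ?_ ?_
  · rw [ev_flip_e, h, QQ.mul_e]; simp
  · simp [QQ.mul_a, ev_a]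
  · simp [QQ.mul_b, ev_b]

/-- The value of the square of a word of degree `D`. -/
def uu (D : V k) (x : XX k) : ℤ := 2 * dz (dot x.2.1 D) * dz (dot x.2.2 D) - 1

lemma iq_ev_sq (x : XX k) (f : FF k) : iq (ev x (f * f)) = (uu (deg f) x : ℤ) := by
  rw [map_mul, iq_sq, ev_a, ev_b, uu]

lemma uu_zero (D : V k) : uu D 0 = 1 := by
  simp [uu, dot, dz]

lemma sum_flip (φ : HH → OO) (hφ : ∀ a, φ (-a) = -φ a) (c : V k) {f : FF k} (hf : deg f ≠ 0) :
    ∑ x : XX k, φ (iq (ev x f)) * (uu c x : ℤ) = 0 := by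
  obtain ⟨l, hl⟩ := exists_dot_eq_one hf
  have h1 : dot (ee l) (deg f) = 1 := by rw [ee_dot, hl]
  have h2 := Equiv.sum_comp (Equiv.addRight ((ee l, 0, 0) : XX k))
    fun x : XX k => φ (iq (ev x f)) * (uu c x : ℤ)
  simp only [Equiv.coe_addRight, iq_ev_flip _ _ _ h1, hφ, neg_mul, sum_neg_distrib, uu,
    Prod.snd_add, Prod.fst_add, add_zero] at h2
  refine OO_two_mul ?_
  simp only [uu]
  linear_combination -h2

end Ev

lemma span_of_dual {m : ℕ} {ι : Type} [Fintype ι] (w : ι → V m)
    (h : ∀ l : V m, (∀ j, dot l (w j) = 0) → l = 0) (v : V m) :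
    ∃ c : ι → ZMod 2, v = ∑ j, c j • w j := by
  have h1 : Submodule.span (ZMod 2) (Set.range w) = ⊤ := by
    by_contra hne
    obtain ⟨f, hf, hle⟩ := Submodule.exists_le_ker_of_lt_top _ (lt_top_iff_ne_top.mpr hne)
    have h2 : ∀ v, f v = dot (fun i => f (ee i)) v := by
      intro v
      conv_lhs => rw [V_eq_sum v]
      simp [dot, mul_comm]
    have h3 := h (fun i => f (ee i)) fun j => by
      rw [← h2]
      exact hle (Submodule.subset_span ⟨j, rfl⟩)
    refine hf (LinearMap.ext fun v => ?_)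
    rw [h2, h3]
    simp [dot]
  have h4 : v ∈ Submodule.span (ZMod 2) (Set.range w) := h1 ▸ Submodule.mem_top
  obtain ⟨c, hc⟩ := (Submodule.mem_span_range_iff_exists_fun _).mp h4
  exact ⟨c, hc.symm⟩

lemma exists_dep {m : ℕ} {ι : Type} [Fintype ι] (w : ι → V m) (h : m < Fintype.card ι) :
    ∃ c : ι → ZMod 2, c ≠ 0 ∧ ∑ j, c j • w j = 0 := by
  have hk : LinearMap.ker (Fintype.linearCombination (ZMod 2) w) ≠ ⊥ := by
    refine LinearMap.ker_ne_bot_of_finrank_lt ?_
    simpa using h
  obtain ⟨c, hc, h0⟩ := Submodule.exists_mem_ne_zero_of_ne_bot hk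
  exact ⟨c, h0, by simpa [Fintype.linearCombination_apply] using hc⟩

lemma cast_eq_zero_of_dvd_pow {F : Type} [CommRing F] [CharP F 2] {a k : ℕ} (h : a ∣ 2 ^ k)
    (h1 : a ≠ 1) : (a : F) = 0 := by
  obtain ⟨i, -, rfl⟩ := (Nat.dvd_prime_pow Nat.prime_two).mp h
  have hi : i ≠ 0 := fun h => h1 (by rw [h, pow_zero])
  rw [Nat.cast_pow, Nat.cast_ofNat, CharTwo.two_eq_zero, zero_pow hi]

section Count

variable {F : Type} [CommRing F] [CharP F 2] {n : ℕ} (L : Lam n)

lemma Lam.count {J : Type} [Fintype J] [DecidableEq J] (D : J → V (n + 4)) : ∃ N : ℕ,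
    2 ^ Fintype.card J * (∑ a, ∏ j, dz (dot a (D j))) * (∑ a, ∏ j, dz (dot a (D j))) =
      (2 ^ (n + 4) * N : ℤ) ∧ (N : F) = top (L.s F * ∏ j, ss F (L.io (D j))) := by
  let φ : V (n + 4) →+ (J → ZMod 2) :=
    AddMonoidHom.mk' (fun a j => dot a (D j)) fun a b => by
      funext j; simp [dot, add_mul, sum_add_distrib]
  have hφ : ∀ a, φ a = 0 ↔ ∀ j, dot a (D j) = 0 := fun a => funext_iff
  have hK : (∑ a, ∏ j, dz (dot a (D j))) = (Nat.card φ.ker : ℤ) := by
    have : ∀ a, ∏ j, dz (dot a (D j)) = if a ∈ φ.ker then 1 else 0 := by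
      intro a
      simp only [dz, prod_boole, AddMonoidHom.mem_ker, hφ, mem_univ, true_imp_iff]
    simp only [this, sum_boole]
    rw [Nat.card_eq_fintype_card, Fintype.card_subtype]
  have h1 : Nat.card φ.ker * Nat.card φ.range = 2 ^ (n + 4) := by
    rw [← AddSubgroup.index_ker, AddSubgroup.card_mul_index]
    simp
  have h2 : Nat.card φ.range * φ.range.index = 2 ^ Fintype.card J := by
    rw [AddSubgroup.card_mul_index]
    simp
  have hw : L.s F * ∏ j, ss F (L.io (D j)) =
      ∏ j : Option J, ss F (Option.elim j (ee L.j) fun j => L.io (D j)) := by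
    rw [Fintype.prod_option]
    rfl
  refine ⟨φ.range.index * Nat.card φ.ker, ?_, ?_⟩
  · rw [hK]
    have h1' : ((Nat.card φ.ker : ℤ) * Nat.card φ.range) = 2 ^ (n + 4) := by exact_mod_cast h1
    have h2' : ((Nat.card φ.range : ℤ) * φ.range.index) = 2 ^ Fintype.card J := by
      exact_mod_cast h2
    rw [← h1', ← h2']
    push_cast
    ring
  · by_cases hk : Nat.card φ.ker = 1
    · rw [hk, one_mul] at h1
      rw [h1] at h2
      by_cases hi : φ.range.index = 1
      · rw [hi, mul_one] at h2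
        have hc : Fintype.card J = n + 4 := (Nat.pow_right_injective le_rfl h2).symm
        rw [hk, hi, hw, top_prod_span _ (by rw [Fintype.card_option, hc])]
        · simp
        refine span_of_dual _ fun l hl => ?_
        have e1 : l L.j = 0 := (dot_ee l L.j).symm.trans (hl none)
        have e2 : L.pr l ∈ φ.ker := (hφ _).mpr fun j => by
          have := hl (some j)
          rwa [Option.elim, L.dot_split, e1, zero_mul, zero_add, L.pr_io] at this
        rw [AddSubgroup.card_eq_one.mp hk, AddSubgroup.mem_bot] at e2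
        exact L.V_ext e1 e2
      · have hc : n + 4 < Fintype.card J := by
          have h3 : φ.range.index ≠ 0 := AddSubgroup.index_ne_zero_of_finite
          refine (Nat.pow_lt_pow_iff_right (a := 2) (by norm_num)).mp ?_
          rw [← h2]
          exact lt_mul_of_one_lt_right (by positivity) (by omega)
        obtain ⟨c, hc0, hc1⟩ := exists_dep D hc
        obtain ⟨j, hj⟩ : ∃ j, c j = 1 := by
          by_contra h
          push Not at h
          exact hc0 (funext fun j => (zmod2_cases (c j)).resolve_right (h j))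
        have h4 : ∑ j, c j • L.io (D j) = 0 := by
          have : ∀ s : Finset J, ∑ j ∈ s, c j • L.io (D j) = L.io (∑ j ∈ s, c j • D j) := by
            intro s
            induction s using Finset.induction_on with
            | empty => simp [L.io_zero]
            | insert j s hj ih =>
              rw [sum_insert hj, sum_insert hj, ih, L.io_add]
              rcases zmod2_cases (c j) with h | h <;> simp [h, L.io_zero]
          rw [this, hc1, L.io_zero]
        rw [prod_ss_eq_zero univ _ c (mem_univ j) hj h4, mul_zero, map_zero, Nat.cast_mul,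
          cast_eq_zero_of_dvd_pow (Dvd.intro_left _ h2) hi, zero_mul]
    · rw [Nat.cast_mul, cast_eq_zero_of_dvd_pow (Dvd.intro _ h1) hk, mul_zero, hw]
      have hne : φ.ker ≠ ⊥ := fun h => hk (AddSubgroup.card_eq_one.mpr h)
      obtain ⟨⟨a, ha⟩, ha0⟩ := (AddSubgroup.ne_bot_iff_exists_ne_zero).mp hne
      let l : V (n + 5) := Fin.insertNth (α := fun _ => ZMod 2) L.j 0 a
      have e1 : l L.j = 0 := by simp [l]
      have e2 : L.pr l = a := by
        funext i
        simp [l, Lam.pr]
      refine (top_prod_of_lam (l := l) (fun h => ha0 (Subtype.ext ?_)) _ _ fun j _ => ?_).symm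
      · rw [h] at e2
        exact e2.symm
      · cases j with
        | none => rw [Option.elim, dot_ee, e1]
        | some j =>
          rw [Option.elim, L.dot_split, e1, zero_mul, zero_add, L.pr_io, e2]
          exact (hφ a).mp ha j

lemma Lam.gauss_core {J : Type} [Fintype J] (D : J → V (n + 4)) : ∃ N : ℤ,
    ∑ x : XX (n + 4), ∏ j, uu (D j) x = 4 ^ (n + 4) * N ∧
      (N : F) = top (L.s F * ∏ j, (1 + ss F (L.io (D j)))) := by
  classical
  choose N hN hN' using fun t : Finset J => L.count (F := F) (fun j : t => D j)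
  refine ⟨∑ t ∈ (univ : Finset J).powerset, N t * ∏ _j ∈ univ \ t, (-1), ?_, ?_⟩
  · simp only [uu, sub_eq_add_neg, prod_add]
    rw [sum_comm, mul_sum]
    refine sum_congr rfl fun t _ => ?_
    rw [← sum_mul, ← mul_assoc]
    congr 1
    have h1 := hN t
    have h2 : ∀ a, ∏ j : t, dz (dot a (D j)) = ∏ j ∈ t, dz (dot a (D j)) := fun a =>
      prod_coe_sort t fun j => dz (dot a (D j))
    simp only [Fintype.card_coe, h2] at h1
    simp only [prod_mul_distrib, prod_const, Fintype.sum_prod_type, sum_const, card_univ,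
      nsmul_eq_mul, ← mul_sum, ← sum_mul]
    rw [h1, show (4 : ℤ) = 2 * 2 from rfl, mul_pow]
    simp [mul_assoc]
  · rw [prod_one_add, mul_sum, map_sum]
    push_cast
    refine sum_congr rfl fun t _ => ?_
    rw [hN' t, prod_coe_sort t fun j => ss F (L.io (D j)), CharTwo.neg_eq, prod_const_one, mul_one]

variable {L} (Θ : Theta F L)

lemma Theta.zero_deg {f : FF (n + 4)} (hf : deg f = 0) :
    ∃ (J : Type) (_ : Fintype J) (D : J → V (n + 4)),
      (∀ x, iq (ev x f) = ((∏ j, uu (D j) x : ℤ) : HH)) ∧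
      ∀ v, (Θ.θ f).μ v = ∏ j, (1 + ss F (L.io (D j))) := by
  refine sq_induction (P := fun f => ∃ (J : Type) (_ : Fintype J) (D : J → V (n + 4)),
      (∀ x, iq (ev x f) = ((∏ j, uu (D j) x : ℤ) : HH)) ∧
      (Θ.θ f).w = 0 ∧ ∀ v, (Θ.θ f).μ v = ∏ j, (1 + ss F (L.io (D j)))) ?_ ?_ ?_ hf |>.imp
      fun J h => h.imp fun _ h => h.imp fun D h => ⟨h.1, h.2.2⟩
  · exact ⟨Empty, inferInstance, Empty.elim, fun x => by simp [iq_one], by rw [map_one]; rfl,
      fun v => by simp [WW.one_μ]⟩
  · intro g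
    exact ⟨Unit, inferInstance, fun _ => deg g, fun x => by simp [-map_mul, iq_ev_sq],
      by rw [Θ.hsq]; rfl, fun v => by simp [-map_mul, Θ.hsq, cst]⟩
  · rintro f g ⟨J, _, D, h1, h2, h3⟩ ⟨J', _, D', h1', h2', h3'⟩
    refine ⟨J ⊕ J', inferInstance, Sum.elim D D', fun x => ?_, ?_, fun v => ?_⟩
    · rw [map_mul, iq_mul, h1, h1', Fintype.prod_sum_type, Int.cast_mul]
      rfl
    · rw [map_mul, WW.mul_w, h2, h2', add_zero]
    · rw [map_mul, WW.mul_μ, h3, h3', Fintype.prod_sum_type]
      rfl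

include Θ in
lemma Theta.gauss_imI (c : V (n + 4)) (f : FF (n + 4)) :
    ∑ x : XX (n + 4), (iq (ev x f)).imI * (uu c x : ℤ) = 0 := by
  by_cases hf : deg f = 0
  · obtain ⟨J, _, D, h1, -⟩ := Θ.zero_deg hf
    simp only [h1, QuaternionAlgebra.imI_intCast, zero_mul, sum_const_zero]
  · exact sum_flip (fun a => a.imI) (fun _ => rfl) c hf

lemma Theta.gauss_re (c : V (n + 4)) (f : FF (n + 4)) (v : V (n + 5)) : ∃ N : ℤ,
    ∑ x : XX (n + 4), (iq (ev x f)).re * (uu c x : ℤ) = 4 ^ (n + 4) * (N : OO) ∧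
      (N : F) = if deg f = 0 then top (L.s F * (1 + ss F (L.io c)) * (Θ.θ f).μ v) else 0 := by
  by_cases hf : deg f = 0
  · obtain ⟨J, _, D, h1, h2⟩ := Θ.zero_deg hf
    obtain ⟨N, h3, h4⟩ := L.gauss_core (F := F) fun j : Option J => Option.elim j c D
    refine ⟨N, ?_, ?_⟩
    · simp only [h1, QuaternionAlgebra.re_intCast]
      simp only [Fintype.prod_option, Option.elim] at h3
      have h5 := congrArg (Int.cast : ℤ → OO) h3
      push_cast at h5 ⊢
      rw [← h5]
      exact sum_congr rfl fun x _ => mul_comm _ _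
    · rw [if_pos hf, h4, h2, Fintype.prod_option, mul_assoc]
      rfl
  · exact ⟨0, by simpa using sum_flip (fun a => a.re) (fun _ => rfl) c hf, by simp [hf]⟩

end Count

end Pool.Agent.Lib.MP_631532_al
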