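import Pool.Agent.Lib.MP_631532_al.Alg

/-!
Quadratic forms on the algebra `F[s_1, …, s_m] / (s_i ^ 2)`.
-/

noncomputable section

open Finset

namespace Pool.Agent.Lib.MP_631532_al

section Aff

variable {F : Type} [CommRing F] [CharP F 2] {m : ℕ}

/-- Affine elements. -/
def Aff (y : Al F m) : Prop := ∃ (c : ZMod 2) (v : V m), y = cA F m c + ss F v

lemma Aff.add {y y' : Al F m} (h : Aff y) (h' : Aff y') : Aff (y + y') := by
  obtain ⟨c, v, rfl⟩ := h
  obtain ⟨c', v', rfl⟩ := h'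
  exact ⟨c + c', v + v', by rw [map_add, ss_add]; ring⟩

lemma aff_ss (v : V m) : Aff (ss F v) := ⟨0, v, by simp⟩

lemma aff_cA (c : ZMod 2) : Aff (cA F m c) := ⟨c, 0, by simp [ss_zero]⟩

lemma aff_one : Aff (1 : Al F m) := by simpa using aff_cA (F := F) (m := m) 1

lemma aff_zero : Aff (0 : Al F m) := by simpa using aff_cA (F := F) (m := m) 0

lemma Aff.cA_mul {y : Al F m} (h : Aff y) (c : ZMod 2) : Aff (cA F m c * y) := by
  rcases zmod2_cases c with rfl | rfl
  · simpa using aff_zero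
  · simpa using h

lemma Aff.DD_eq {y : Al F m} (h : Aff y) (l : V m) : ∃ c, DD l y = cA F m c := by
  obtain ⟨c, v, rfl⟩ := h
  exact ⟨dot l v, by rw [map_add, DD_cA, DD_ss, zero_add]⟩

lemma Aff.DD_aff {y : Al F m} (h : Aff y) (l : V m) : Aff (DD l y) := by
  obtain ⟨c, hc⟩ := h.DD_eq l
  rw [hc]; exact aff_cA c

lemma Aff.DD_DD {y : Al F m} (h : Aff y) (l l' : V m) : DD l' (DD l y) = 0 := by
  obtain ⟨c, hc⟩ := h.DD_eq l
  rw [hc, DD_cA]

lemma top_aff4 (hm : 4 < m) {y1 y2 y3 y4 : Al F m} (h1 : Aff y1) (h2 : Aff y2) (h3 : Aff y3)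
    (h4 : Aff y4) (a : Al F m) : top (y1 * y2 * y3 * y4 * (a * a)) = 0 := by
  obtain ⟨c1, v1, rfl⟩ := h1
  obtain ⟨c2, v2, rfl⟩ := h2
  obtain ⟨c3, v3, rfl⟩ := h3
  obtain ⟨c4, v4, rfl⟩ := h4
  obtain ⟨l, hl, h⟩ := exists_lam ![v1, v2, v3, v4] (by simpa using hm)
  have e1 : dot l v1 = 0 := h 0
  have e2 : dot l v2 = 0 := h 1
  have e3 : dot l v3 = 0 := h 2
  have e4 : dot l v4 = 0 := h 3
  refine top_of_DD hl ?_
  rw [DD_mul, DD_mul_self]
  simp [DD_mul, DD_cA, DD_ss, e1, e2, e3, e4]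

/-- Involutions with affine logarithmic derivatives. -/
def IsU (u : Al F m) : Prop := u * u = 1 ∧ ∀ l, Aff (u * DD l u)

lemma isU_one : IsU (1 : Al F m) := ⟨one_mul _, fun l => by rw [DD_one, mul_zero]; exact aff_zero⟩

lemma dlog_mul {u u' : Al F m} (h : u * u = 1) (h' : u' * u' = 1) (l : V m) :
    u * u' * DD l (u * u') = u * DD l u + u' * DD l u' := by
  rw [DD_mul]
  linear_combination (u * DD l u) * h' + (u' * DD l u') * h

lemma IsU.mul {u u' : Al F m} (h : IsU u) (h' : IsU u') : IsU (u * u') :=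
  ⟨by linear_combination (u' * u') * h.1 + h'.1, fun l => by
    rw [dlog_mul h.1 h'.1]; exact (h.2 l).add (h'.2 l)⟩

lemma isU_one_add_ss (v : V m) : IsU (1 + ss F v) :=
  ⟨one_add_ss_mul_self v, fun l => by
    rw [map_add, DD_one, zero_add, DD_ss, mul_comm]
    exact (aff_one.add (aff_ss v)).cA_mul _⟩

lemma isU_prod {ι : Type} (J : Finset ι) (f : ι → Al F m) (h : ∀ j ∈ J, IsU (f j)) :
    IsU (∏ j ∈ J, f j) :=
  Finset.prod_induction f IsU (fun _ _ => IsU.mul) isU_one h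

lemma DD_ee_ss {i j : Fin m} (h : i ≠ j) : DD (ee i) (ss F (ee j)) = 0 := by
  rw [DD_ss, dot_ee, ee, Pi.single_eq_of_ne h.symm, map_zero]

lemma top_eq_ee (i : Fin m) (a : Al F m) : top a = top (ss F (ee i) * DD (ee i) a) :=
  top_eq (by rw [dot_ee, ee, Pi.single_eq_same]) a

/-- The group generated by the elements `1 + ss v`. -/
def Zb (F : Type) [CommRing F] [CharP F 2] (m : ℕ) : Submonoid (Al F m) :=
  Submonoid.closure (Set.range fun v => 1 + ss F v)

lemma one_add_ss_mem (v : V m) : 1 + ss F v ∈ Zb F m := Submonoid.subset_closure ⟨v, rfl⟩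

lemma isU_of_mem {u : Al F m} (h : u ∈ Zb F m) : IsU u := by
  induction h using Submonoid.closure_induction with
  | mem x hx => obtain ⟨v, rfl⟩ := hx; exact isU_one_add_ss v
  | one => exact isU_one
  | mul x y _ _ hx hy => exact hx.mul hy

lemma one_add_mul_mem (v w : V m) : 1 + ss F v * ss F w ∈ Zb F m := by
  have h : 1 + ss F v * ss F w = (1 + ss F v) * (1 + ss F w) * (1 + ss F (v + w)) := by
    have h2 := A_two (F := F) (m := m)
    have hv := ss_mul_self (F := F) v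
    have hw := ss_mul_self (F := F) w
    rw [ss_add]
    linear_combination (-1 - ss F w) * hv + (-1 - ss F v) * hw -
      (ss F v + ss F w + ss F v * ss F w) * h2
  rw [h]
  exact mul_mem (mul_mem (one_add_ss_mem _) (one_add_ss_mem _)) (one_add_ss_mem _)

lemma exists_alpha (F : Type) [CommRing F] [CharP F 2] (m : ℕ) : ∃ α : V m → V m → Al F m,
    (∀ v w, α v w ∈ Zb F m) ∧ (∀ v v' w, α (v + v') w = α v w * α v' w) ∧
    (∀ v w w', α v (w + w') = α v w * α v w') ∧ ∀ w, α w w = 1 + ss F w := by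
  have key : ∀ K : Finset (Fin m), ∃ α : V m → V m → Al F m,
      (∀ v w, α v w ∈ Zb F m) ∧ (∀ v v' w, α (v + v') w = α v w * α v' w) ∧
      (∀ v w w', α v (w + w') = α v w * α v w') ∧
      ∀ w, α w w = 1 + ss F (∑ i ∈ K, w i • ee i) := by
    intro K
    induction K using Finset.induction_on with
    | empty => exact ⟨fun _ _ => 1, fun _ _ => one_mem _, by simp, by simp, by simp [ss_zero]⟩
    | insert i K hi ih =>
      obtain ⟨α, h1, h2, h3, h4⟩ := ih
      have hs := ss_mul_self (F := F) (ee i : V m)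
      have h2' := A_two (F := F) (m := m)
      refine ⟨fun v w => α v w * (1 + cA F m (w i) * ss F (ee i) *
        (cA F m (v i) + ss F (∑ j ∈ K, v j • ee j))), fun v w => ?_, fun v v' w => ?_,
        fun v w w' => ?_, fun w => ?_⟩
      · refine mul_mem (h1 v w) ?_
        rcases zmod2_cases (w i) with h | h
        · rw [h]; simp
        · have : 1 + cA F m (w i) * ss F (ee i) * (cA F m (v i) + ss F (∑ j ∈ K, v j • ee j)) =
              (1 + ss F (v i • ee i)) * (1 + ss F (ee i) * ss F (∑ j ∈ K, v j • ee j)) := by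
            rw [h, map_one, ss_smul]
            linear_combination (-cA F m (v i) * ss F (∑ j ∈ K, v j • ee j)) * hs
          rw [this]
          exact mul_mem (one_add_ss_mem _) (one_add_mul_mem _ _)
      · simp only [h2, Pi.add_apply, map_add, add_smul, sum_add_distrib, ss_add]
        linear_combination (-α v w * α v' w * cA F m (w i) ^ 2 *
          (cA F m (v i) + ss F (∑ j ∈ K, v j • ee j)) *
          (cA F m (v' i) + ss F (∑ j ∈ K, v' j • ee j))) * hs
      · simp only [h3, Pi.add_apply, map_add]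
        linear_combination (-α v w * α v w' * cA F m (w i) * cA F m (w' i) *
          (cA F m (v i) + ss F (∑ j ∈ K, v j • ee j)) ^ 2) * hs
      · simp only [h4, sum_insert hi, ss_add, ss_smul]
        have hx := one_add_ss_mul_self (F := F) (∑ j ∈ K, w j • ee j)
        rcases zmod2_cases (w i) with h | h
        · rw [h]; simp
        · rw [h, map_one]
          linear_combination (ss F (ee i)) * hx
  obtain ⟨α, h1, h2, h3, h4⟩ := key univ
  exact ⟨α, h1, h2, h3, fun w => by rw [h4, ← V_eq_sum]⟩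

end Aff

section Forms

variable {F : Type} [CommRing F] [CharP F 2] {n : ℕ}

/-- A quadratic form with polar form `∫ s₀ y a b`. -/
def ph (y a : Al F (n + 5)) : F :=
  top (ss F (ee 0) * ss F (ee 1) * y * a * DD (ee 1) a) +
    top (ss F (ee 0) * ss F (ee 1) * ss F (ee 2) * DD (ee 1) y * a * DD (ee 2) a)

lemma ne10 : (1 : Fin (n + 5)) ≠ 0 := by simp
lemma ne20 : (2 : Fin (n + 5)) ≠ 0 := fun h => by
  have h1 := congrArg Fin.val h
  rw [Fin.val_two, Fin.val_zero] at h1
  omega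
lemma ne21 : (2 : Fin (n + 5)) ≠ 1 := fun h => by
  have h1 := congrArg Fin.val h
  rw [Fin.val_two, Fin.val_one] at h1
  omega

lemma ph_add {y : Al F (n + 5)} (hy : Aff y) (a b : Al F (n + 5)) :
    ph y (a + b) = ph y a + ph y b + top (ss F (ee 0) * y * a * b) := by
  have h1 : top (ss F (ee 0) * y * a * b) =
      top (ss F (ee 0) * ss F (ee 1) * DD (ee 1) y * a * b) +
      top (ss F (ee 0) * ss F (ee 1) * y * (DD (ee 1) a * b + a * DD (ee 1) b)) := by
    rw [top_eq_ee 1, ← map_add]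
    refine congrArg top ?_
    simp only [DD_mul, DD_ee_ss ne10]
    ring
  have h2 : top (ss F (ee 0) * ss F (ee 1) * DD (ee 1) y * a * b) =
      top (ss F (ee 0) * ss F (ee 1) * ss F (ee 2) * DD (ee 1) y *
        (DD (ee 2) a * b + a * DD (ee 2) b)) := by
    rw [top_eq_ee 2]
    refine congrArg top ?_
    simp only [DD_mul, DD_ee_ss ne20, DD_ee_ss ne21, hy.DD_DD]
    ring
  rw [h1, h2, ph, ph, ph]
  simp only [← map_add top]
  refine congrArg top ?_
  simp only [map_add]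
  ring

lemma ph_add_left (y y' a : Al F (n + 5)) : ph (y + y') a = ph y a + ph y' a := by
  rw [ph, ph, ph]
  simp only [← map_add top]
  refine congrArg top ?_
  simp only [map_add]
  ring

lemma ph_zero_left (a : Al F (n + 5)) : ph 0 a = 0 := by simp [ph]

lemma ph_zero (y : Al F (n + 5)) : ph y 0 = 0 := by simp [ph]

lemma ph_sum {ι : Type} (J : Finset ι) (y : ι → Al F (n + 5)) (a : Al F (n + 5)) :
    ph (∑ j ∈ J, y j) a = ∑ j ∈ J, ph (y j) a := by
  classical
  induction J using Finset.induction_on with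
  | empty => simp [ph_zero_left]
  | insert j J hj ih => rw [sum_insert hj, sum_insert hj, ph_add_left, ih]

lemma ph_cA (c : ZMod 2) (y a : Al F (n + 5)) : ph (cA F _ c * y) a = cF F c * ph y a := by
  rcases zmod2_cases c with rfl | rfl
  · simp [ph_zero_left]
  · simp

lemma ph_U {y u : Al F (n + 5)} (hy : Aff y) (hu : IsU u) (a : Al F (n + 5)) :
    ph y (u * a) = ph y a := by
  have h1 := top_aff4 (by omega) (aff_ss (ee 0)) (aff_ss (ee 1)) hy (hu.2 (ee 1)) a
  obtain ⟨c, hc⟩ := hy.DD_eq (ee 1)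
  have h2 := top_aff4 (by omega) (aff_ss (ee 0)) (aff_ss (ee 1)) (aff_ss (ee 2))
    ((hu.2 (ee 2)).cA_mul c) a
  have h3 : ph y (u * a) = ph y a +
      top (ss F (ee 0) * ss F (ee 1) * y * (u * DD (ee 1) u) * (a * a)) +
      top (ss F (ee 0) * ss F (ee 1) * ss F (ee 2) * (cA F _ c * (u * DD (ee 2) u)) * (a * a)) := by
    rw [ph, ph, hc]
    simp only [← map_add top]
    refine congrArg top ?_
    simp only [DD_mul]
    linear_combination (ss F (ee 0) * ss F (ee 1) * y * a * DD (ee 1) a +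
      ss F (ee 0) * ss F (ee 1) * ss F (ee 2) * cA F _ c * a * DD (ee 2) a) * hu.1
  rw [h3, h1, h2, add_zero, add_zero]

lemma ph_smul (y : Al F (n + 5)) (c : F) (a : Al F (n + 5)) : ph y (c • a) = c * c * ph y a := by
  simp only [ph, map_smul, mul_smul_comm, smul_mul_assoc, smul_eq_mul]
  ring

/-- The correction term. -/
def Phi (u a : Al F (n + 5)) : F := ph (u * DD (ee 0) u) a

/-- The bilinear cocycle. -/
def c0 (a b : Al F (n + 5)) : F := top (ss F (ee 0) * a * DD (ee 0) b)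

lemma Phi_one (a : Al F (n + 5)) : Phi 1 a = 0 := by rw [Phi, DD_one, mul_zero, ph_zero_left]

lemma Phi_zero (u : Al F (n + 5)) : Phi u 0 = 0 := ph_zero _

lemma Phi_mul {u u' : Al F (n + 5)} (hu : IsU u) (hu' : IsU u') (a : Al F (n + 5)) :
    Phi (u * u') a = Phi u a + Phi u' a := by
  rw [Phi, dlog_mul hu.1 hu'.1, ph_add_left, Phi, Phi]

lemma Phi_U {u u' : Al F (n + 5)} (hu : IsU u) (hu' : IsU u') (a : Al F (n + 5)) :
    Phi u (u' * a) = Phi u a := ph_U (hu.2 _) hu' a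

lemma Phi_smul (u : Al F (n + 5)) (c : F) (a : Al F (n + 5)) :
    Phi u (c • a) = c * c * Phi u a := ph_smul _ _ _

lemma Phi_add {u : Al F (n + 5)} (hu : IsU u) (a b : Al F (n + 5)) :
    Phi u (a + b) = Phi u a + Phi u b + top (ss F (ee 0) * (u * DD (ee 0) u) * a * b) :=
  ph_add (hu.2 _) a b

lemma c0_add_left (a a' b : Al F (n + 5)) : c0 (a + a') b = c0 a b + c0 a' b := by
  simp only [c0, mul_add, add_mul, map_add]

lemma c0_add_right (a b b' : Al F (n + 5)) : c0 a (b + b') = c0 a b + c0 a b' := by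
  simp only [c0, mul_add, map_add]

lemma c0_zero_left (b : Al F (n + 5)) : c0 0 b = 0 := by simp [c0]

lemma c0_zero_right (a : Al F (n + 5)) : c0 a 0 = 0 := by simp [c0]

lemma c0_smul (c : F) (a b : Al F (n + 5)) : c0 (c • a) (c • b) = c * c * c0 a b := by
  simp only [c0, map_smul, mul_smul_comm, smul_mul_assoc, smul_eq_mul]
  ring

lemma c0_U {u : Al F (n + 5)} (hu : IsU u) (a b : Al F (n + 5)) :
    c0 (u * a) (u * b) = c0 a b + top (ss F (ee 0) * (u * DD (ee 0) u) * a * b) := by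
  rw [c0, c0, ← map_add, DD_mul]
  refine congrArg top ?_
  linear_combination (ss F (ee 0) * a * DD (ee 0) b) * hu.1

lemma c0_symm (a b : Al F (n + 5)) : c0 a b + c0 b a = top (a * b) := by
  rw [c0, c0, ← map_add, top_eq_ee 0 (a * b), DD_mul]
  refine congrArg top ?_
  ring

/-- A hyperplane containing the first three basis vectors, with a transversal basis vector. -/
structure Lam (n : ℕ) where
  l : V (n + 5)
  j : Fin (n + 5)
  hj : l j = 1
  h0 : l 0 = 0
  h1 : l 1 = 0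
  h2 : l 2 = 0

variable (L : Lam n)

/-- The transversal generator. -/
def Lam.s (F : Type) [CommRing F] [CharP F 2] {n : ℕ} (L : Lam n) : Al F (n + 5) := ss F (ee L.j)

lemma Lam.l_ne : L.l ≠ 0 := fun h => by
  have := L.hj
  rw [h] at this
  exact absurd this (by simp)

lemma Lam.D_s : DD L.l (L.s F) = 1 := by rw [Lam.s, DD_ss, dot_ee, L.hj, map_one]

lemma Lam.D_s0 : DD L.l (ss F (ee 0)) = 0 := by rw [DD_ss, dot_ee, L.h0, map_zero]
lemma Lam.D_s1 : DD L.l (ss F (ee 1)) = 0 := by rw [DD_ss, dot_ee, L.h1, map_zero]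
lemma Lam.D_s2 : DD L.l (ss F (ee 2)) = 0 := by rw [DD_ss, dot_ee, L.h2, map_zero]

lemma Lam.ne_j {i : Fin (n + 5)} (h : L.l i = 0) : i ≠ L.j := fun h' => by
  have := L.hj
  rw [← h', h] at this
  exact absurd this (by simp)

lemma Lam.D0_s : DD (ee 0) (L.s F) = 0 := DD_ee_ss (L.ne_j L.h0)
lemma Lam.D1_s : DD (ee 1) (L.s F) = 0 := DD_ee_ss (L.ne_j L.h1)
lemma Lam.D2_s : DD (ee 2) (L.s F) = 0 := DD_ee_ss (L.ne_j L.h2)

lemma Lam.s_sq : L.s F * L.s F = 0 := ss_mul_self _

lemma Lam.aff_s : Aff (L.s F) := aff_ss _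

lemma Lam.top_ker {a : Al F (n + 5)} (h : DD L.l a = 0) : top a = 0 := top_of_DD L.l_ne h

lemma Lam.D_D {a : Al F (n + 5)} (h : DD L.l a = 0) (l : V (n + 5)) : DD L.l (DD l a) = 0 := by
  rw [DD_comm, h, map_zero]

lemma Lam.ker_mul {a b : Al F (n + 5)} (h : DD L.l a = 0) (h' : DD L.l b = 0) :
    DD L.l (a * b) = 0 := by
  rw [DD_mul, h, h', zero_mul, mul_zero, add_zero]

lemma Lam.Phi_ker {u a : Al F (n + 5)} (hu : DD L.l u = 0) (ha : DD L.l a = 0) : Phi u a = 0 := by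
  have hy : DD L.l (u * DD (ee 0) u) = 0 := L.ker_mul hu (L.D_D hu _)
  rw [Phi, ph, L.top_ker, L.top_ker, add_zero]
  · exact L.ker_mul (L.ker_mul (L.ker_mul (L.ker_mul (L.ker_mul L.D_s0 L.D_s1) L.D_s2)
      (L.D_D hy _)) ha) (L.D_D ha _)
  · exact L.ker_mul (L.ker_mul (L.ker_mul (L.ker_mul L.D_s0 L.D_s1) hy) ha) (L.D_D ha _)

lemma Lam.Phi_s (u b : Al F (n + 5)) : Phi u (L.s F * b) = 0 := by
  rw [Phi, ph, ← map_add]
  refine Eq.trans (congrArg top ?_) (map_zero top)
  simp only [DD_mul (ee 1) (L.s F), DD_mul (ee 2) (L.s F), L.D1_s, L.D2_s]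
  linear_combination (ss F (ee 0) * ss F (ee 1) * (u * DD (ee 0) u) * b * DD (ee 1) b +
    ss F (ee 0) * ss F (ee 1) * ss F (ee 2) * DD (ee 1) (u * DD (ee 0) u) * b * DD (ee 2) b) *
      L.s_sq (F := F)

/-- The mixed term. -/
def Lam.psi (α β : Al F (n + 5)) : F := top (ss F (ee 0) * L.s F * DD (ee 0) α * β)

/-- A quadratic form with polar form `∫ s y a b`. -/
def Lam.phc (y ρ : Al F (n + 5)) : F :=
  Phi (1 + L.s F * y) ρ + top (ss F (ee 0) * L.s F * y * ρ * DD (ee 0) ρ)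

lemma Lam.dlog_s (y : Al F (n + 5)) :
    (1 + L.s F * y) * DD (ee 0) (1 + L.s F * y) = L.s F * DD (ee 0) y := by
  rw [map_add, DD_one, DD_mul, L.D0_s]
  linear_combination (y * DD (ee 0) y) * L.s_sq (F := F)

lemma Lam.one_add_s_mul (w : V (n + 5)) :
    1 + L.s F * (1 + ss F w) = (1 + ss F w) * (1 + ss F (w + ee L.j)) := by
  rw [ss_add]
  have := one_add_ss_mul_self (F := F) w
  rw [Lam.s]
  linear_combination -this

lemma Lam.isU_s (w : V (n + 5)) : IsU (1 + L.s F * (1 + ss F w)) := by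
  rw [L.one_add_s_mul]
  exact (isU_one_add_ss _).mul (isU_one_add_ss _)

lemma Lam.psi_add {α β α' β' : Al F (n + 5)} (h : DD L.l α = 0) (h' : DD L.l α' = 0) :
    L.psi (α + α') (β + β') = L.psi α β + L.psi α' β' + c0 (α + L.s F * β) (α' + L.s F * β') +
      top (L.s F * α * β') := by
  have h1 : top (ss F (ee 0) * α * DD (ee 0) α') = 0 :=
    L.top_ker (L.ker_mul (L.ker_mul L.D_s0 h) (L.D_D h' _))
  have h2 := A_two (F := F) (m := n + 5)
  rw [top_eq_ee 0 (L.s F * α * β'), ← add_zero (L.psi (α + α') (β + β')), ← h1, Lam.psi, Lam.psi,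
    Lam.psi, c0]
  simp only [← map_add top]
  refine congrArg top ?_
  simp only [map_add, DD_mul, L.D0_s]
  linear_combination (-ss F (ee 0) * β * DD (ee 0) β') * L.s_sq (F := F) -
    (ss F (ee 0) * L.s F * α * DD (ee 0) β') * h2

lemma Lam.phc_add (w : V (n + 5)) (ρ ρ' : Al F (n + 5)) :
    L.phc (1 + ss F w) (ρ + ρ') = L.phc (1 + ss F w) ρ + L.phc (1 + ss F w) ρ' +
      top (L.s F * (1 + ss F w) * ρ * ρ') := by
  rw [Lam.phc, Lam.phc, Lam.phc, Phi_add (L.isU_s w), L.dlog_s,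
    top_eq_ee 0 (L.s F * (1 + ss F w) * ρ * ρ')]
  have : top (ss F (ee 0) * (L.s F * DD (ee 0) (1 + ss F w)) * ρ * ρ') +
      top (ss F (ee 0) * L.s F * (1 + ss F w) * (ρ + ρ') * DD (ee 0) (ρ + ρ')) =
      top (ss F (ee 0) * L.s F * (1 + ss F w) * ρ * DD (ee 0) ρ) +
      top (ss F (ee 0) * L.s F * (1 + ss F w) * ρ' * DD (ee 0) ρ') +
      top (ss F (ee 0) * DD (ee 0) (L.s F * (1 + ss F w) * ρ * ρ')) := by
    simp only [← map_add top]
    refine congrArg top ?_
    generalize 1 + ss F w = y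
    simp only [map_add, DD_mul, L.D0_s]
    ring
  linear_combination this

lemma Lam.phc_U (w : V (n + 5)) {u : Al F (n + 5)} (hu : IsU u) (ρ : Al F (n + 5)) :
    L.phc (1 + ss F w) (u * ρ) = L.phc (1 + ss F w) ρ := by
  have h1 := top_aff4 (by omega) (aff_ss (ee 0)) L.aff_s (aff_one.add (aff_ss w)) (hu.2 (ee 0)) ρ
  rw [Lam.phc, Lam.phc, Phi_U (L.isU_s w) hu,
    ← add_zero (top (ss F (ee 0) * L.s F * (1 + ss F w) * ρ * DD (ee 0) ρ)), ← h1, ← map_add]
  refine congrArg (HAdd.hAdd _) (congrArg top ?_)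
  rw [DD_mul]
  linear_combination (ss F (ee 0) * L.s F * (1 + ss F w) * ρ * DD (ee 0) ρ) * hu.1

lemma Lam.psi_U {u α : Al F (n + 5)} (hu : IsU u) (hu' : DD L.l u = 0) (hα : DD L.l α = 0)
    (β : Al F (n + 5)) : L.psi (u * α) (u * β) = L.psi α β + Phi u (α + L.s F * β) := by
  rw [Phi_add hu, L.Phi_ker hu' hα, L.Phi_s, add_zero, zero_add, Lam.psi, Lam.psi, ← map_add]
  refine congrArg top ?_
  rw [DD_mul]
  linear_combination (ss F (ee 0) * L.s F * DD (ee 0) α * β) * hu.1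

lemma Lam.psi_smul (c : F) (α β : Al F (n + 5)) : L.psi (c • α) (c • β) = c * c * L.psi α β := by
  simp only [Lam.psi, map_smul, mul_smul_comm, smul_mul_assoc, smul_eq_mul]
  ring

lemma Lam.phc_smul (c : F) (y ρ : Al F (n + 5)) : L.phc y (c • ρ) = c * c * L.phc y ρ := by
  simp only [Lam.phc, Phi_smul, map_smul, mul_smul_comm, smul_mul_assoc, smul_eq_mul]
  ring

lemma Lam.phc_zero (y : Al F (n + 5)) : L.phc y 0 = 0 := by simp [Lam.phc, Phi_zero]

lemma Lam.psi_zero (β : Al F (n + 5)) : L.psi 0 β = 0 := by simp [Lam.psi]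

lemma Lam.rot (w : V (n + 5)) (k : ZMod 2) (α β ρ : Al F (n + 5)) :
    cF F k * top (L.s F * (1 + ss F w) * (α + ρ) * ρ) +
      L.psi α ((1 + ss F w) * (cA F _ k * α)) + L.phc (1 + ss F w) (ρ + cA F _ k * α) =
    L.phc (1 + ss F w) ρ + cF F k * Phi (1 + L.s F * (1 + ss F w)) (α + L.s F * β) := by
  rcases zmod2_cases k with rfl | rfl
  · simp [Lam.psi]
  · have h1 := top_aff4 (by omega) L.aff_s (aff_one.add (aff_ss w)) aff_one aff_one ρ
    have h2 := A_two (F := F) (m := n + 5)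
    rw [map_one, map_one, one_mul, one_mul, one_mul, L.phc_add, Phi_add (L.isU_s w), L.Phi_s,
      L.dlog_s, Lam.psi]
    have h3 : L.phc (1 + ss F w) α = Phi (1 + L.s F * (1 + ss F w)) α +
      top (ss F (ee 0) * L.s F * (1 + ss F w) * α * DD (ee 0) α) := rfl
    have : top (L.s F * (1 + ss F w) * (α + ρ) * ρ) +
        top (ss F (ee 0) * L.s F * DD (ee 0) α * ((1 + ss F w) * α)) +
        top (ss F (ee 0) * L.s F * (1 + ss F w) * α * DD (ee 0) α) +
        top (L.s F * (1 + ss F w) * ρ * α) =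
        top (ss F (ee 0) * (L.s F * DD (ee 0) (1 + ss F w)) * α * (L.s F * β)) +
        top (L.s F * (1 + ss F w) * 1 * 1 * (ρ * ρ)) := by
      simp only [← map_add top]
      refine congrArg top ?_
      generalize 1 + ss F w = y
      linear_combination (L.s F * y * ρ * α + ss F (ee 0) * L.s F * y * α * DD (ee 0) α) * h2 -
        (ss F (ee 0) * DD (ee 0) y * α * β) * L.s_sq (F := F)
    linear_combination this + h1 + h3

lemma Lam.decomp {P : Al F (n + 5) → Prop} (h1 : P 1) (hadd : ∀ a b, P a → P b → P (a + b))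
    (hs : ∀ (c : F) a, P a → P (c • a)) (hm : ∀ w a, dot L.l w = 0 → P a → P (ss F w * a))
    (a : Al F (n + 5)) : ∃ α β, P α ∧ P β ∧ a = α + L.s F * β := by
  have h0 : P 0 := by simpa using hs 0 1 h1
  induction a using A_induction with
  | h0 => exact ⟨0, 0, h0, h0, by simp⟩
  | hadd a b ha hb =>
    obtain ⟨α, β, hα, hβ, rfl⟩ := ha
    obtain ⟨α', β', hα', hβ', rfl⟩ := hb
    exact ⟨α + α', β + β', hadd _ _ hα hα', hadd _ _ hβ hβ', by ring⟩
  | hs c v =>
    have : ∃ α β, P α ∧ P β ∧ gg F v = α + L.s F * β := by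
      refine gg_mem (P := fun a => ∃ α β, P α ∧ P β ∧ a = α + L.s F * β)
        ⟨1, 0, h1, h0, by simp⟩ ?_ v
      rintro _ i ⟨α, β, hα, hβ, rfl⟩
      have hw : dot L.l (ee i + L.l i • ee L.j) = 0 := by
        rw [dot_add, dot_smul, dot_ee, dot_ee, L.hj, mul_one, zmod2_add_self]
      have hc : P (cA F _ (L.l i) * α) := by
        rcases zmod2_cases (L.l i) with h | h <;> rw [h]
        · simpa using h0
        · simpa using hα
      refine ⟨α + ss F (ee i + L.l i • ee L.j) * α,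
        β + ss F (ee i + L.l i • ee L.j) * β + cA F _ (L.l i) * α,
        hadd _ _ hα (hm _ _ hw hα), hadd _ _ (hadd _ _ hβ (hm _ _ hw hβ)) hc, ?_⟩
      rw [ss_add, ss_smul]
      have h2 := A_two (F := F) (m := n + 5)
      have h3 := L.s_sq (F := F)
      rw [Lam.s] at h3 ⊢
      linear_combination (-cA F _ (L.l i) * β) * h3 - (cA F _ (L.l i) * ss F (ee L.j) * α) * h2
    obtain ⟨α, β, hα, hβ, h⟩ := this
    exact ⟨c • α, c • β, hs _ _ hα, hs _ _ hβ, by rw [h, smul_add, mul_smul_comm]⟩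

lemma Lam.decomp_ker (a : Al F (n + 5)) :
    ∃ α β, DD L.l α = 0 ∧ DD L.l β = 0 ∧ a = α + L.s F * β :=
  L.decomp (P := fun a => DD L.l a = 0) (DD_one _)
    (fun a b ha hb => by rw [map_add, ha, hb, add_zero])
    (fun c a ha => by rw [map_smul, ha, smul_zero])
    (fun w a hw ha => L.ker_mul (by rw [DD_ss, hw, map_zero]) ha) a

lemma Lam.ker_induction {P : Al F (n + 5) → Prop} (h1 : P 1) (hadd : ∀ a b, P a → P b → P (a + b))
    (hs : ∀ (c : F) a, P a → P (c • a)) (hm : ∀ w a, dot L.l w = 0 → P a → P (ss F w * a))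
    {a : Al F (n + 5)} (ha : DD L.l a = 0) : P a := by
  obtain ⟨α, β, hα, hβ, rfl⟩ := L.decomp (P := fun a => P a ∧ DD L.l a = 0) ⟨h1, DD_one _⟩
    (fun a b ha hb => ⟨hadd _ _ ha.1 hb.1, by rw [map_add, ha.2, hb.2, add_zero]⟩)
    (fun c a ha => ⟨hs _ _ ha.1, by rw [map_smul, ha.2, smul_zero]⟩)
    (fun w a hw ha => ⟨hm _ _ hw ha.1, L.ker_mul (by rw [DD_ss, hw, map_zero]) ha.2⟩) a
  rw [map_add, DD_mul, hα.2, hβ.2, L.D_s, zero_add, one_mul, mul_zero, add_zero] at ha
  rw [ha, mul_zero, add_zero]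
  exact hα.1

lemma Lam.nondeg (w : V (n + 5)) (hw : dot L.l w = 0) {ρ : Al F (n + 5)} (hρ : DD L.l ρ = 0)
    (h : ∀ γ, DD L.l γ = 0 → top (L.s F * (1 + ss F w) * ρ * γ) = 0) : ρ = 0 := by
  have h1 : L.s F * ((1 + ss F w) * ρ) = 0 := by
    refine top_nondeg fun b => ?_
    obtain ⟨α, β, hα, -, rfl⟩ := L.decomp_ker b
    rw [← h α hα]
    refine congrArg top ?_
    linear_combination ((1 + ss F w) * ρ * β) * L.s_sq (F := F)
  have h2 := congrArg (DD L.l) h1
  have h3 : DD L.l ((1 + ss F w) * ρ) = 0 :=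
    L.ker_mul (by rw [map_add, DD_one, DD_ss, hw, map_zero, add_zero]) hρ
  rw [DD_mul, L.D_s, h3, map_zero, one_mul, mul_zero, add_zero] at h2
  rw [← one_mul ρ, ← one_add_ss_mul_self w, mul_assoc, h2, mul_zero]

end Forms

end Pool.Agent.Lib.MP_631532_al
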