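import Pool.Agent.Lib.MP_631532_al.Rel

/-!
The normalised index two subgroups of the test group are sections of powers of `G`.
-/

noncomputable section

open Finset

namespace Pool.Agent.Lib.MP_631532_al

variable {F : Type} [CommRing F] [CharP F 2] {n : ℕ}

section Qf

variable (L : Lam n)

/-- The coefficient of the transversal generator. -/
def Lam.bet (ρ : V (n + 4) → Al F (n + 5)) : Al F (n + 5) := ∑ c, (1 + ss F (L.io c)) * ρ c

/-- The local quadratic correction. -/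
def Lam.Qf (α : Al F (n + 5)) (ρ : V (n + 4) → Al F (n + 5)) : F :=
  L.psi α (L.bet ρ) + ∑ c, L.phc (1 + ss F (L.io c)) (ρ c)

lemma Lam.bet_add (ρ ρ' : V (n + 4) → Al F (n + 5)) :
    L.bet (fun c => ρ c + ρ' c) = L.bet ρ + L.bet ρ' := by
  simp only [Lam.bet, ← sum_add_distrib]
  exact sum_congr rfl fun c _ => mul_add _ _ _

lemma Lam.bet_act (χ : F) (u : Al F (n + 5)) (ρ : V (n + 4) → Al F (n + 5)) :
    L.bet (fun c => χ • (u * ρ c)) = χ • (u * L.bet ρ) := by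
  simp only [Lam.bet, mul_sum, smul_sum, mul_smul_comm, mul_left_comm]

lemma Lam.bet_rot (κ : V (n + 4) → C4) (α : Al F (n + 5)) (ρ : V (n + 4) → Al F (n + 5)) :
    L.bet (fun c => ρ c + cA F _ (kb (κ c)) * α) = L.bet ρ + L.YY F κ * α := by
  rw [L.bet_add]
  simp only [Lam.bet, Lam.YY, sum_mul, mul_assoc]

lemma Lam.Qf_add {α α' : Al F (n + 5)} (h : DD L.l α = 0) (h' : DD L.l α' = 0)
    (ρ ρ' : V (n + 4) → Al F (n + 5)) :
    L.Qf (α + α') (fun c => ρ c + ρ' c) +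
      ∑ c, top (L.s F * (1 + ss F (L.io c)) * (α + ρ c) * ρ' c) =
    L.Qf α ρ + L.Qf α' ρ' + c0 (α + L.s F * L.bet ρ) (α' + L.s F * L.bet ρ') := by
  have h1 : ∑ c, top (L.s F * (1 + ss F (L.io c)) * (α + ρ c) * ρ' c) =
      top (L.s F * α * L.bet ρ') + ∑ c, top (L.s F * (1 + ss F (L.io c)) * ρ c * ρ' c) := by
    rw [Lam.bet, mul_sum, map_sum, ← sum_add_distrib]
    refine sum_congr rfl fun c _ => ?_
    rw [← map_add]
    refine congrArg top ?_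
    ring
  rw [h1, Lam.Qf, Lam.Qf, Lam.Qf, L.bet_add, L.psi_add h h']
  simp only [L.phc_add, sum_add_distrib]
  linear_combination F_add_self (top (L.s F * α * L.bet ρ')) +
    F_add_self (∑ c, top (L.s F * (1 + ss F (L.io c)) * ρ c * ρ' c))

lemma Lam.Qf_act (χ : F) {u α : Al F (n + 5)} (hu : IsU u) (hu' : DD L.l u = 0)
    (hα : DD L.l α = 0) (ρ : V (n + 4) → Al F (n + 5)) :
    L.Qf (χ • (u * α)) (fun c => χ • (u * ρ c)) =
      χ * χ * (L.Qf α ρ + Phi u (α + L.s F * L.bet ρ)) := by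
  rw [Lam.Qf, Lam.Qf, L.bet_act, L.psi_smul, L.psi_U hu hu' hα]
  simp only [L.phc_smul, L.phc_U _ hu, ← mul_sum]
  ring

lemma Lam.Phi_YY (κ : V (n + 4) → C4) (x : Al F (n + 5)) :
    Phi (1 + L.s F * L.YY F κ) x =
      ∑ c, cF F (kb (κ c)) * Phi (1 + L.s F * (1 + ss F (L.io c))) x := by
  simp only [Phi, L.dlog_s, ← ph_cA, ← ph_sum]
  congr 1
  rw [Lam.YY, map_sum, mul_sum]
  refine sum_congr rfl fun c _ => ?_
  rw [DD_mul, DD_cA]
  ring

lemma Lam.Qf_rot (κ : V (n + 4) → C4) (α : Al F (n + 5)) (ρ : V (n + 4) → Al F (n + 5)) :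
    ∑ c, cF F (kb (κ c)) * top (L.s F * (1 + ss F (L.io c)) * (α + ρ c) * ρ c) +
      L.Qf α (fun c => ρ c + cA F _ (kb (κ c)) * α) =
    L.Qf α ρ + Phi (1 + L.s F * L.YY F κ) (α + L.s F * L.bet ρ) := by
  have h1 : L.psi α (L.bet fun c => ρ c + cA F _ (kb (κ c)) * α) = L.psi α (L.bet ρ) +
      ∑ c, L.psi α ((1 + ss F (L.io c)) * (cA F _ (kb (κ c)) * α)) := by
    simp only [L.bet_add, Lam.psi, mul_add (_ * DD _ α), map_add]
    simp only [Lam.bet, mul_sum, map_sum]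
  have h2 := sum_congr (s₁ := univ) rfl fun c _ => L.rot (L.io c) (kb (κ c)) α (L.bet ρ) (ρ c)
  simp only [sum_add_distrib] at h2
  rw [Lam.Qf, Lam.Qf, h1, L.Phi_YY]
  linear_combination h2

lemma Lam.Qf_zero : L.Qf (0 : Al F (n + 5)) (fun _ => 0) = 0 := by
  simp [Lam.Qf, L.psi_zero, L.phc_zero]

end Qf

variable (π : OO →+* F) {L : Lam n} (Θ : Theta F L) (x0 : V (n + 5))

/-- The relation at one index. -/
def Loc (c : V (n + 4)) (P : XX (n + 4) → HH) (σ : XX (n + 4) → OO) (α ρ : MB F n) (ε : F) :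
    Prop :=
  ∃ (p q : XX (n + 4) → HH) (e : OO), (p, α + ρ) ∈ RR π Θ x0 ∧ (q, ρ) ∈ RR π Θ x0 ∧
    (∀ x, P x = p x + q x * II) ∧ TT c σ + bR c p q = 2 * 4 ^ (n + 4) * e ∧ π e = ε

variable {π Θ x0}

section Loc

variable {c : V (n + 4)} {P P' : XX (n + 4) → HH} {σ σ' : XX (n + 4) → OO} {α ρ α' ρ' : MB F n}
  {ε ε' : F}

lemma Loc.ker (h : Loc π Θ x0 c P σ α ρ ε) (v : V (n + 5)) : DD L.l (α v) = 0 := by
  obtain ⟨p, q, e, h1, h2, -⟩ := h
  have h3 := RR_ker h1 v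
  rwa [Pi.add_apply, map_add, RR_ker h2 v, add_zero] at h3

lemma Loc.add (h : Loc π Θ x0 c P σ α ρ ε) (h' : Loc π Θ x0 c P' σ' α' ρ' ε') :
    Loc π Θ x0 c (fun x => P x + P' x) (fun x => σ x + σ' x + cG (P x) (P' x)) (α + α') (ρ + ρ')
      (ε + ε' + ∑ v, top (L.s F * (1 + ss F (L.io c)) * (α v + ρ v) * ρ' v)) := by
  obtain ⟨p, q, e, h1, h2, h3, h4, h5⟩ := h
  obtain ⟨p', q', e', h1', h2', h3', h4', h5'⟩ := h'
  obtain ⟨-, N, h6, h7⟩ := RR_gauss c h1 h2'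
  refine ⟨p + p', q + q', e + e' + N, ?_, RR_add h2 h2', fun x => ?_, ?_, ?_⟩
  · rw [add_add_add_comm]
    exact RR_add h1 h1'
  · simp only [h3, h3', Pi.add_apply, add_mul]
    abel
  · simp only [h3, h3']
    rw [TT_add, TT_add, TT_split, (RR_gauss c h1 h1').1, (RR_gauss c h2 h2').1, bR_add_left,
      bR_add_right, bR_add_right, bR_symm c p' q]
    linear_combination h4 + h4' + 2 * h6
  · rw [map_add, map_add, h5, h5', h7]
    rfl

lemma Loc.act (h : Loc π Θ x0 c P σ α ρ ε) (o : OO) (f : FF (n + 4)) :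
    Loc π Θ x0 c (fun x => o • (iq (ev x f) * P x)) (fun x => o * o * σ x)
      (π o • actW (Θ.θ f) α) (π o • actW (Θ.θ f) ρ) (π o * π o * ε) := by
  obtain ⟨p, q, e, h1, h2, h3, h4, h5⟩ := h
  refine ⟨fun x => o • (iq (ev x f) * p x), _, o * o * e, ?_, RR_act o f h2, fun x => ?_, ?_, ?_⟩
  · rw [← smul_add, ← actW_add]
    exact RR_act o f h1
  · simp only [h3, mul_add, smul_add, smul_mul_assoc, mul_assoc]
  · have : TT c (fun x => o * o * σ x) = o * o * TT c σ := by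
      simp only [TT, mul_sum, mul_assoc]
    rw [bR_act, this]
    linear_combination (o * o) * h4
  · rw [map_mul, map_mul, h5]

lemma Loc.step (h : Loc π Θ x0 c P σ α ρ ε) :
    Loc π Θ x0 c (fun x => P x * II) σ α (ρ + α)
      (ε + ∑ v, top (L.s F * (1 + ss F (L.io c)) * (α v + ρ v) * ρ v)) := by
  obtain ⟨p, q, e, h1, h2, h3, h4, h5⟩ := h
  obtain ⟨-, N, h6, h7⟩ := RR_gauss c h1 h2
  refine ⟨-q, p, e - N, ?_, ?_, fun x => ?_, ?_, ?_⟩
  · rw [add_comm ρ, ← add_assoc, MB_add_self, zero_add]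
    exact RR_neg h2
  · rwa [add_comm ρ]
  · simp only [h3, add_mul, mul_assoc, II_sq, Pi.neg_apply, mul_neg, mul_one]
    abel
  · rw [bR_neg_left, bR_symm c q p]
    linear_combination h4 - 2 * h6
  · rw [map_sub, h5, h7, CharTwo.sub_eq_add]
    rfl

lemma Loc.pow (h : Loc π Θ x0 c P σ α ρ ε) (m : ℕ) :
    Loc π Θ x0 c (fun x => P x * II ^ m) σ α (fun v => ρ v + cA F _ (m : ZMod 2) * α v)
      (ε + cF F (m : ZMod 2) * ∑ v, top (L.s F * (1 + ss F (L.io c)) * (α v + ρ v) * ρ v)) := by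
  induction m with
  | zero => simpa using h
  | succ m ih =>
    have h1 := ih.step
    have e1 : (fun x => P x * II ^ m * II) = fun x => P x * II ^ (m + 1) := by
      funext x; rw [pow_succ, mul_assoc]
    have e2 : (fun v => ρ v + cA F _ (m : ZMod 2) * α v) + α =
        fun v => ρ v + cA F _ ((m + 1 : ℕ) : ZMod 2) * α v := by
      funext v
      simp only [Pi.add_apply, Nat.cast_succ, map_add, map_one]
      ring
    have e3 : ∀ v, top (L.s F * (1 + ss F (L.io c)) * (α v + (ρ v + cA F _ (m : ZMod 2) * α v)) *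
        (ρ v + cA F _ (m : ZMod 2) * α v)) =
        top (L.s F * (1 + ss F (L.io c)) * (α v + ρ v) * ρ v) := by
      intro v
      refine congrArg top ?_
      rcases zmod2_cases (m : ZMod 2) with h | h <;> rw [h]
      · simp
      · rw [map_one]
        linear_combination (L.s F * (1 + ss F (L.io c)) * (ρ v + α v)) * A_add_self (α v)
    rw [e1, e2] at h1
    simp only [e3] at h1
    rw [Nat.cast_succ (R := ZMod 2) m, map_add (cF F), map_one, add_mul, one_mul, ← add_assoc,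
      ← Nat.cast_succ]
    exact h1

lemma Loc.rot (h : Loc π Θ x0 c P σ α ρ ε) (κ : C4) :
    Loc π Θ x0 c (fun x => P x * jj κ) σ α (fun v => ρ v + cA F _ (kb κ) * α v)
      (ε + cF F (kb κ) * ∑ v, top (L.s F * (1 + ss F (L.io c)) * (α v + ρ v) * ρ v)) := by
  have e : kb κ = ((Multiplicative.toAdd κ).val : ZMod 2) := by
    rw [kb, ZMod.castHom_apply, ZMod.natCast_val]
  rw [e]
  exact h.pow _

lemma Loc.neg (h : Loc π Θ x0 c P σ α ρ ε) :
    ∃ ε', Loc π Θ x0 c (fun x => -P x) (fun x => -σ x) α ρ ε' := by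
  obtain ⟨p, q, e, h1, h2, h3, h4, -⟩ := h
  obtain ⟨-, N, h6, -⟩ := RR_gauss c h1 h2
  refine ⟨_, -p, -q, N - e, RR_neg h1, RR_neg h2, fun x => ?_, ?_, rfl⟩
  · simp only [h3, Pi.neg_apply, neg_mul, neg_add]
  · have : TT c (fun x => -σ x) = -TT c σ := by simp only [TT, neg_mul, sum_neg_distrib]
    rw [this, bR_neg_left, bR_neg_right, neg_neg]
    linear_combination -h4 + 2 * h6

lemma Loc.inj (hπ : Function.Surjective π) (h : Loc π Θ x0 c (fun _ => 0) (fun _ => 0) α ρ ε) :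
    α = 0 ∧ ρ = 0 ∧ ε = 0 := by
  obtain ⟨p, q, e, h1, h2, h3, h4, h5⟩ := h
  have h6 : ∀ p' q' τ τ', (p', τ) ∈ RR π Θ x0 → (q', τ') ∈ RR π Θ x0 →
      bR c p q' = bR c q p' := by
    intro p' q' τ τ' hp hq
    have := TT_split c p q p' q'
    simp only [← h3, map_zero, AddMonoidHom.zero_apply] at this
    rw [(RR_gauss c h1 hp).1, (RR_gauss c h2 hq).1] at this
    simp only [TT, zero_mul, sum_const_zero] at this
    linear_combination -this
  have h7 : ∀ q' τ, (q', τ) ∈ RR π Θ x0 → bR c p q' = 0 := fun q' τ hq => by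
    rw [h6 0 q' 0 τ (zero_mem _) hq, bR_zero_right]
  have h8 : ρ = 0 := RR_nondeg hπ c h2 fun p' τ hp => by
    rw [← h6 p' 0 τ 0 hp (zero_mem _), bR_zero_right]
  have h9 := RR_nondeg hπ c h1 h7
  rw [h8, add_zero] at h9
  refine ⟨h9, h8, ?_⟩
  rw [h7 _ _ h2] at h4
  simp only [TT, zero_mul, sum_const_zero, add_zero] at h4
  rw [← h5, four_pow_mul (OO_two_mul (x := 4 ^ (n + 4) * e) (by rw [← mul_assoc, ← h4])), map_zero]

lemma Loc.surj (hπ : Function.Surjective π) (c : V (n + 4)) (h1 : ∀ v, DD L.l (α v) = 0)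
    (h2 : ∀ v, dot L.l v ≠ dot L.l x0 → α v = 0) (h3 : ∀ v, DD L.l (ρ v) = 0)
    (h4 : ∀ v, dot L.l v ≠ dot L.l x0 → ρ v = 0) (ε : F) : ∃ P σ, Loc π Θ x0 c P σ α ρ ε := by
  obtain ⟨p, hp⟩ := RR_surj (Θ := Θ) (x0 := x0) (ρ := α + ρ) hπ
    (fun v => by rw [Pi.add_apply, map_add, h1, h3, add_zero])
    (fun v hv => by rw [Pi.add_apply, h2 v hv, h4 v hv, add_zero])
  obtain ⟨q, hq⟩ := RR_surj (Θ := Θ) hπ h3 h4
  obtain ⟨e, he⟩ := hπ ε
  refine ⟨fun x => p x + q x * II, Pi.single 0 (2 * 4 ^ (n + 4) * e - bR c p q), p, q, e, hp, hq,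
    fun _ => rfl, ?_, he⟩
  rw [TT, sum_eq_single 0]
  · simp [uu_zero]
  · intro x _ hx
    rw [Pi.single_eq_of_ne hx, zero_mul]
  · simp

end Loc

variable (π Θ x0) in
/-- The relation between the normal subgroups. -/
def Rel0 (P : V (n + 4) × XX (n + 4) → HH) (σ : V (n + 4) × XX (n + 4) → OO) (a : MB F n)
    (e : F) : Prop :=
  ∃ (α : MB F n) (ρ : V (n + 4) → MB F n) (ε : V (n + 4) → F),
    (∀ c, Loc π Θ x0 c (fun x => P (c, x)) (fun x => σ (c, x)) α (ρ c) (ε c)) ∧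
    (∀ v, a v = α v + L.s F * L.bet fun c => ρ c v) ∧
    e = ∑ c, ε c + ∑ v, L.Qf (α v) fun c => ρ c v

section Rel0

variable {P P' : V (n + 4) × XX (n + 4) → HH} {σ σ' : V (n + 4) × XX (n + 4) → OO}
  {a a' : MB F n} {e e' : F}

lemma Rel0.add (h : Rel0 π Θ x0 P σ a e) (h' : Rel0 π Θ x0 P' σ' a' e') :
    Rel0 π Θ x0 (fun i => P i + P' i) (fun i => σ i + σ' i + cG (P i) (P' i)) (a + a')
      (e + e' + ∑ v, c0 (a v) (a' v)) := by
  obtain ⟨α, ρ, ε, h1, h2, h3⟩ := h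
  obtain ⟨α', ρ', ε', h1', h2', h3'⟩ := h'
  refine ⟨α + α', fun c => ρ c + ρ' c, _, fun c => (h1 c).add (h1' c), fun v => ?_, ?_⟩
  · simp only [Pi.add_apply, h2, h2', L.bet_add]
    ring
  · have h4 := sum_congr (s₁ := univ) rfl fun v _ =>
      L.Qf_add ((h1 0).ker v) ((h1' 0).ker v) (fun c => ρ c v) fun c => ρ' c v
    simp only [sum_add_distrib] at h4
    simp only [h2, h2', h3, h3', sum_add_distrib, Pi.add_apply]
    rw [sum_comm] at h4
    linear_combination -h4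

lemma Rel0.act_h (h : Rel0 π Θ x0 P σ a e) (r : C3) (f : FF (n + 4)) :
    Rel0 π Θ x0 (fun i => w3 r • (iq (ev i.2 f) * P i)) (fun i => w3 r * w3 r * σ i)
      ((DB π n).act (Θ.θ f, r) a) ((DB π n).actZ (Θ.θ f, r) e + (DB π n).Φ (Θ.θ f, r) a) := by
  obtain ⟨α, ρ, ε, h1, h2, h3⟩ := h
  refine ⟨_, _, _, fun c => (h1 c).act (w3 r) f, fun v => ?_, ?_⟩
  · simp only [DB_act, h2, Pi.smul_apply, actW, L.bet_act, mul_add, smul_add, mul_smul_comm,
      mul_left_comm]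
  · simp only [DB_actZ, DB_Φ, h2, h3, Pi.smul_apply, actW,
      L.Qf_act _ ((Θ.θ f).hμ _) (Θ.hker f _) ((h1 0).ker _), ← mul_sum, sum_add_distrib]
    rw [← sum_shift (fun v => L.Qf (α v) fun c => ρ c v) (Θ.θ f).w]
    ring

lemma Rel0.act_k (h : Rel0 π Θ x0 P σ a e) (κ : V (n + 4) → C4) :
    Rel0 π Θ x0 (fun i => P i * jj (κ i.1)) σ
      ((DB π n).act (L.cK F κ, 1) a) ((DB π n).actZ (L.cK F κ, 1) e +
        (DB π n).Φ (L.cK F κ, 1) a) := by
  obtain ⟨α, ρ, ε, h1, h2, h3⟩ := h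
  refine ⟨_, _, _, fun c => (h1 c).rot (κ c), fun v => ?_, ?_⟩
  · simp only [DB_act, h2, w3_one, map_one, one_smul, Lam.cK, cst, add_zero, L.bet_rot]
    linear_combination (L.YY F κ * L.bet fun c => ρ c v) * L.s_sq (F := F)
  · have h4 := sum_congr (s₁ := univ) rfl fun v _ => L.Qf_rot κ (α v) fun c => ρ c v
    simp only [sum_add_distrib] at h4
    simp only [DB_actZ, DB_Φ, h2, h3, w3_one, map_one, one_mul, Lam.cK, cst, add_zero,
      sum_add_distrib, mul_sum]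
    rw [sum_comm] at h4
    linear_combination -h4

lemma Rel0.act (h : Rel0 π Θ x0 P σ a e) (r : C3) (f : FF (n + 4)) (κ : V (n + 4) → C4) :
    Rel0 π Θ x0 (fun i => DG.act (r, ev i.2 f, κ i.1) (P i))
      (fun i => DG.actZ (r, ev i.2 f, κ i.1) (σ i))
      ((DB π n).act (Θ.θ f * L.cK F κ, r) a)
      ((DB π n).actZ (Θ.θ f * L.cK F κ, r) e + (DB π n).Φ (Θ.θ f * L.cK F κ, r) a) := by
  have h1 := (h.act_k κ).act_h r f
  have e1 : ((Θ.θ f * L.cK F κ, r) : TB F n) = (Θ.θ f, r) * (L.cK F κ, 1) := by simp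
  rw [e1, (DB π n).act_mul, (DB π n).actZ_mul, (DB π n).Φ_mul, ← add_assoc, ← map_add]
  simpa only [DG_act, DG_actZ, mul_assoc] using h1

lemma Rel0.neg (h : Rel0 π Θ x0 P σ a e) :
    ∃ e', Rel0 π Θ x0 (fun i => -P i) (fun i => -σ i) a e' := by
  obtain ⟨α, ρ, ε, h1, h2, -⟩ := h
  choose ε' h3 using fun c => (h1 c).neg
  exact ⟨_, α, ρ, ε', h3, h2, rfl⟩

lemma Rel0.zero : Rel0 π Θ x0 (fun _ => 0) (fun _ => 0) 0 0 := by
  refine ⟨0, fun _ => 0, fun _ => 0, fun c => ⟨0, 0, 0, ?_, zero_mem _, ?_, ?_, map_zero _⟩,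
    fun v => ?_, ?_⟩
  · rw [add_zero]; exact zero_mem _
  · simp
  · simp [TT, bR]
  · simp [Lam.bet]
  · simp [L.Qf_zero]

lemma Rel0.inj (hπ : Function.Surjective π) (h : Rel0 π Θ x0 (fun _ => 0) (fun _ => 0) a e) :
    a = 0 ∧ e = 0 := by
  obtain ⟨α, ρ, ε, h1, h2, h3⟩ := h
  have h4 := fun c => (h1 c).inj hπ
  constructor
  · funext v
    simp [h2, (h4 0).1, fun c => (h4 c).2.1, Lam.bet]
  · simp [h3, (h4 0).1, fun c => (h4 c).2.1, fun c => (h4 c).2.2, L.Qf_zero]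

lemma Rel0.surj (hπ : Function.Surjective π) (a : MB F n)
    (ha : ∀ v, dot L.l v ≠ dot L.l x0 → a v = 0) (e : F) : ∃ P σ, Rel0 π Θ x0 P σ a e := by
  have hD : ∀ b : Al F (n + 5), DD L.l (DD L.l b) = 0 := by
    intro b
    obtain ⟨α, β, hα, hβ, rfl⟩ := L.decomp_ker b
    rw [map_add, DD_mul, hα, hβ, L.D_s, zero_add, one_mul, mul_zero, add_zero, hβ]
  let α : MB F n := fun v => a v + L.s F * DD L.l (a v)
  let ρ : V (n + 4) → MB F n := fun c v => if c = 0 then DD L.l (a v) else 0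
  let ε : V (n + 4) → F := fun c => if c = 0 then e - ∑ v, L.Qf (α v) fun c => ρ c v else 0
  have h1 : ∀ c, ∃ P σ, Loc π Θ x0 c P σ α (ρ c) (ε c) := by
    intro c
    refine Loc.surj hπ c (fun v => ?_) (fun v hv => ?_) (fun v => ?_) (fun v hv => ?_) _
    · simp only [α]
      rw [map_add, DD_mul, hD, L.D_s, one_mul, mul_zero, add_zero, A_add_self]
    · simp [α, ha v hv]
    · simp only [ρ]
      split_ifs
      · exact hD _
      · exact map_zero _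
    · simp [ρ, ha v hv]
  choose P σ h2 using h1
  refine ⟨fun i => P i.1 i.2, fun i => σ i.1 i.2, α, ρ, ε, h2, fun v => ?_, ?_⟩
  · have : (L.bet fun c => ρ c v) = DD L.l (a v) := by
      simp [Lam.bet, ρ, L.io_zero, ss_zero]
    rw [this]
    simp only [α]
    rw [add_assoc, A_add_self, add_zero]
  · simp [ε]

end Rel0

theorem satOn_coset (hπ : Function.Surjective π) (Θ : Theta F L) (x0 : V (n + 5))
    {w : FreeGroup ℕ} (hw : SatOn (Set.univ : Set GG) w) :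
    SatOn {b : Ext (DB π n) | (∀ v, dot L.l v ≠ dot L.l x0 → b.a v = 0) ∧
      ∃ f κ, b.g.1 = Θ.θ f * L.cK F κ} w := by
  refine satOn_of_rel (satOn_pi hw (V (n + 4) × XX (n + 4)))
    (fun x b => Rel0 π Θ x0 (fun i => (x i).a) (fun i => (x i).e) b.a b.e ∧
      ∃ r f κ, (∀ i, (x i).g = (r, ev i.2 f, κ i.1)) ∧ b.g = (Θ.θ f * L.cK F κ, r))
    ⟨Rel0.zero, 1, 1, 1, fun i => ?_, ?_⟩ ?_ ?_ ?_ ?_
  · rw [map_one]; rfl
  · rw [map_one, L.cK_one, mul_one]; rfl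
  · rintro x y x' y' ⟨h1, r, f, κ, h2, h3⟩ ⟨h1', r', f', κ', h2', h3'⟩
    refine ⟨?_, r * r', f * f', κ * κ', fun i => ?_, ?_⟩
    · have h4 := h1.add (h1'.act r f κ)
      simp only [Pi.mul_apply, Ext.mul_a, Ext.mul_e, h2, h3, DG_Φ, add_zero, DB_c]
      rw [add_assoc y.e]
      exact h4
    · rw [Pi.mul_apply, Ext.mul_g, h2, h2', map_mul]
      rfl
    · rw [Ext.mul_g, h3, h3', map_mul, L.cK_mul, Prod.mk_mul_mk, mul_assoc,
        ← mul_assoc (L.cK F κ), L.cK_comm κ]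
      simp only [mul_assoc]
  · rintro x y ⟨h1, r, f, κ, h2, h3⟩
    have h5 : ∀ i, (x i).g⁻¹ = (r⁻¹, ev i.2 f⁻¹, κ⁻¹ i.1) := fun i => by
      rw [h2, map_inv]; rfl
    obtain ⟨e', h4⟩ := (h1.act r⁻¹ f⁻¹ κ⁻¹).neg
    refine ⟨⟨(DB π n).act (Θ.θ f⁻¹ * L.cK F κ⁻¹, r⁻¹) y.a, e', (Θ.θ f⁻¹ * L.cK F κ⁻¹, r⁻¹)⟩, ?_,
      r⁻¹, f⁻¹, κ⁻¹, h5, rfl⟩
    have h6 : ∀ a : HH, DG.c (-a) a = 0 := fun a => by
      rw [map_neg, AddMonoidHom.neg_apply, neg_eq_zero]
      exact cG_self a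
    simp only [Pi.inv_apply, Ext.inv_a, Ext.inv_e, h5, DG_Φ, add_zero, h6]
    exact h4
  · rintro y ⟨h1, r, f, κ, h2, h3⟩
    obtain ⟨h4, h5⟩ := Rel0.inj hπ h1
    have h6 : r = 1 := (congrArg Prod.fst (h2 (0, 0))).symm
    have h7 : ∀ x, ev x f = 1 := fun x => (congrArg (fun t => t.2.1) (h2 (0, x))).symm
    have h8 : κ = 1 := funext fun c => (congrArg (fun t => t.2.2) (h2 (c, 0))).symm
    refine Ext.ext' h4 h5 ?_
    rw [h3, h6, h8, theta_eq_one hπ Θ h7, L.cK_one, mul_one]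
    rfl
  · rintro y ⟨h1, f, κ, h2⟩
    obtain ⟨P, σ, h3⟩ := Rel0.surj (Θ := Θ) hπ y.a h1 y.e
    exact ⟨fun i => ⟨P i, σ i, (y.g.2, ev i.2 f, κ i.1)⟩, Set.mem_univ _, h3, y.g.2, f, κ,
      fun _ => rfl, Prod.ext h2 rfl⟩

end Pool.Agent.Lib.MP_631532_al
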