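import Pool.Agent.Lib.MP_631532_al.B

/-!
Normalisation of the index two subgroups of the top group of the test group.
-/

noncomputable section

open Finset

namespace Pool.Agent.Lib.MP_631532_al

section Free

variable {k : ℕ}

abbrev FF (k : ℕ) := FreeGroup (Fin k)

/-- Exponent sums modulo two. -/
def deg (f : FF k) : V k :=
  Multiplicative.toAdd (FreeGroup.lift (fun i => Multiplicative.ofAdd (ee i : V k)) f)

lemma deg_one : deg (1 : FF k) = 0 := by simp [deg]

lemma deg_mul (f g : FF k) : deg (f * g) = deg f + deg g := by simp [deg]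

lemma deg_inv (f : FF k) : deg f⁻¹ = deg f := by
  have : deg f⁻¹ = -deg f := by simp [deg]
  rw [this]
  exact neg_eq_of_add_eq_zero_left (V_add_self _)

lemma deg_of (i : Fin k) : deg (FreeGroup.of i) = ee i := by simp [deg]

lemma sq_induction {P : FF k → Prop} (h1 : P 1) (hsq : ∀ g, P (g * g))
    (hmul : ∀ f g, P f → P g → P (f * g)) {f : FF k} (hf : deg f = 0) : P f := by
  let N : Subgroup (FF k) := Subgroup.closure (Set.range fun g => g * g)
  have hN : N.Normal := ⟨fun x hx g => by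
    induction hx using Subgroup.closure_induction with
    | mem x hx =>
      obtain ⟨a, rfl⟩ := hx
      exact Subgroup.subset_closure ⟨g * a * g⁻¹, by group⟩
    | one => simp
    | mul x y _ _ hx hy =>
      have : g * (x * y) * g⁻¹ = (g * x * g⁻¹) * (g * y * g⁻¹) := by group
      rw [this]; exact N.mul_mem hx hy
    | inv x _ hx =>
      have : g * x⁻¹ * g⁻¹ = (g * x * g⁻¹)⁻¹ := by group
      rw [this]; exact N.inv_mem hx⟩
  have hsq' : ∀ x : FF k ⧸ N, x * x = 1 := by
    intro x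
    obtain ⟨a, rfl⟩ := QuotientGroup.mk_surjective x
    rw [← QuotientGroup.mk_mul, QuotientGroup.eq_one_iff]
    exact Subgroup.subset_closure ⟨a, rfl⟩
  have hinv : ∀ x : FF k ⧸ N, x⁻¹ = x := fun x => inv_eq_of_mul_eq_one_left (hsq' x)
  let _ : CommGroup (FF k ⧸ N) :=
    { (inferInstance : Group (FF k ⧸ N)) with
      mul_comm := fun x y => by rw [← hinv (x * y), mul_inv_rev, hinv, hinv] }
  let ψ : V k → FF k ⧸ N := fun v =>
    ∏ i, if v i = 0 then 1 else QuotientGroup.mk (FreeGroup.of i)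
  have hψ : ∀ v w, ψ (v + w) = ψ v * ψ w := by
    intro v w
    simp only [ψ, ← prod_mul_distrib]
    refine prod_congr rfl fun i _ => ?_
    rcases zmod2_cases (v i) with h | h <;> rcases zmod2_cases (w i) with h' | h' <;>
      simp [h, h', hsq', zmod2_add_self]
  have hψ1 : ∀ i, ψ (ee i) = QuotientGroup.mk (FreeGroup.of i) := by
    intro i
    simp only [ψ]
    rw [prod_eq_single i]
    · simp [ee]
    · intro j _ hj
      simp [ee, Pi.single_eq_of_ne hj]
    · simp
  have key : ∀ f : FF k, (QuotientGroup.mk f : FF k ⧸ N) = ψ (deg f) := by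
    intro f
    induction f using FreeGroup.induction_on with
    | C1 => simp [ψ, deg_one]
    | of i => rw [deg_of, hψ1]
    | inv_of i hi => rw [deg_inv, QuotientGroup.mk_inv, hinv, hi]
    | mul x y hx hy => rw [deg_mul, hψ, QuotientGroup.mk_mul, hx, hy]
  have hf' : f ∈ N := by
    rw [← QuotientGroup.eq_one_iff, key, hf]
    simp [ψ]
  clear hf
  induction hf' using Subgroup.closure_induction'' with
  | mem x hx => obtain ⟨a, rfl⟩ := hx; exact hsq a
  | inv_mem x hx =>
    obtain ⟨a, rfl⟩ := hx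
    rw [mul_inv_rev]; exact hsq _
  | one => exact h1
  | mul x y _ _ hx hy => exact hmul _ _ hx hy

lemma exists_sec (c : V k) : ∃ f : FF k, deg f = c := by
  induction c using V_induction with
  | h0 => exact ⟨1, deg_one⟩
  | h1 v i ih =>
    obtain ⟨f, hf⟩ := ih
    exact ⟨f * FreeGroup.of i, by rw [deg_mul, hf, deg_of]⟩

/-- A word with prescribed exponent sums. -/
def sec (c : V k) : FF k := Classical.choose (exists_sec c)

lemma deg_sec (c : V k) : deg (sec c) = c := Classical.choose_spec (exists_sec c)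

end Free

section Norm

variable {F : Type} [CommRing F] [CharP F 2] {n : ℕ} (L : Lam n)

/-- Forget the transversal coordinate. -/
def Lam.pr (v : V (n + 5)) : V (n + 4) := fun i => v (L.j.succAbove i)

/-- The parametrisation of the hyperplane. -/
def Lam.io (D : V (n + 4)) : V (n + 5) :=
  Fin.insertNth (α := fun _ => ZMod 2) L.j (dot (L.pr L.l) D) D

lemma Lam.pr_add (v w : V (n + 5)) : L.pr (v + w) = L.pr v + L.pr w := rfl

lemma Lam.pr_io (D : V (n + 4)) : L.pr (L.io D) = D := by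
  funext i
  simp [Lam.pr, Lam.io]

lemma Lam.io_j (D : V (n + 4)) : L.io D L.j = dot (L.pr L.l) D := by simp [Lam.io]

lemma Lam.dot_split (l v : V (n + 5)) : dot l v = l L.j * v L.j + dot (L.pr l) (L.pr v) :=
  Fin.sum_univ_succAbove (fun i => l i * v i) L.j

lemma Lam.V_ext {v w : V (n + 5)} (h : v L.j = w L.j) (h' : L.pr v = L.pr w) : v = w := by
  funext i
  induction i using Fin.succAboveCases (i := L.j) with
  | x => exact h
  | p i => exact congrFun h' i

lemma Lam.dot_io (D : V (n + 4)) : dot L.l (L.io D) = 0 := by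
  rw [L.dot_split, L.hj, one_mul, L.io_j, L.pr_io, zmod2_add_self]

lemma Lam.io_add (D D' : V (n + 4)) : L.io (D + D') = L.io D + L.io D' :=
  L.V_ext (by rw [Pi.add_apply, L.io_j, L.io_j, L.io_j, dot_add])
    (by rw [L.pr_add, L.pr_io, L.pr_io, L.pr_io])

lemma Lam.io_zero : L.io 0 = 0 :=
  L.V_ext (by rw [L.io_j, dot_zero]; rfl) (by rw [L.pr_io]; rfl)

lemma Lam.io_pr {v : V (n + 5)} (h : dot L.l v = 0) : L.io (L.pr v) = v := by
  refine L.V_ext ?_ (L.pr_io _)
  rw [L.dot_split, L.hj, one_mul] at h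
  rw [L.io_j]
  linear_combination h - zmod2_add_self (v L.j)

lemma Lam.pr_ee : L.pr (ee L.j) = 0 := by
  funext i
  simp [Lam.pr, ee]

lemma Lam.io_pr' {v : V (n + 5)} (h : dot L.l v = 1) : L.io (L.pr v) + ee L.j = v := by
  have h1 : dot L.l (v + ee L.j) = 0 := by rw [dot_add, h, dot_ee, L.hj, zmod2_add_self]
  have h2 := L.io_pr h1
  rw [L.pr_add, L.pr_ee, add_zero] at h2
  rw [h2, add_assoc, V_add_self, add_zero]

/-- Reduction modulo two. -/
def kb (κ : C4) : ZMod 2 := ZMod.castHom (by norm_num : 2 ∣ 4) (ZMod 2) (Multiplicative.toAdd κ)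

lemma kb_one : kb 1 = 0 := by simp [kb]

lemma kb_mul (κ κ' : C4) : kb (κ * κ') = kb κ + kb κ' := by simp [kb]

/-- The affine element attached to a family of exponents. -/
def Lam.YY (F : Type) [CommRing F] [CharP F 2] {n : ℕ} (L : Lam n) (κ : V (n + 4) → C4) :
    Al F (n + 5) :=
  ∑ c, (1 + ss F (L.io c)) * cA F _ (kb (κ c))

lemma Lam.s_mul_s (y y' : Al F (n + 5)) :
    (1 + L.s F * y) * (1 + L.s F * y') = 1 + L.s F * (y + y') := by
  linear_combination (y * y') * L.s_sq (F := F)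

lemma Lam.isU_YY (κ : V (n + 4) → C4) : IsU (1 + L.s F * L.YY F κ) := by
  refine Finset.sum_induction _ (fun y => IsU (1 + L.s F * y)) (fun y y' h h' => ?_) ?_
    fun c _ => ?_
  · rw [← L.s_mul_s]; exact h.mul h'
  · simpa using isU_one
  · rcases zmod2_cases (kb (κ c)) with h | h <;> rw [h]
    · simpa using isU_one
    · simpa using L.isU_s _

/-- The extra central elements. -/
def Lam.cK (F : Type) [CommRing F] [CharP F 2] {n : ℕ} (L : Lam n) (κ : V (n + 4) → C4) :
    WW F (n + 5) :=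
  cst (1 + L.s F * L.YY F κ) (L.isU_YY κ)

lemma Lam.cK_comm (κ : V (n + 4) → C4) (g : WW F (n + 5)) : L.cK F κ * g = g * L.cK F κ :=
  cst_comm _ _ _

lemma Lam.cK_one : L.cK F 1 = 1 :=
  WW.ext' rfl fun v => by simp [Lam.cK, cst, Lam.YY, kb_one, WW.one_μ]

lemma Lam.cK_mul (κ κ' : V (n + 4) → C4) : L.cK F (κ * κ') = L.cK F κ * L.cK F κ' := by
  rw [Lam.cK, Lam.cK, Lam.cK, cst_mul]
  refine cst_congr ?_ _ _
  rw [L.s_mul_s]
  simp only [Lam.YY, Pi.mul_apply, kb_mul, map_add, mul_add, sum_add_distrib]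

/-- A normalised homomorphism from the free group. -/
structure Theta (F : Type) [CommRing F] [CharP F 2] {n : ℕ} (L : Lam n) where
  θ : FF (n + 4) →* WW F (n + 5)
  hw : ∀ f, (θ f).w = L.io (deg f)
  hker : ∀ f v, DD L.l ((θ f).μ v) = 0
  hsq : ∀ f, θ (f * f) = cst (1 + ss F (L.io (deg f))) (isU_one_add_ss _)

lemma Lam.exists_theta : ∃ (Θ : Theta F L) (ν : WW F (n + 5)), ∀ g ∈ EE F (n + 5),
    dot L.l g.w = 0 → ∃ f κ, ν * g * ν⁻¹ = Θ.θ f * L.cK F κ := by
  let θ : FF (n + 4) →* WW F (n + 5) := FreeGroup.lift fun i => xx F (L.io (ee i))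
  have hE : ∀ f, θ f ∈ EE F (n + 5) := by
    intro f
    induction f using FreeGroup.induction_on with
    | C1 => rw [map_one]; exact one_mem _
    | of i => rw [FreeGroup.lift_apply_of]; exact xx_mem _
    | inv_of i hi => rw [map_inv]; exact inv_mem hi
    | mul x y hx hy => rw [map_mul]; exact mul_mem hx hy
  have hw : ∀ f, (θ f).w = L.io (deg f) := by
    intro f
    induction f using FreeGroup.induction_on with
    | C1 => rw [map_one, deg_one, L.io_zero]; rfl
    | of i => rw [FreeGroup.lift_apply_of, deg_of]; rfl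
    | inv_of i hi => rw [map_inv, WW.inv_w, deg_inv, hi]
    | mul x y hx hy => rw [map_mul, WW.mul_w, hx, hy, deg_mul, L.io_add]
  have hsq : ∀ f, θ (f * f) = cst (1 + ss F (L.io (deg f))) (isU_one_add_ss _) := by
    intro f
    rw [map_mul, EE_sq (hE f)]
    exact cst_congr (by rw [hw]) _ _
  have hzero : ∀ f, deg f = 0 → ∃ u hu, θ f = cst u hu ∧ DD L.l u = 0 := by
    intro f hf
    refine sq_induction (P := fun f => ∃ u hu, θ f = cst u hu ∧ DD L.l u = 0) ?_ ?_ ?_ hf
    · exact ⟨1, isU_one, map_one _, DD_one _⟩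
    · intro g
      exact ⟨_, _, hsq g, by rw [map_add, DD_one, DD_ss, L.dot_io, map_zero, add_zero]⟩
    · rintro f g ⟨u, hu, hf, hu'⟩ ⟨u', hv, hg, hv'⟩
      exact ⟨u * u', hu.mul hv, by rw [map_mul, hf, hg, cst_mul], L.ker_mul hu' hv'⟩
  let ν : WW F (n + 5) := ⟨0, fun v => (θ (sec (L.pr v))).μ v, fun v => (θ _).hμ v⟩
  have hν : ∀ g : WW F (n + 5), ∀ u hu, ν * (g * cst u hu) * ν⁻¹ = ν * g * ν⁻¹ * cst u hu := by
    intro g u hu
    rw [← mul_assoc, mul_assoc _ (cst u hu), cst_comm, ← mul_assoc]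
  refine ⟨⟨(MulAut.conj ν).toMonoidHom.comp θ, fun f => ?_, fun f v => ?_, fun f => ?_⟩, ν, ?_⟩
  · change (ν * θ f * ν⁻¹).w = _
    rw [WW.mul_w, WW.mul_w, WW.inv_w, hw]
    simp [ν]
  · obtain ⟨u, hu, h1, h2⟩ := hzero ((sec (L.pr v))⁻¹ * (f * sec (L.pr (v + (θ f).w)))) (by
      rw [deg_mul, deg_mul, deg_inv, deg_sec, deg_sec, hw, L.pr_add, L.pr_io, ← add_assoc,
        V_add_self])
    rw [map_mul, map_inv, inv_mul_eq_iff_eq_mul, map_mul] at h1
    have h3 := congrArg (fun g => g.μ v) h1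
    simp only [WW.mul_μ, cst] at h3
    have h4 : (ν * θ f * ν⁻¹).μ v = u := by
      simp only [WW.mul_μ, WW.inv_μ, WW.mul_w, ν, add_zero, zero_add]
      rw [mul_assoc, h3, ← mul_assoc, ((θ _).hμ _).1, one_mul]
    change DD L.l ((ν * θ f * ν⁻¹).μ v) = 0
    rw [h4, h2]
  · change ν * θ (f * f) * ν⁻¹ = _
    rw [hsq, ← cst_comm, mul_inv_cancel_right]
  · have hZ : ∀ u (hu : u ∈ Zb F (n + 5)), ∃ f κ, cst u (isU_of_mem hu) = θ f * L.cK F κ := by
      intro u hu
      induction hu using Submonoid.closure_induction with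
      | mem x hx =>
        obtain ⟨v, rfl⟩ := hx
        rcases zmod2_cases (dot L.l v) with h | h
        · refine ⟨sec (L.pr v) * sec (L.pr v), 1, ?_⟩
          rw [L.cK_one, mul_one, hsq]
          exact cst_congr (by rw [deg_sec, L.io_pr h]) _ _
        · refine ⟨sec (L.pr v) * sec (L.pr v), Pi.mulSingle (L.pr v) (Multiplicative.ofAdd 1), ?_⟩
          rw [hsq, Lam.cK, cst_mul]
          refine cst_congr ?_ _ _
          have hY : L.YY F (Pi.mulSingle (L.pr v) (Multiplicative.ofAdd 1)) =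
              1 + ss F (L.io (L.pr v)) := by
            rw [Lam.YY, sum_eq_single (L.pr v)]
            · simp [kb]
            · intro c _ hc
              simp [Pi.mulSingle_eq_of_ne hc, kb_one]
            · simp
          rw [hY, deg_sec, L.one_add_s_mul, ← mul_assoc, one_add_ss_mul_self, one_mul, L.io_pr' h]
      | one => exact ⟨1, 1, by rw [map_one, L.cK_one, mul_one]; rfl⟩
      | mul x y hx' hy' hx hy =>
        obtain ⟨f, κ, hx⟩ := hx
        obtain ⟨f', κ', hy⟩ := hy
        refine ⟨f * f', κ * κ', ?_⟩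
        rw [← cst_mul _ _ (isU_of_mem hx') (isU_of_mem hy'), hx, hy, map_mul, L.cK_mul,
          mul_assoc, ← mul_assoc (L.cK F κ), L.cK_comm κ]
        simp only [mul_assoc]
    intro g hg h0
    obtain ⟨u, hu, h1⟩ := EE_zero (mul_mem (inv_mem (hE (sec (L.pr g.w)))) hg) (by
      rw [WW.mul_w, WW.inv_w, hw, deg_sec, L.io_pr h0, V_add_self])
    obtain ⟨f, κ, h2⟩ := hZ u hu
    refine ⟨sec (L.pr g.w) * f, κ, ?_⟩
    rw [inv_mul_eq_iff_eq_mul, h2, ← mul_assoc, ← map_mul] at h1
    exact (congrArg (fun x => ν * x * ν⁻¹) h1).trans (hν _ _ _)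

end Norm

end Pool.Agent.Lib.MP_631532_al
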