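import Pool.Agent.Lib.MP_631532_al.Gauss

/-!
The lattice relating a power of the quaternion module to the module of the test group.
-/

noncomputable section

open Finset

namespace Pool.Agent.Lib.MP_631532_al

variable {F : Type} [CommRing F] [CharP F 2] {n : ℕ}

/-- The action of the wreath product. -/
def actW (g : WW F (n + 5)) (a : MB F n) : MB F n := fun v => g.μ v * a (v + g.w)

lemma actW_mul (g h : WW F (n + 5)) (a : MB F n) : actW (g * h) a = actW g (actW h a) := by
  funext v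
  simp only [actW, WW.mul_μ, WW.mul_w, add_assoc, mul_assoc]

lemma actW_one (a : MB F n) : actW 1 a = a := by
  funext v
  simp only [actW, WW.one_μ, WW.one_w, add_zero, one_mul]

lemma actW_add (g : WW F (n + 5)) (a b : MB F n) : actW g (a + b) = actW g a + actW g b := by
  funext v
  simp only [actW, Pi.add_apply, mul_add]

lemma actW_smul (g : WW F (n + 5)) (c : F) (a : MB F n) : actW g (c • a) = c • actW g a := by
  funext v
  simp only [actW, Pi.smul_apply, mul_smul_comm]

lemma MB_neg (a : MB F n) : -a = a := funext fun _ => A_neg _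

lemma MB_add_self (a : MB F n) : a + a = 0 := funext fun _ => A_add_self _

/-- The weighted symmetric form. -/
def bR {k : ℕ} (c : V k) (p q : XX k → HH) : OO := ∑ x, (star (p x) * q x).re * (uu c x : ℤ)

/-- The weighted alternating form. -/
def bI {k : ℕ} (c : V k) (p q : XX k → HH) : OO := ∑ x, (star (p x) * q x).imI * (uu c x : ℤ)

/-- The weighted sum. -/
def TT {k : ℕ} (c : V k) (σ : XX k → OO) : OO := ∑ x, σ x * (uu c x : ℤ)

section Forms

variable {k : ℕ} (c : V k)

lemma bR_add_left (p p' q : XX k → HH) : bR c (p + p') q = bR c p q + bR c p' q := by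
  simp only [bR, Pi.add_apply, star_add, add_mul, QuaternionAlgebra.re_add, sum_add_distrib]

lemma bR_add_right (p q q' : XX k → HH) : bR c p (q + q') = bR c p q + bR c p q' := by
  simp only [bR, Pi.add_apply, mul_add, add_mul, QuaternionAlgebra.re_add, sum_add_distrib]

lemma bR_neg_left (p q : XX k → HH) : bR c (-p) q = -bR c p q := by
  simp only [bR, Pi.neg_apply, star_neg, neg_mul, QuaternionAlgebra.re_neg, sum_neg_distrib]

lemma bR_neg_right (p q : XX k → HH) : bR c p (-q) = -bR c p q := by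
  simp only [bR, Pi.neg_apply, mul_neg, neg_mul, QuaternionAlgebra.re_neg, sum_neg_distrib]

lemma bR_zero_left (q : XX k → HH) : bR c 0 q = 0 := by simp [bR]

lemma bR_zero_right (p : XX k → HH) : bR c p 0 = 0 := by simp [bR]

lemma bR_symm (p q : XX k → HH) : bR c p q = bR c q p := by
  refine sum_congr rfl fun x _ => ?_
  simp only [H_re_mul, H_re_star, QuaternionAlgebra.imI_star, QuaternionAlgebra.imJ_star,
    QuaternionAlgebra.imK_star]
  ring

lemma bI_add_left (p p' q : XX k → HH) : bI c (p + p') q = bI c p q + bI c p' q := by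
  simp only [bI, Pi.add_apply, star_add, add_mul, QuaternionAlgebra.imI_add, sum_add_distrib]

lemma bI_add_right (p q q' : XX k → HH) : bI c p (q + q') = bI c p q + bI c p q' := by
  simp only [bI, Pi.add_apply, mul_add, add_mul, QuaternionAlgebra.imI_add, sum_add_distrib]

lemma bI_neg_left (p q : XX k → HH) : bI c (-p) q = -bI c p q := by
  simp only [bI, Pi.neg_apply, star_neg, neg_mul, QuaternionAlgebra.imI_neg, sum_neg_distrib]

lemma bI_neg_right (p q : XX k → HH) : bI c p (-q) = -bI c p q := by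
  simp only [bI, Pi.neg_apply, mul_neg, neg_mul, QuaternionAlgebra.imI_neg, sum_neg_distrib]

lemma bI_zero_left (q : XX k → HH) : bI c 0 q = 0 := by simp [bI]

lemma bI_zero_right (p : XX k → HH) : bI c p 0 = 0 := by simp [bI]

lemma cG_split (p q p' q' : HH) : cG (p + q * II) (p' + q' * II) =
    (star p * p').imI + (star q * q').imI + (star p * q').re - (star q * p').re := by
  simp only [cG_apply, H_re_mul, H_imI_mul, H_imJ_mul, H_imK_mul, H_re_star,
    QuaternionAlgebra.imI_star, QuaternionAlgebra.imJ_star, QuaternionAlgebra.imK_star,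
    QuaternionAlgebra.re_add, QuaternionAlgebra.imI_add, QuaternionAlgebra.imJ_add,
    QuaternionAlgebra.imK_add, II]
  ring

lemma TT_split (p q p' q' : XX k → HH) :
    TT c (fun x => cG (p x + q x * II) (p' x + q' x * II)) =
      bI c p p' + bI c q q' + bR c p q' - bR c q p' := by
  simp only [TT, bI, bR, cG_split, add_mul, sub_mul, sum_add_distrib, sum_sub_distrib]

lemma TT_add (σ σ' : XX k → OO) : TT c (fun x => σ x + σ' x) = TT c σ + TT c σ' := by
  simp only [TT, add_mul, sum_add_distrib]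

lemma bR_act (o : OO) (f : FF k) (p q : XX k → HH) :
    bR c (fun x => o • (iq (ev x f) * p x)) (fun x => o • (iq (ev x f) * q x)) =
      o * o * bR c p q := by
  rw [bR, bR, mul_sum]
  refine sum_congr rfl fun x _ => ?_
  rw [QuaternionAlgebra.star_smul', star_mul, smul_mul_smul_comm, mul_assoc,
    ← mul_assoc (star (iq _)), star_iq_mul, one_mul, QuaternionAlgebra.re_smul, smul_eq_mul]
  ring

end Forms

variable (π : OO →+* F) {L : Lam n} (Θ : Theta F L) (x0 : V (n + 5))

/-- The generators of the lattice. -/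
def gen (o : OO) (f : FF (n + 4)) : (XX (n + 4) → HH) × MB F n :=
  (fun x => o • iq (ev x f), π o • actW (Θ.θ f) (Pi.single x0 1))

/-- The lattice. -/
def RR : AddSubgroup ((XX (n + 4) → HH) × MB F n) :=
  AddSubgroup.closure (Set.range fun t : OO × FF (n + 4) => gen π Θ x0 t.1 t.2)

lemma gen_mem (o : OO) (f : FF (n + 4)) : gen π Θ x0 o f ∈ RR π Θ x0 :=
  AddSubgroup.subset_closure ⟨(o, f), rfl⟩

variable {π Θ x0}

lemma RR_induction {P : (XX (n + 4) → HH) → MB F n → Prop}
    (hg : ∀ o f, P (gen π Θ x0 o f).1 (gen π Θ x0 o f).2) (h0 : P 0 0)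
    (hadd : ∀ p ρ q τ, P p ρ → P q τ → P (p + q) (ρ + τ)) (hneg : ∀ p ρ, P p ρ → P (-p) ρ)
    {p : XX (n + 4) → HH} {ρ : MB F n} (h : (p, ρ) ∈ RR π Θ x0) : P p ρ := by
  have key : ∀ z ∈ RR π Θ x0, P z.1 z.2 := by
    intro z hz
    induction hz using AddSubgroup.closure_induction with
    | mem x hx => obtain ⟨t, rfl⟩ := hx; exact hg _ _
    | zero => exact h0
    | add x y _ _ hx hy => exact hadd _ _ _ _ hx hy
    | neg x _ hx => rw [Prod.snd_neg, MB_neg]; exact hneg _ _ hx
  exact key _ h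

lemma RR_add {p q : XX (n + 4) → HH} {ρ τ : MB F n} (h : (p, ρ) ∈ RR π Θ x0)
    (h' : (q, τ) ∈ RR π Θ x0) : (p + q, ρ + τ) ∈ RR π Θ x0 := add_mem h h'

lemma RR_neg {p : XX (n + 4) → HH} {ρ : MB F n} (h : (p, ρ) ∈ RR π Θ x0) :
    (-p, ρ) ∈ RR π Θ x0 := by
  have := neg_mem h
  rwa [Prod.neg_mk, MB_neg] at this

lemma RR_act (o : OO) (f : FF (n + 4)) {p : XX (n + 4) → HH} {ρ : MB F n}
    (h : (p, ρ) ∈ RR π Θ x0) :
    ((fun x => o • (iq (ev x f) * p x)), π o • actW (Θ.θ f) ρ) ∈ RR π Θ x0 := by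
  refine RR_induction (P := fun p ρ =>
    ((fun x => o • (iq (ev x f) * p x)), π o • actW (Θ.θ f) ρ) ∈ RR π Θ x0) ?_ ?_ ?_ ?_ h
  · intro o' f'
    have := gen_mem π Θ x0 (o * o') (f * f')
    simp only [gen, map_mul, iq_mul, actW_mul] at this
    simpa only [gen, actW_smul, mul_smul_comm, smul_smul] using this
  · have h1 : actW (Θ.θ f) 0 = 0 := by funext v; simp [actW]
    simp only [Pi.zero_apply, mul_zero, smul_zero, h1]
    exact zero_mem _
  · intro p ρ q τ h1 h2
    simp only [Pi.add_apply, mul_add, smul_add, actW_add]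
    exact RR_add h1 h2
  · intro p ρ h1
    simp only [Pi.neg_apply, mul_neg, smul_neg]
    exact RR_neg h1

lemma RR_ker {p : XX (n + 4) → HH} {ρ : MB F n} (h : (p, ρ) ∈ RR π Θ x0) (v : V (n + 5)) :
    DD L.l (ρ v) = 0 := by
  refine RR_induction (P := fun _ ρ => DD L.l (ρ v) = 0) ?_ ?_ ?_ ?_ h
  · intro o f
    simp only [gen, actW, Pi.smul_apply, map_smul, Pi.single_apply]
    split_ifs
    · rw [mul_one, Θ.hker, smul_zero]
    · simp
  · simp
  · intro p ρ q τ h1 h2
    rw [Pi.add_apply, map_add, h1, h2, add_zero]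
  · exact fun _ _ h => h

lemma RR_supp {p : XX (n + 4) → HH} {ρ : MB F n} (h : (p, ρ) ∈ RR π Θ x0) {v : V (n + 5)}
    (hv : dot L.l v ≠ dot L.l x0) : ρ v = 0 := by
  refine RR_induction (P := fun _ ρ => ρ v = 0) ?_ ?_ ?_ ?_ h
  · intro o f
    simp only [gen, actW, Pi.smul_apply]
    rw [Pi.single_eq_of_ne, mul_zero, smul_zero]
    intro h
    rw [← h, dot_add, Θ.hw, L.dot_io, add_zero] at hv
    exact hv rfl
  · rfl
  · intro p ρ q τ h1 h2
    rw [Pi.add_apply, h1, h2, add_zero]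
  · exact fun _ _ h => h

lemma gauss_gen (c : V (n + 4)) (o o' : OO) (f f' : FF (n + 4)) :
    bI c (gen π Θ x0 o f).1 (gen π Θ x0 o' f').1 = 0 ∧
    ∃ N : OO, bR c (gen π Θ x0 o f).1 (gen π Θ x0 o' f').1 = 4 ^ (n + 4) * N ∧
      π N = ∑ v, top (L.s F * (1 + ss F (L.io c)) * (gen π Θ x0 o f).2 v *
        (gen π Θ x0 o' f').2 v) := by
  have h1 : ∀ x, star ((gen π Θ x0 o f).1 x) * (gen π Θ x0 o' f').1 x =
      (o * o') • iq (ev x (f⁻¹ * f')) := by
    intro x
    simp only [gen]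
    rw [QuaternionAlgebra.star_smul', smul_mul_smul_comm, star_iq, map_mul, map_inv, iq_mul]
  constructor
  · simp only [bI, h1, QuaternionAlgebra.imI_smul, smul_eq_mul, mul_assoc (o * o'), ← mul_sum]
    rw [Θ.gauss_imI, mul_zero]
  · obtain ⟨N, h2, h3⟩ := Θ.gauss_re c (f⁻¹ * f') x0
    refine ⟨o * o' * N, ?_, ?_⟩
    · simp only [bR, h1, QuaternionAlgebra.re_smul, smul_eq_mul, mul_assoc (o * o'), ← mul_sum]
      rw [h2]; ring
    · simp only [gen, Pi.smul_apply, mul_smul_comm, smul_mul_assoc, map_smul, smul_eq_mul,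
        ← mul_sum, map_mul, map_intCast, h3, deg_mul, deg_inv, actW]
      rw [← mul_assoc, mul_comm (π o')]
      congr 1
      split_ifs with hd
      · have hd' : deg f' = deg f := by
          rw [← add_zero (deg f'), ← V_add_self (deg f), ← add_assoc, add_comm (deg f'), hd,
            zero_add]
        have hw : (Θ.θ f').w = (Θ.θ f).w := by rw [Θ.hw, Θ.hw, hd']
        have hx : x0 + (Θ.θ f).w + (Θ.θ f).w = x0 := by rw [add_assoc, V_add_self, add_zero]
        rw [sum_eq_single (x0 + (Θ.θ f).w)]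
        · rw [hw, hx, Pi.single_eq_same, map_inv, WW.mul_μ, WW.inv_μ, WW.inv_w, mul_one, mul_one,
            mul_assoc (L.s F * (1 + ss F (L.io c)))]
        · intro v _ hv
          rw [Pi.single_eq_of_ne, mul_zero, mul_zero, zero_mul, map_zero]
          intro h
          exact hv (by rw [← h, add_assoc, V_add_self, add_zero])
        · simp
      · refine (sum_eq_zero fun v _ => ?_).symm
        by_cases h : v + (Θ.θ f).w = x0
        · rw [Pi.single_eq_of_ne (i' := v + (Θ.θ f').w), mul_zero, mul_zero, map_zero]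
          intro h'
          have h4 := add_left_cancel (h.trans h'.symm)
          rw [Θ.hw, Θ.hw] at h4
          have h5 := congrArg L.pr h4
          rw [L.pr_io, L.pr_io] at h5
          exact hd (by rw [h5, V_add_self])
        · rw [Pi.single_eq_of_ne h, mul_zero, mul_zero, zero_mul, map_zero]

lemma RR_gauss (c : V (n + 4)) {p q : XX (n + 4) → HH} {ρ τ : MB F n} (h : (p, ρ) ∈ RR π Θ x0)
    (h' : (q, τ) ∈ RR π Θ x0) : bI c p q = 0 ∧ ∃ N : OO, bR c p q = 4 ^ (n + 4) * N ∧
      π N = ∑ v, top (L.s F * (1 + ss F (L.io c)) * ρ v * τ v) := by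
  refine RR_induction (P := fun p ρ => bI c p q = 0 ∧ ∃ N : OO, bR c p q = 4 ^ (n + 4) * N ∧
      π N = ∑ v, top (L.s F * (1 + ss F (L.io c)) * ρ v * τ v)) ?_ ?_ ?_ ?_ h
  · intro o f
    refine RR_induction (P := fun q τ => bI c (gen π Θ x0 o f).1 q = 0 ∧
      ∃ N : OO, bR c (gen π Θ x0 o f).1 q = 4 ^ (n + 4) * N ∧
      π N = ∑ v, top (L.s F * (1 + ss F (L.io c)) * (gen π Θ x0 o f).2 v * τ v)) ?_ ?_ ?_ ?_ h'
    · exact fun o' f' => gauss_gen c o o' f f'
    · exact ⟨bI_zero_right _ _, 0, by rw [bR_zero_right, mul_zero], by simp⟩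
    · rintro q τ q' τ' ⟨h1, N, h2, h3⟩ ⟨h1', N', h2', h3'⟩
      refine ⟨by rw [bI_add_right, h1, h1', add_zero], N + N',
        by rw [bR_add_right, h2, h2', mul_add], ?_⟩
      simp only [map_add, h3, h3', Pi.add_apply, mul_add (_ * _ * _), sum_add_distrib]
    · rintro q τ ⟨h1, N, h2, h3⟩
      exact ⟨by rw [bI_neg_right, h1, neg_zero], -N, by rw [bR_neg_right, h2, mul_neg],
        by rw [map_neg, CharTwo.neg_eq, h3]⟩
  · exact ⟨bI_zero_left _ _, 0, by rw [bR_zero_left, mul_zero], by simp⟩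
  · rintro p ρ p' ρ' ⟨h1, N, h2, h3⟩ ⟨h1', N', h2', h3'⟩
    refine ⟨by rw [bI_add_left, h1, h1', add_zero], N + N',
      by rw [bR_add_left, h2, h2', mul_add], ?_⟩
    rw [map_add, h3, h3', ← sum_add_distrib]
    refine sum_congr rfl fun v _ => ?_
    rw [← map_add, Pi.add_apply, mul_add (L.s F * _), add_mul]
  · rintro p ρ ⟨h1, N, h2, h3⟩
    exact ⟨by rw [bI_neg_left, h1, neg_zero], -N, by rw [bR_neg_left, h2, mul_neg],
      by rw [map_neg, CharTwo.neg_eq, h3]⟩

lemma RR_single (hπ : Function.Surjective π) {v : V (n + 5)} (hv : dot L.l v = dot L.l x0)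
    {γ : Al F (n + 5)} (hγ : DD L.l γ = 0) : ∃ p, (p, Pi.single v γ) ∈ RR π Θ x0 := by
  have hw : v + (Θ.θ (sec (L.pr (v + x0)))).w = x0 := by
    rw [Θ.hw, deg_sec, L.io_pr (by rw [dot_add, hv, zmod2_add_self]), ← add_assoc, V_add_self,
      zero_add]
  have h0 : ∃ p, (p, Pi.single v ((Θ.θ (sec (L.pr (v + x0)))).μ v)) ∈ RR π Θ x0 := by
    have h1 := gen_mem π Θ x0 1 (sec (L.pr (v + x0)))
    have h2 : π 1 • actW (Θ.θ (sec (L.pr (v + x0)))) (Pi.single x0 1) =
        Pi.single v ((Θ.θ (sec (L.pr (v + x0)))).μ v) := by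
      funext v'
      rw [map_one, one_smul, actW]
      by_cases h : v' = v
      · rw [h, hw, Pi.single_eq_same, Pi.single_eq_same, mul_one]
      · rw [Pi.single_eq_of_ne h, Pi.single_eq_of_ne, mul_zero]
        intro h'
        exact h (add_right_cancel (h'.trans hw.symm))
    rw [gen, h2] at h1
    exact ⟨_, h1⟩
  have key : ∀ δ, (∃ p, (p, Pi.single v δ) ∈ RR π Θ x0) →
      ∃ p, (p, Pi.single v (γ * (Θ.θ (sec (L.pr (v + x0)))).μ v * δ)) ∈ RR π Θ x0 := by
    refine L.ker_induction (P := fun a => ∀ δ, (∃ p, (p, Pi.single v δ) ∈ RR π Θ x0) →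
      ∃ p, (p, Pi.single v (a * δ)) ∈ RR π Θ x0) ?_ ?_ ?_ ?_ (L.ker_mul hγ (Θ.hker _ _))
    · intro δ h
      rwa [one_mul]
    · intro a b ha hb δ h
      obtain ⟨p, hp⟩ := ha δ h
      obtain ⟨q, hq⟩ := hb δ h
      exact ⟨p + q, by rw [add_mul, Pi.single_add]; exact RR_add hp hq⟩
    · intro c a ha δ h
      obtain ⟨p, hp⟩ := ha δ h
      obtain ⟨o, rfl⟩ := hπ c
      have h1 := RR_act o 1 hp
      rw [map_one, actW_one, ← Pi.single_smul, ← smul_mul_assoc] at h1
      exact ⟨_, h1⟩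
    · intro w a hw ha δ h
      obtain ⟨p, hp⟩ := ha δ h
      have h1 := RR_add (RR_act 1 (sec (L.pr w) * sec (L.pr w)) hp) hp
      have h2 : π 1 • actW (Θ.θ (sec (L.pr w) * sec (L.pr w))) (Pi.single v (a * δ)) +
          Pi.single v (a * δ) = Pi.single v (ss F w * a * δ) := by
        funext v'
        rw [map_one, one_smul, Θ.hsq, Pi.add_apply, actW]
        simp only [cst, add_zero, deg_sec, L.io_pr hw]
        by_cases h : v' = v
        · rw [h, Pi.single_eq_same, Pi.single_eq_same]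
          linear_combination A_add_self (a * δ)
        · simp [Pi.single_eq_of_ne h]
      rw [h2] at h1
      exact ⟨_, h1⟩
  have h3 := key _ h0
  rwa [mul_assoc, ((Θ.θ _).hμ v).1, mul_one] at h3

lemma RR_surj (hπ : Function.Surjective π) {ρ : MB F n} (h1 : ∀ v, DD L.l (ρ v) = 0)
    (h2 : ∀ v, dot L.l v ≠ dot L.l x0 → ρ v = 0) : ∃ p, (p, ρ) ∈ RR π Θ x0 := by
  have h3 : ∀ v, ∃ p, (p, Pi.single v (ρ v)) ∈ RR π Θ x0 := by
    intro v
    by_cases hv : dot L.l v = dot L.l x0
    · exact RR_single hπ hv (h1 v)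
    · rw [h2 v hv, Pi.single_zero]
      exact ⟨0, zero_mem _⟩
  choose p hp using h3
  have h4 := sum_mem (S := RR π Θ x0) (t := univ) fun v _ => hp v
  rw [← prod_mk_sum, univ_sum_single] at h4
  exact ⟨_, h4⟩

lemma four_pow_mul {k : ℕ} {x : OO} (h : 4 ^ k * x = 0) : x = 0 :=
  OO_pow_mul (2 * k) (by rw [pow_mul, ← h]; norm_num)

lemma RR_nondeg (hπ : Function.Surjective π) (c : V (n + 4)) {p : XX (n + 4) → HH} {ρ : MB F n}
    (h : (p, ρ) ∈ RR π Θ x0) (h0 : ∀ q τ, (q, τ) ∈ RR π Θ x0 → bR c p q = 0) : ρ = 0 := by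
  funext v
  by_cases hv : dot L.l v = dot L.l x0
  · refine L.nondeg (L.io c) (L.dot_io c) (RR_ker h v) fun γ hγ => ?_
    obtain ⟨q, hq⟩ := RR_single (Θ := Θ) hπ hv hγ
    obtain ⟨-, N, h1, h2⟩ := RR_gauss c h hq
    rw [h0 _ _ hq] at h1
    rw [four_pow_mul h1.symm, map_zero, sum_eq_single v, Pi.single_eq_same] at h2
    · exact h2.symm
    · intro v' _ hv'
      rw [Pi.single_eq_of_ne hv', mul_zero, map_zero]
    · simp
  · exact RR_supp h hv

lemma theta_eq_one (hπ : Function.Surjective π) (Θ : Theta F L) {f : FF (n + 4)}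
    (h : ∀ x, ev x f = 1) : Θ.θ f = 1 := by
  have h1 : deg f = 0 := by
    funext i
    have := congrArg QQ.a (h (0, ee i, 0))
    rwa [ev_a, ee_dot] at this
  have h2 : (Θ.θ f).w = 0 := by rw [Θ.hw, h1, L.io_zero]
  refine WW.ext' h2 fun v => ?_
  have h3 := RR_add (gen_mem π Θ v 1 f) (RR_neg (gen_mem π Θ v 1 1))
  have h4 := RR_nondeg hπ 0 h3 fun q τ _ => by
    simp only [h, map_one, add_neg_cancel, bR_zero_left]
  have h5 := congrFun h4 v
  simp only [map_one, one_smul, actW, Pi.add_apply, h2, add_zero, Pi.single_eq_same, mul_one,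
    WW.one_w, Pi.zero_apply] at h5
  linear_combination h5 - A_add_self ((1 : WW F (n + 5)).μ v)

end Pool.Agent.Lib.MP_631532_al
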