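import Pool.Agent.Lib.MP_631532_al.Final

/-!
Cyclic series for the group `G`, its nilpotent normal subgroup of finite index, and finiteness
of the test groups.
-/

noncomputable section

open Finset

namespace Pool.Agent.Lib.MP_631532_al

section Series

variable {G : Type} [Group G]

/-- One step of a cyclic series. -/
def Step (A B : Subgroup G) : Prop :=
  A ≤ B ∧ (∀ b ∈ B, ∀ a ∈ A, b * a * b⁻¹ ∈ A) ∧ ∃ g ∈ B, ∀ x ∈ B, ∃ n : ℤ, (g ^ n)⁻¹ * x ∈ A

lemma conj_mem_of_comm {A A' B : Subgroup G} (hA : A ≤ A') (hB : A' ≤ B)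
    (hc : ∀ x ∈ B, ∀ y ∈ B, x * y * x⁻¹ * y⁻¹ ∈ A) : ∀ b ∈ B, ∀ a ∈ A', b * a * b⁻¹ ∈ A' := by
  intro b hb a ha
  have : b * a * b⁻¹ = (b * a * b⁻¹ * a⁻¹) * a := by group
  rw [this]
  exact A'.mul_mem (hA (hc b hb a (hB ha))) ha

lemma step_sup {A' : Subgroup G} {g : G}
    (hn : ∀ b ∈ A' ⊔ Subgroup.closure {g}, ∀ a ∈ A', b * a * b⁻¹ ∈ A') :
    Step A' (A' ⊔ Subgroup.closure {g}) := by
  have hgm : g ∈ A' ⊔ Subgroup.closure {g} :=
    Subgroup.mem_sup_right (Subgroup.subset_closure rfl)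
  refine ⟨le_sup_left, hn, g, hgm, ?_⟩
  let C : Subgroup G :=
    { carrier := {x | ∃ n : ℤ, (g ^ n)⁻¹ * x ∈ A'}
      one_mem' := ⟨0, by simp⟩
      mul_mem' := by
        rintro x y ⟨n, hx⟩ ⟨m, hy⟩
        refine ⟨n + m, ?_⟩
        have h1 := hn (g ^ m)⁻¹ (Subgroup.inv_mem _ (Subgroup.zpow_mem _ hgm m)) _ hx
        have h2 : (g ^ (n + m))⁻¹ * (x * y) =
            ((g ^ m)⁻¹ * ((g ^ n)⁻¹ * x) * (g ^ m)⁻¹⁻¹) * ((g ^ m)⁻¹ * y) := by
          rw [zpow_add]; group
        rw [h2]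
        exact A'.mul_mem h1 hy
      inv_mem' := by
        rintro x ⟨n, hx⟩
        refine ⟨-n, ?_⟩
        have h1 := hn (g ^ n) (Subgroup.zpow_mem _ hgm n) _ (A'.inv_mem hx)
        have h2 : (g ^ (-n))⁻¹ * x⁻¹ = g ^ n * ((g ^ n)⁻¹ * x)⁻¹ * (g ^ n)⁻¹ := by group
        rw [h2]
        exact h1 }
  have hC : A' ⊔ Subgroup.closure {g} ≤ C := by
    refine sup_le (fun a ha => ⟨0, by simpa using ha⟩) ((Subgroup.closure_le _).mpr ?_)
    rintro _ rfl
    exact ⟨1, by simp⟩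
  exact fun x hx => hC hx

lemma chain_of_fg {A B : Subgroup G} (hc : ∀ x ∈ B, ∀ y ∈ B, x * y * x⁻¹ * y⁻¹ ∈ A) (hA : A ≤ B)
    (S : Set G) (hS : S.Finite) (hSB : S ⊆ B) :
    Relation.ReflTransGen Step A (A ⊔ Subgroup.closure S) := by
  induction S, hS using Set.Finite.induction_on with
  | empty => simpa using Relation.ReflTransGen.refl
  | @insert g S _ _ ih =>
    have hg : g ∈ B := hSB (Set.mem_insert _ _)
    have hS' : S ⊆ B := fun x hx => hSB (Set.mem_insert_of_mem _ hx)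
    have h1 : A ⊔ Subgroup.closure S ≤ B := sup_le hA ((Subgroup.closure_le _).mpr hS')
    have h2 := conj_mem_of_comm (le_sup_left : A ≤ A ⊔ Subgroup.closure S) h1 hc
    have h3 : A ⊔ Subgroup.closure (insert g S) =
        (A ⊔ Subgroup.closure S) ⊔ Subgroup.closure {g} := by
      rw [Set.insert_eq, Subgroup.closure_union, sup_assoc, sup_comm (Subgroup.closure {g})]
    rw [h3]
    refine (ih hS').tail (step_sup fun b hb => h2 b ?_)
    exact (sup_le h1 ((Subgroup.closure_le _).mpr (Set.singleton_subset_iff.mpr hg)) :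
      _ ≤ B) hb

lemma chain_of_poly (h : Poly G) : Relation.ReflTransGen Step (⊥ : Subgroup G) ⊤ := by
  obtain ⟨n, hn⟩ := h.1.solvable
  have key : ∀ m, Relation.ReflTransGen Step (derivedSeries G m) ⊤ := by
    intro m
    induction m with
    | zero => exact Relation.ReflTransGen.refl
    | succ m ih =>
      obtain ⟨S, hS, hSf⟩ := (Subgroup.fg_iff _).mp (h.2 (derivedSeries G m))
      have hle : derivedSeries G (m + 1) ≤ derivedSeries G m := by
        rw [derivedSeries_succ]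
        exact Subgroup.commutator_le_left _ _
      have h1 := chain_of_fg (A := derivedSeries G (m + 1)) (B := derivedSeries G m)
        (fun x hx y hy => by
          rw [derivedSeries_succ]
          exact Subgroup.commutator_mem_commutator hx hy) hle S hSf
        (hS ▸ Subgroup.subset_closure)
      rw [hS, sup_eq_right.mpr hle] at h1
      exact h1.trans ih
  exact hn ▸ key n

lemma series_of_chain {A B : Subgroup G} (h : Relation.ReflTransGen Step A B) :
    ∃ (k : ℕ) (H : ℕ → Subgroup G), H 0 = A ∧ H k = B ∧ ∀ i < k, Step (H i) (H (i + 1)) := by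
  induction h with
  | refl => exact ⟨0, fun _ => A, rfl, rfl, fun i hi => absurd hi (Nat.not_lt_zero i)⟩
  | @tail B C _ hBC ih =>
    obtain ⟨k, H, h0, hk, hs⟩ := ih
    refine ⟨k + 1, fun i => if i ≤ k then H i else C, by simp [h0], by simp, fun i hi => ?_⟩
    rcases Nat.lt_succ_iff_lt_or_eq.mp hi with hi | rfl
    · simp only [if_pos hi.le, if_pos (Nat.succ_le_of_lt hi)]
      exact hs i hi
    · simp only [le_refl, if_true, Nat.succ_le_iff, lt_irrefl, if_false, hk]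
      exact hBC

lemma Step.cyclic {A B : Subgroup G} (h : Step A B) :
    ∃ _ : (A.subgroupOf B).Normal, IsCyclic (B ⧸ A.subgroupOf B) := by
  obtain ⟨-, hn, g, hg, hx⟩ := h
  have hN : (A.subgroupOf B).Normal := ⟨fun a ha b => hn b b.2 a ha⟩
  refine ⟨hN, ⟨⟨QuotientGroup.mk ⟨g, hg⟩, fun y => ?_⟩⟩⟩
  obtain ⟨x, rfl⟩ := QuotientGroup.mk_surjective y
  obtain ⟨n, hn⟩ := hx x x.2
  refine ⟨n, ?_⟩
  change (QuotientGroup.mk ⟨g, hg⟩ : B ⧸ A.subgroupOf B) ^ n = _
  rw [← QuotientGroup.mk_zpow, QuotientGroup.eq]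
  exact hn

end Series

lemma Ext.finite {M Z T : Type} [AddCommGroup M] [AddCommGroup Z] [Group T] (D : ExtData M Z T)
    [Finite M] [Finite Z] [Finite T] : Finite (Ext D) :=
  Finite.of_injective (fun x : Ext D => (x.a, x.e, x.g)) fun x y h => by
    simp only [Prod.mk.injEq] at h
    exact Ext.ext' h.1 h.2.1 h.2.2

lemma Ext.class_two {M Z T : Type} [AddCommGroup M] [AddCommGroup Z] [Group T]
    (D : ExtData M Z T) {x y z : Ext D} (hx : x.g = 1) (hy : y.g = 1) (hz : z.g = 1) :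
    Commute (x * y * x⁻¹ * y⁻¹) z := by
  have h1 : (x * y * x⁻¹ * y⁻¹).g = 1 := by
    rw [Ext.mul_g, Ext.conj_g x hy, Ext.inv_g, hy, inv_one, mul_one]
  have h2 : (x * y * x⁻¹ * y⁻¹).a = 0 := by
    rw [Ext.mul_a, Ext.conj_g x hy, Ext.conj_a x hy, hx, Ext.inv_a, hy, inv_one]
    simp only [D.act_one, add_neg_cancel]
  refine (Ext.comm_iff h1 hz).mpr ?_
  rw [h2, map_zero, map_zero, AddMonoidHom.zero_apply]

/-- A finite extension of a nilpotent group of class at most two. -/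
def TwoByFinite (G : Type) [Group G] : Prop :=
  ∃ N : Subgroup G, N.Normal ∧ N.FiniteIndex ∧
    ∀ x ∈ N, ∀ y ∈ N, ∀ z ∈ N, Commute (x * y * x⁻¹ * y⁻¹) z

lemma Ext.ker_class_two {M Z T : Type} [AddCommGroup M] [AddCommGroup Z] [Group T] [Finite T]
    (D : ExtData M Z T) : TwoByFinite (Ext D) :=
  ⟨(Ext.top D).ker, inferInstance, inferInstance,
    fun _ hx _ hy _ hz => Ext.class_two D hx hy hz⟩

lemma finite_Al (F : Type) [CommRing F] [Finite F] (m : ℕ) : Finite (Al F m) :=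
  Finite.of_injective (fun a : Al F m => (fun v => a.coeff v : V m → F)) fun a b h => by
    ext v
    exact congrFun h v

lemma finite_WW (F : Type) [CommRing F] [CharP F 2] [Finite F] (m : ℕ) : Finite (WW F m) := by
  have := finite_Al F m
  exact Finite.of_injective (fun g : WW F m => (g.w, g.μ)) fun g h e => by
    simp only [Prod.mk.injEq] at e
    exact WW.ext' e.1 (congrFun e.2)

lemma finite_quot : Finite (OO ⧸ Ideal.span {((2 : ℕ) : OO)}) := by
  refine Finite.of_surjective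
    (fun p : Fin 2 × Fin 2 => (Ideal.Quotient.mk _ (⟨(p.1 : ℕ), (p.2 : ℕ)⟩ : OO))) fun y => ?_
  obtain ⟨x, rfl⟩ := Ideal.Quotient.mk_surjective y
  refine ⟨(⟨(x.re % 2).toNat, by omega⟩, ⟨(x.im % 2).toNat, by omega⟩), ?_⟩
  refine Ideal.Quotient.eq.mpr (Ideal.mem_span_singleton'.mpr ⟨⟨-(x.re / 2), -(x.im / 2)⟩, ?_⟩)
  rw [Nat.cast_ofNat, mul_two]
  ext
  · simp only [QuadraticAlgebra.re_add, QuadraticAlgebra.re_sub]
    omega
  · simp only [QuadraticAlgebra.im_add, QuadraticAlgebra.im_sub]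
    omega

theorem finite_test (S : Finset (FreeGroup ℕ))
    (hS : ∀ s ∈ S, ∀ f : ℕ → GG, FreeGroup.lift f s = 1) :
    ∃ (X : Type) (_ : Group X), Finite X ∧ (∀ s ∈ S, ∀ f : ℕ → X, FreeGroup.lift f s = 1) ∧
      ∃ w : FreeGroup ℕ, (∀ f : ℕ → GG, FreeGroup.lift f w = 1) ∧
        ∃ f : ℕ → X, FreeGroup.lift f w ≠ 1 := by
  choose vars hvars using exists_vars
  let k := (S.biUnion vars).card
  let K := OO ⧸ Ideal.span {((2 : ℕ) : OO)}
  have : CharP K 2 := CharP.quotient OO 2 OO_two_nonunit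
  let p : OO →+* K := Ideal.Quotient.mk _
  have hp : Function.Surjective p := Ideal.Quotient.mk_surjective
  have : Finite K := finite_quot
  have := finite_Al K (k + 5)
  have := finite_WW K (k + 5)
  have := Ext.finite (DB p k)
  refine ⟨BB p k, inferInstance, inferInstance, fun s hs f => ?_, lawW (k + 5),
    fun f => GG_law _ f fun _ => Set.mem_univ _, fun i => ⟨ff p k i, ff_mem p i⟩, fun h => ?_⟩
  · have h3 := satOn_few (n := k) hp (fun f _ => hS s hs f) (vars s)
      (card_le_card (subset_biUnion_of_mem vars hs)) (hvars s _) (fun i => (f i : Ext (DB p k)))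
      fun i => (f i).2
    exact Subtype.ext ((map_lift (BB p k).subtype f s).trans h3)
  · refine BB_violates p (n := k) ?_
    have h1 := map_lift (BB p k).subtype (fun i => (⟨ff p k i, ff_mem p i⟩ : BB p k))
      (lawW (k + 5))
    rw [h, map_one] at h1
    exact h1.symm

theorem exists_example : ∃ (G : Type) (_ : Group G), Poly G ∧ TwoByFinite G ∧
    ∀ S : Finset (FreeGroup ℕ), (∀ s ∈ S, ∀ f : ℕ → G, FreeGroup.lift f s = 1) →
    ∃ (X : Type) (_ : Group X), Finite X ∧ (∀ s ∈ S, ∀ f : ℕ → X, FreeGroup.lift f s = 1) ∧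
      ∃ w : FreeGroup ℕ, (∀ f : ℕ → G, FreeGroup.lift f w = 1) ∧
        ∃ f : ℕ → X, FreeGroup.lift f w ≠ 1 :=
  ⟨GG, _, GG_poly, Ext.ker_class_two DG, finite_test⟩

end Pool.Agent.Lib.MP_631532_al
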